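import Pool.Agent.Dirac86.Tri.Defs

/-!
# The parity of the ranks of the bad slopes
-/

set_option autoImplicit false
open Finset Classical

namespace Pool.Agent.Dirac86.Tri

open Pool.Agent.Dirac80 (connectingLines mem_connecting connecting_eq Pl area)
open Pool.Agent.Dirac86.Few (evl)

private theorem cl_split (T : Finset ℝ) {c y : ℝ} (h : c < y) :
    (T.filter (fun τ => τ < y)).card = (T.filter (fun τ => τ < c)).card +
      (T.filter (fun τ => τ = c)).card + (T.filter (fun τ => c < τ ∧ τ < y)).card := by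
  rw [card_filter, card_filter, card_filter, card_filter, ← sum_add_distrib, ← sum_add_distrib]
  refine sum_congr rfl (fun τ _ => ?_)
  rcases lt_trichotomy τ c with h1 | h1 | h1
  · rw [if_pos (h1.trans h), if_pos h1, if_neg h1.ne, if_neg (fun h2 => lt_asymm h1 h2.1)]
  · rw [if_pos (h1 ▸ h), if_neg (by rw [h1]; exact lt_irrefl _), if_pos h1,
      if_neg (fun h2 => h1.le.not_gt h2.1)]
  · rw [if_neg (lt_asymm h1), if_neg h1.ne']
    by_cases h2 : τ < y
    · rw [if_pos h2, if_pos ⟨h1, h2⟩]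
    · rw [if_neg h2, if_neg (fun h3 => h2 h3.2)]

private theorem cl_gap {T : Finset ℝ} {c z : ℝ} (hc : c < z) (g : ∀ τ ∈ T, ¬ (c ≤ τ ∧ τ < z)) :
    (T.filter (fun τ => τ < c)).card = (T.filter (fun τ => τ < z)).card := by
  congr 1
  apply filter_congr
  intro τ hτ
  constructor
  · intro h
    exact h.trans hc
  · intro h
    by_contra h2
    exact g τ hτ ⟨not_lt.1 h2, h⟩

private theorem cl_btw {T : Finset ℝ} {c y : ℝ} (h : c < y) :
    T.filter (fun τ => Btw c y τ) = T.filter (fun τ => c < τ ∧ τ < y) := by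
  apply filter_congr
  intro τ _
  constructor
  · rintro (h1 | h1)
    · exact h1
    · exact absurd (h1.1.trans h1.2) (lt_asymm h)
  · intro h1
    exact Or.inl h1

private theorem cl_btw' {T : Finset ℝ} {c y : ℝ} (h : y < c) :
    T.filter (fun τ => Btw c y τ) = T.filter (fun τ => y < τ ∧ τ < c) := by
  apply filter_congr
  intro τ _
  constructor
  · rintro (h1 | h1)
    · exact absurd (h1.1.trans h1.2) (lt_asymm h)
    · exact h1
  · intro h1
    exact Or.inr h1

private theorem cl_up {T E : Finset ℝ} {c z y : ℝ} (hc : c < z)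
    (g : ∀ τ ∈ T, ¬ (c ≤ τ ∧ τ < z)) (hcy : c < y)
    (p : Even ((T.filter (fun τ => Btw c y τ)).card + (E.filter (fun τ => Btw c y τ)).card)) :
    ((T.filter (fun τ => τ < y)).card + (T.filter (fun τ => τ < z)).card +
      (E.filter (fun τ => c < τ ∧ τ < y)).card) % 2 = 0 := by
  rw [cl_btw hcy, cl_btw hcy] at p
  have h1 := cl_split T hcy
  have h2 := cl_gap hc g
  have h3 : (T.filter (fun τ => τ = c)).card = 0 := by
    rw [card_eq_zero, filter_eq_empty_iff]
    intro τ hτ h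
    exact g τ hτ ⟨h.ge, h ▸ hc⟩
  obtain ⟨k, hk⟩ := p
  omega

private theorem cl_down {T E : Finset ℝ} {c z y : ℝ} (hc : c < z)
    (g : ∀ τ ∈ T, ¬ (c ≤ τ ∧ τ < z)) (hy : y ∈ T) (hcy : y < c)
    (p : Even ((T.filter (fun τ => Btw c y τ)).card + (E.filter (fun τ => Btw c y τ)).card)) :
    ((T.filter (fun τ => τ < y)).card + (T.filter (fun τ => τ < z)).card + 1 +
      (E.filter (fun τ => y < τ ∧ τ < c)).card) % 2 = 0 := by
  rw [cl_btw' hcy, cl_btw' hcy] at p
  have h1 := cl_split T hcy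
  have h2 := cl_gap hc g
  have h3 : (T.filter (fun τ => τ = y)).card = 1 := by
    rw [card_eq_one]
    refine ⟨y, ?_⟩
    ext τ
    rw [mem_filter, mem_singleton]
    constructor
    · intro h
      exact h.2
    · intro h
      exact ⟨h ▸ hy, h⟩
  obtain ⟨k, hk⟩ := p
  omega

/-- K3. -/
theorem colour {T B : Finset ℝ} (hBT : B ⊆ T) {y1 y2 c1 c2 : ℝ} {E1 E2 : Finset ℝ}
    (hy1 : y1 ∈ B) (hy2 : y2 ∈ B) (h12 : y1 < y2) (hc1 : c1 < y1) (hc2 : c2 < y2)
    (g1 : ∀ τ ∈ T, ¬ (c1 ≤ τ ∧ τ < y1)) (g2 : ∀ τ ∈ T, ¬ (c2 ≤ τ ∧ τ < y2))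
    (hE1 : E1.card ≤ 1) (hE2 : E2.card ≤ 1)
    (p1 : ∀ y ∈ B, Even ((T.filter (fun τ => Btw c1 y τ)).card +
      (E1.filter (fun τ => Btw c1 y τ)).card))
    (p2 : ∀ y ∈ B, Even ((T.filter (fun τ => Btw c2 y τ)).card +
      (E2.filter (fun τ => Btw c2 y τ)).card))
    (hsame : (T.filter (fun τ => τ < y1)).card % 2 = (T.filter (fun τ => τ < y2)).card % 2) :
    (∀ y ∈ B, (T.filter (fun τ => τ < y)).card % 2 = (T.filter (fun τ => τ < y1)).card % 2) ∧
      ∃ e ∈ E2, e < c2 := by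
  have hy1T := hBT hy1
  -- `y1` lies below `c2`
  have h1c2 : y1 < c2 := by
    by_contra h
    exact g2 y1 hy1T ⟨not_lt.1 h, h12⟩
  -- `E1` has no element between `c1` and `y2`
  have hc1y2 : c1 < y2 := hc1.trans h12
  have a1 := cl_up hc1 g1 hc1y2 (p1 y2 hy2)
  have a2 : (E1.filter (fun τ => c1 < τ ∧ τ < y2)).card ≤ 1 :=
    (card_le_card (filter_subset _ _)).trans hE1
  have a3 : (E1.filter (fun τ => c1 < τ ∧ τ < y2)).card = 0 := by omega
  rw [card_eq_zero, filter_eq_empty_iff] at a3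
  -- `E2` is an element between `y1` and `c2`
  have b1 := cl_down hc2 g2 hy1T h1c2 (p2 y1 hy1)
  have b2 : (E2.filter (fun τ => y1 < τ ∧ τ < c2)).card ≤ 1 :=
    (card_le_card (filter_subset _ _)).trans hE2
  have b3 : (E2.filter (fun τ => y1 < τ ∧ τ < c2)).card = 1 := by omega
  obtain ⟨e, he⟩ := card_eq_one.1 b3
  have he' : e ∈ E2.filter (fun τ => y1 < τ ∧ τ < c2) := by
    rw [he]
    exact mem_singleton_self e
  rw [mem_filter] at he'
  obtain ⟨heE, hy1e, hec2⟩ := he'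
  have hE2e : ∀ τ ∈ E2, τ = e := fun τ hτ => card_le_one.1 hE2 τ hτ e heE
  refine ⟨?_, e, heE, hec2⟩
  intro y hy
  have hyT := hBT hy
  rcases lt_trichotomy y c2 with h | h | h
  · rcases lt_trichotomy y c1 with h' | h' | h'
    · -- below `c1`
      have d1 := cl_down hc2 g2 hyT h (p2 y hy)
      have d2 : (E2.filter (fun τ => y < τ ∧ τ < c2)).card = 1 := by
        have d3 : (E2.filter (fun τ => y < τ ∧ τ < c2)).card ≤ 1 :=
          (card_le_card (filter_subset _ _)).trans hE2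
        have d4 : 0 < (E2.filter (fun τ => y < τ ∧ τ < c2)).card :=
          card_pos.2 ⟨e, mem_filter.2 ⟨heE, (h'.trans hc1).trans hy1e, hec2⟩⟩
        omega
      omega
    · exact absurd ⟨h'.ge, h' ▸ hc1⟩ (g1 y hyT)
    · -- between `c1` and `c2`
      have d1 := cl_up hc1 g1 h' (p1 y hy)
      have d2 : (E1.filter (fun τ => c1 < τ ∧ τ < y)).card = 0 := by
        rw [card_eq_zero, filter_eq_empty_iff]
        intro τ hτ hh
        exact a3 hτ ⟨hh.1, (hh.2.trans h).trans hc2⟩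
      omega
  · exact absurd ⟨h.ge, h ▸ hc2⟩ (g2 y hyT)
  · -- above `c2`
    have d1 := cl_up hc2 g2 h (p2 y hy)
    have d2 : (E2.filter (fun τ => c2 < τ ∧ τ < y)).card = 0 := by
      rw [card_eq_zero, filter_eq_empty_iff]
      intro τ hτ hh
      rw [hE2e τ hτ] at hh
      exact lt_asymm hh.1 hec2
    omega

end Pool.Agent.Dirac86.Tri
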