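import Pool.Agent.Dirac86.Tri.SlopePar
import Pool.Agent.Dirac86.Tri.Colour

/-!
# The tight points
-/

set_option autoImplicit false
open Finset Classical

namespace Pool.Agent.Dirac86.Tri

open Pool.Agent.Dirac80 (connectingLines mem_connecting connecting_eq Pl area)
open Pool.Agent.Dirac86.Few (evl)

/-- K4. -/
theorem core {ι : Type*} (P : Finset ι) (X Y : ι → ℝ)
    (hinj : ∀ v ∈ P, ∀ w ∈ P, X v = X w → Y v = Y w → v = w) (T B : Finset ℝ) (hBT : B ⊆ T)
    (hT : Odd T.card) (hbad : ∀ y ∈ B, ∀ d, Even (P.filter (fun w => Y w - y * X w = d)).card)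
    (V W : Finset ι) (hVP : V ⊆ P) (f : ι → ℝ) (hf : Set.InjOn f V)
    (hV : ∀ b ∈ V, f b ∈ B ∧ ∃ c, c < f b ∧ (∀ τ ∈ T, ¬ (c ≤ τ ∧ τ < f b)) ∧
        ∀ w ∈ P, w ≠ b → Y w - c * X w < Y b - c * X b)
    (hW : W ⊆ V) (h3 : 3 ≤ W.card) (E : ι → Finset ℝ) (hE1 : ∀ b ∈ W, (E b).card ≤ 1)
    (hE : ∀ b ∈ W, ∀ σ, σ ∈ E b ↔ Even ((P.filter (fun w => Y w - Y b = σ * (X w - X b))).card +
      if σ ∈ T then 1 else 0)) :
    (∀ y ∈ B, ∀ z ∈ B,
      (T.filter (fun τ => τ < y)).card % 2 = (T.filter (fun τ => τ < z)).card % 2) ∧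
    ∃ v ∈ W, (E v).Nonempty ∧ (∃ c, c < f v ∧ ∀ w ∈ P, w ≠ v → Y w - c * X w < Y v - c * X v) ∧
      (Even (T.filter (fun τ => τ < f v)).card → Odd (P.filter (fun w => X w < X v)).card) := by
  have hV' : ∀ b ∈ W, f b ∈ B ∧ ∃ c, c < f b ∧ (∀ τ ∈ T, ¬ (c ≤ τ ∧ τ < f b)) ∧
        ∀ w ∈ P, w ≠ b → Y w - c * X w < Y b - c * X b := fun b hb => hV b (hW hb)
  choose! hfB c hc g hmax using hV'
  have hWP : ∀ b ∈ W, b ∈ P := fun b hb => hVP (hW hb)
  have hin : ∀ b ∈ W, ∀ w ∈ P, X w = X b → Y w = Y b → w = b :=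
    fun b hb w hw h h' => hinj w hw b (hWP b hb) h h'
  -- the parity relations at the tight points
  have hp : ∀ b ∈ W, ∀ y ∈ B, Even ((T.filter (fun τ => Btw (c b) y τ)).card +
      ((E b).filter (fun τ => Btw (c b) y τ)).card) := by
    intro b hb y hy
    have hyc : y ≠ c b := by
      intro h
      exact g b hb y (hBT hy) ⟨h.ge, h ▸ hc b hb⟩
    exact tight_bad P X Y T (E b) (hWP b hb) (hin b hb) (hE b hb) (hmax b hb) hyc (hbad y hy)
  have key : ∀ b1 ∈ W, ∀ b2 ∈ W, f b1 < f b2 →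
      (T.filter (fun τ => τ < f b1)).card % 2 = (T.filter (fun τ => τ < f b2)).card % 2 →
      (∀ y ∈ B, (T.filter (fun τ => τ < y)).card % 2 = (T.filter (fun τ => τ < f b1)).card % 2) ∧
      ∃ e ∈ E b2, e < c b2 := by
    intro b1 hb1 b2 hb2 h12 hs
    exact colour hBT (hfB b1 hb1) (hfB b2 hb2) h12 (hc b1 hb1) (hc b2 hb2) (g b1 hb1) (g b2 hb2)
      (hE1 b1 hb1) (hE1 b2 hb2) (hp b1 hb1) (hp b2 hb2) hs
  -- two tight points of the same parity
  have hpig : ∃ b1 ∈ W, ∃ b2 ∈ W, b1 ≠ b2 ∧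
      (T.filter (fun τ => τ < f b1)).card % 2 = (T.filter (fun τ => τ < f b2)).card % 2 := by
    have h4 : (Finset.range 2).card < W.card := by
      rw [card_range]
      omega
    obtain ⟨b1, hb1, b2, hb2, hne, h⟩ := exists_ne_map_eq_of_card_lt_of_maps_to h4
      (f := fun b => (T.filter (fun τ => τ < f b)).card % 2)
      (fun b _ => by
        have : (T.filter (fun τ => τ < f b)).card % 2 < 2 := Nat.mod_lt _ (by norm_num)
        simpa using this)
    exact ⟨b1, hb1, b2, hb2, hne, h⟩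
  have hall : ∀ y ∈ B, ∀ z ∈ B,
      (T.filter (fun τ => τ < y)).card % 2 = (T.filter (fun τ => τ < z)).card % 2 := by
    obtain ⟨b1, hb1, b2, hb2, hne, hs⟩ := hpig
    have hfne : f b1 ≠ f b2 := fun h => hne (hf (hW hb1) (hW hb2) h)
    rcases lt_or_gt_of_ne hfne with h | h
    · have h5 := (key b1 hb1 b2 hb2 h hs).1
      intro y hy z hz
      rw [h5 y hy, h5 z hz]
    · have h5 := (key b2 hb2 b1 hb1 h hs.symm).1
      intro y hy z hz
      rw [h5 y hy, h5 z hz]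
  refine ⟨hall, ?_⟩
  -- the tight point of largest slope
  have hWne : W.Nonempty := card_pos.1 (by omega)
  obtain ⟨v, hv, hvmax⟩ := exists_max_image W f hWne
  obtain ⟨b, hb, hbv⟩ := exists_mem_ne (by omega : 1 < W.card) v
  have hfne : f b ≠ f v := fun h => hbv (hf (hW hb) (hW hv) h)
  have hlt : f b < f v := lt_of_le_of_ne (hvmax b hb) hfne
  obtain ⟨e, heE, hec⟩ := (key b hb v hv hlt (hall _ (hfB b hb) _ (hfB v hv))).2
  refine ⟨v, hv, ⟨e, heE⟩, ⟨c v, hc v hv, hmax v hv⟩, ?_⟩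
  intro hev
  have h6 := tight_left P X Y T (E v) (hWP v hv) (hin v hv) (hE v hv) (hmax v hv)
  have h7 : ((E v).filter (fun τ => c v < τ)).card = 0 := by
    rw [card_eq_zero, filter_eq_empty_iff]
    intro τ hτ h
    rw [card_le_one.1 (hE1 v hv) τ hτ e heE] at h
    exact lt_asymm h hec
  have h8 : T.card = (T.filter (fun τ => c v < τ)).card + (T.filter (fun τ => τ < f v)).card := by
    rw [← card_filter_add_card_filter_not (s := T) (fun τ => c v < τ)]
    congr 2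
    apply filter_congr
    intro τ hτ
    constructor
    · intro h
      exact (not_lt.1 h).trans_lt (hc v hv)
    · intro h h'
      exact g v hv τ hτ ⟨h'.le, h⟩
  rw [h7] at h6
  rw [Nat.even_iff] at h6 hev
  rw [Nat.odd_iff] at hT ⊢
  omega

end Pool.Agent.Dirac86.Tri
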