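import Pool.Agent.Dirac86.Tri.Defs

/-!
# The lines through a point with one even line
-/

set_option autoImplicit false
open Finset Classical

namespace Pool.Agent.Dirac86.Tri

open Pool.Agent.Dirac80 (connectingLines mem_connecting connecting_eq Pl area)
open Pool.Agent.Dirac86.Few (evl)

open Pool.Agent.Dirac86.Few.Hu (ln mem_ln ln_mem area_left area_right area_swap)

/-- lines through a point of `A` different from the origin -/
private theorem gb_col {S A B : Finset Pl} {p q : Pl → ℝ} (hF : Fr S A B p q) {y w w' : Pl}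
    (hy : p y = 0) (hq : q y ≠ 0) (hw : p w ≠ 0) (hw' : p w' ≠ 0) : area y w w' = 0 ↔
      1 / p w - 1 / q y * (q w / p w) = 1 / p w' - 1 / q y * (q w' / p w') := by
  rw [hF.2.2.2.2.2 y w w', hy]
  have key : 1 / p w - 1 / q y * (q w / p w) - (1 / p w' - 1 / q y * (q w' / p w')) =
      (0 * (q w - q w') - q y * (p w - p w') + (p w * q w' - q w * p w')) / (p w * p w' * q y) := by
    field_simp
    ring
  have hne : p w * p w' * q y ≠ 0 := mul_ne_zero (mul_ne_zero hw hw') hq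
  constructor
  · intro h
    rw [h, zero_div] at key
    exact sub_eq_zero.1 key
  · intro h
    rw [sub_eq_zero.2 h] at key
    have h2 := key.symm
    rw [div_eq_zero_iff, or_iff_left hne] at h2
    exact h2

/-- G4. -/
theorem geo_bad {S A B : Finset Pl} (hA : A ∈ connectingLines S) (hE : Even A.card)
    {p q : Pl → ℝ} (hF : Fr S A B p q) {x : Pl} (hxA : x ∈ A) (hxB : x ∈ B) {y : Pl}
    (hy : y ∈ A.erase x) (hy1 : evl S y = 1) (d : ℝ) :
    Even ((S \ A).filter (fun w => 1 / p w - 1 / q y * (q w / p w) = d)).card := by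
  have hAS : A ⊆ S := (mem_connecting.1 hA).1
  have hyA : y ∈ A := mem_of_mem_erase hy
  have hyx : y ≠ x := ne_of_mem_erase hy
  have hpy : p y = 0 := (hF.2.2.1 y (hAS hyA)).2 hyA
  have hpx : p x = 0 := (hF.2.2.1 x (hAS hxA)).2 hxA
  have hqx : q x = 0 := (hF.2.2.2.1 x (hAS hxA)).2 hxB
  have hqy : q y ≠ 0 := fun h => hyx (hF.2.2.2.2.1 y x (by rw [hpy, hpx]) (by rw [h, hqx]))
  have hF0 : ∀ w ∈ S \ A, p w ≠ 0 := by
    intro w hw h
    rw [mem_sdiff] at hw
    exact hw.2 ((hF.2.2.1 w hw.1).1 h)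
  rcases ((S \ A).filter (fun w => 1 / p w - 1 / q y * (q w / p w) = d)).eq_empty_or_nonempty
    with h | ⟨w0, hw0⟩
  · rw [h, card_empty]
    exact ⟨0, rfl⟩
  rw [mem_filter] at hw0
  obtain ⟨hw0F, hw0r⟩ := hw0
  have hw0' := mem_sdiff.1 hw0F
  have hyw0 : y ≠ w0 := fun h => hw0'.2 (h ▸ hyA)
  have hT := ln_mem (hAS hyA) hw0'.1 hyw0
  have hyT : y ∈ ln S y w0 := mem_ln.2 ⟨hAS hyA, area_left _ _⟩
  have hw0T : w0 ∈ ln S y w0 := mem_ln.2 ⟨hw0'.1, area_right _ _⟩
  have hTA : ln S y w0 ≠ A := fun h => hw0'.2 (h ▸ hw0T)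
  have hodd : ¬ Even (ln S y w0).card := by
    intro hev
    have h2 : ({A, ln S y w0} : Finset (Finset Pl)).card ≤ evl S y := by
      unfold evl
      refine card_le_card ?_
      intro T hT'
      rw [mem_insert, mem_singleton] at hT'
      rcases hT' with rfl | rfl
      · exact mem_filter.2 ⟨hA, hE, hyA⟩
      · exact mem_filter.2 ⟨hT, hev, hyT⟩
    rw [card_pair hTA.symm] at h2
    omega
  have hfe : (S \ A).filter (fun w => 1 / p w - 1 / q y * (q w / p w) = d) =
      (ln S y w0).erase y := by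
    ext w
    rw [mem_filter, mem_erase, mem_ln]
    constructor
    · rintro ⟨hw, hwr⟩
      have hw' := mem_sdiff.1 hw
      refine ⟨fun h => hw'.2 (h ▸ hyA), hw'.1, ?_⟩
      rw [gb_col hF hpy hqy (hF0 w0 hw0F) (hF0 w hw), hw0r, hwr]
    · rintro ⟨hwy, hwS, hwa⟩
      have hwA : w ∉ A := by
        intro hwA
        apply hw0'.2
        rw [connecting_eq hA hyA hwA (Ne.symm hwy), mem_filter]
        exact ⟨hw0'.1, area_swap.1 hwa⟩
      have hw : w ∈ S \ A := mem_sdiff.2 ⟨hwS, hwA⟩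
      refine ⟨hw, ?_⟩
      rw [gb_col hF hpy hqy (hF0 w0 hw0F) (hF0 w hw), hw0r] at hwa
      exact hwa.symm
  rw [hfe, card_erase_of_mem hyT]
  rw [Nat.not_even_iff_odd] at hodd
  obtain ⟨m, hm⟩ := hodd
  rw [hm, Nat.add_sub_cancel]
  exact even_two_mul m

/-- G5. -/
theorem geo_vert {S A B : Finset Pl} (hA : A ∈ connectingLines S) (hB : B ∈ connectingLines S)
    (hAe : Even A.card) (hBe : Even B.card) (hAB : A ≠ B) {p q : Pl → ℝ} (hF : Fr S A B p q)
    {x : Pl} (hxA : x ∈ A) (hxB : x ∈ B) {L : Finset Pl} (hL : L ∈ connectingLines S)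
    (hLe : Even L.card) (hxL : x ∈ L) (hLA : L ≠ A) (hLB : L ≠ B) (h3 : evl S x = 3) {lam : ℝ}
    (hlam : ∀ w ∈ L, q w = lam * p w) (ξ : ℝ) :
    Odd ((S \ A).filter (fun w => q w / p w = ξ)).card ↔ ξ = 0 ∨ ξ = lam := by
  have hAS : A ⊆ S := (mem_connecting.1 hA).1
  have hBS : B ⊆ S := (mem_connecting.1 hB).1
  have hLS : L ⊆ S := (mem_connecting.1 hL).1
  have hpx : p x = 0 := (hF.2.2.1 x (hAS hxA)).2 hxA
  have hqx : q x = 0 := (hF.2.2.2.1 x (hAS hxA)).2 hxB
  have hF0 : ∀ w ∈ S \ A, p w ≠ 0 := by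
    intro w hw h
    rw [mem_sdiff] at hw
    exact hw.2 ((hF.2.2.1 w hw.1).1 h)
  -- another point of an even line
  have hsec : ∀ T ∈ connectingLines S, x ∈ T → T ≠ A → ∃ w ∈ T, w ∈ S \ A ∧ x ≠ w := by
    intro T hT hxT hTA
    have h2T : 1 < T.card := by
      have := (mem_connecting.1 hT).2.1
      omega
    obtain ⟨w, hwT, hwx⟩ := exists_mem_ne h2T x
    refine ⟨w, hwT, mem_sdiff.2 ⟨(mem_connecting.1 hT).1 hwT, ?_⟩, hwx.symm⟩
    intro hwA
    apply hTA
    rw [connecting_eq hT hxT hwT hwx.symm, connecting_eq hA hxA hwA hwx.symm]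
  have hcol : ∀ w w' : Pl, area x w w' = 0 ↔ p w * q w' - q w * p w' = 0 := by
    intro w w'
    rw [hF.2.2.2.2.2 x w w', hpx, hqx]
    constructor
    · intro h; linarith
    · intro h; linarith
  have hdiv : ∀ w ∈ S \ A, ∀ w' ∈ S \ A, (area x w w' = 0 ↔ q w' / p w' = q w / p w) := by
    intro w hw w' hw'
    rw [hcol, div_eq_div_iff (hF0 w' hw') (hF0 w hw)]
    constructor
    · intro h; linarith
    · intro h; linarith
  obtain ⟨b, hbB, hb, hxb⟩ := hsec B hB hxB hAB.symm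
  obtain ⟨l, hlL, hl, hxl⟩ := hsec L hL hxL hLA
  have hqb : q b / p b = 0 := by
    rw [(hF.2.2.2.1 b (hBS hbB)).2 hbB, zero_div]
  have hql : q l / p l = lam := by
    rw [hlam l hlL, mul_div_assoc, div_self (hF0 l hl), mul_one]
  -- the even lines through `x`
  have heven : ∀ T ∈ connectingLines S, Even T.card → x ∈ T → T = A ∨ T = B ∨ T = L := by
    intro T hT hTe hxT
    have h4 : ({A, B, L} : Finset (Finset Pl)) ⊆
        (connectingLines S).filter (fun T => Even T.card ∧ x ∈ T) := by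
      intro T' hT'
      rw [mem_insert, mem_insert, mem_singleton] at hT'
      rcases hT' with rfl | rfl | rfl
      · exact mem_filter.2 ⟨hA, hAe, hxA⟩
      · exact mem_filter.2 ⟨hB, hBe, hxB⟩
      · exact mem_filter.2 ⟨hL, hLe, hxL⟩
    have h5 : ({A, B, L} : Finset (Finset Pl)).card = 3 := card_eq_three.2
      ⟨A, B, L, hAB, hLA.symm, hLB.symm, rfl⟩
    have h6 : ((connectingLines S).filter (fun T => Even T.card ∧ x ∈ T)).card = 3 := by
      rw [← h3]
      unfold evl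
      rfl
    have h7 := eq_of_subset_of_card_le h4 (by rw [h5, h6])
    have h8 : T ∈ (connectingLines S).filter (fun T => Even T.card ∧ x ∈ T) :=
      mem_filter.2 ⟨hT, hTe, hxT⟩
    rw [← h7, mem_insert, mem_insert, mem_singleton] at h8
    exact h8
  rcases ((S \ A).filter (fun w => q w / p w = ξ)).eq_empty_or_nonempty with h | ⟨w0, hw0⟩
  · constructor
    · intro ho
      rw [h, card_empty] at ho
      exact absurd ho (by decide)
    · intro hξ
      exfalso
      rcases hξ with hξ | hξ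
      · have : b ∈ (S \ A).filter (fun w => q w / p w = ξ) := mem_filter.2 ⟨hb, by rw [hqb, hξ]⟩
        rw [h] at this
        exact notMem_empty _ this
      · have : l ∈ (S \ A).filter (fun w => q w / p w = ξ) := mem_filter.2 ⟨hl, by rw [hql, hξ]⟩
        rw [h] at this
        exact notMem_empty _ this
  rw [mem_filter] at hw0
  obtain ⟨hw0F, hw0r⟩ := hw0
  have hw0' := mem_sdiff.1 hw0F
  have hxw0 : x ≠ w0 := fun h => hw0'.2 (h ▸ hxA)
  have hT := ln_mem (hAS hxA) hw0'.1 hxw0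
  have hxT : x ∈ ln S x w0 := mem_ln.2 ⟨hAS hxA, area_left _ _⟩
  have hw0T : w0 ∈ ln S x w0 := mem_ln.2 ⟨hw0'.1, area_right _ _⟩
  have hTA : ln S x w0 ≠ A := fun h => hw0'.2 (h ▸ hw0T)
  have hfe : (S \ A).filter (fun w => q w / p w = ξ) = (ln S x w0).erase x := by
    ext w
    rw [mem_filter, mem_erase, mem_ln]
    constructor
    · rintro ⟨hw, hwr⟩
      have hw' := mem_sdiff.1 hw
      refine ⟨fun h => hw'.2 (h ▸ hxA), hw'.1, ?_⟩
      rw [hdiv w0 hw0F w hw, hw0r, hwr]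
    · rintro ⟨hwx, hwS, hwa⟩
      have hwA : w ∉ A := by
        intro hwA
        apply hw0'.2
        rw [connecting_eq hA hxA hwA (Ne.symm hwx), mem_filter]
        exact ⟨hw0'.1, area_swap.1 hwa⟩
      have hw : w ∈ S \ A := mem_sdiff.2 ⟨hwS, hwA⟩
      refine ⟨hw, ?_⟩
      rw [hdiv w0 hw0F w hw, hw0r] at hwa
      exact hwa
  have hpar : Odd ((S \ A).filter (fun w => q w / p w = ξ)).card ↔ Even (ln S x w0).card := by
    rw [hfe, card_erase_of_mem hxT]
    have hpos : 0 < (ln S x w0).card := card_pos.2 ⟨x, hxT⟩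
    rw [Nat.odd_iff, Nat.even_iff]
    omega
  rw [hpar]
  constructor
  · intro hev
    rcases heven _ hT hev hxT with h | h | h
    · exact absurd h hTA
    · left
      rw [h] at hw0T
      rw [← hw0r, (hF.2.2.2.1 w0 hw0'.1).2 hw0T, zero_div]
    · right
      rw [h] at hw0T
      rw [← hw0r, hlam w0 hw0T, mul_div_assoc, div_self (hF0 w0 hw0F), mul_one]
  · rintro (hξ | hξ)
    · have h1 : b ∈ ln S x w0 := mem_ln.2 ⟨hBS hbB, by rw [hdiv w0 hw0F b hb, hqb, hw0r, hξ]⟩
      have h2 : ln S x w0 = B := by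
        rw [connecting_eq hT hxT h1 hxb, connecting_eq hB hxB hbB hxb]
      rw [h2]
      exact hBe
    · have h1 : l ∈ ln S x w0 := mem_ln.2 ⟨hLS hlL, by rw [hdiv w0 hw0F l hl, hql, hw0r, hξ]⟩
      have h2 : ln S x w0 = L := by
        rw [connecting_eq hT hxT h1 hxl, connecting_eq hL hxL hlL hxl]
      rw [h2]
      exact hLe

end Pool.Agent.Dirac86.Tri
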