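import Pool.Agent.Dirac86.Tri.Defs

/-!
# The even lines through a point, by slopes
-/

set_option autoImplicit false
open Finset Classical

namespace Pool.Agent.Dirac86.Tri

open Pool.Agent.Dirac80 (connectingLines mem_connecting connecting_eq Pl area)
open Pool.Agent.Dirac86.Few (evl)

namespace GeEv

open Pool.Agent.Dirac86.Few.Hu (ln mem_ln ln_mem area_left area_right area_swap)

theorem key1 {S A B : Finset Pl} {p q : Pl → ℝ} (hF : Fr S A B p q) {v w a : Pl} (hv : p v ≠ 0)
    (hw : p w ≠ 0) (ha : p a = 0) :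
    area v w a = 0 ↔ q w / p w - q v / p v = q a * (1 / p w - 1 / p v) := by
  rw [hF.2.2.2.2.2 v w a, ha]
  have h : q w / p w - q v / p v - q a * (1 / p w - 1 / p v) =
      (p v * (q w - q a) - q v * (p w - 0) + (p w * q a - q w * 0)) / (p v * p w) := by
    field_simp
    ring
  rw [← sub_eq_zero (a := q w / p w - q v / p v), h, div_eq_zero_iff,
    or_iff_left (mul_ne_zero hv hw)]

theorem key2 {S A B : Finset Pl} {p q : Pl → ℝ} (hF : Fr S A B p q) {v u w : Pl} (hv : p v ≠ 0)
    (hu : p u ≠ 0) (hw : p w ≠ 0) :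
    area v u w = 0 ↔ (q u / p u - q v / p v) * (1 / p w - 1 / p v) -
      (1 / p u - 1 / p v) * (q w / p w - q v / p v) = 0 := by
  rw [hF.2.2.2.2.2 v u w]
  have h : (q u / p u - q v / p v) * (1 / p w - 1 / p v) -
      (1 / p u - 1 / p v) * (q w / p w - q v / p v) =
      (p v * (q u - q w) - q v * (p u - p w) + (p u * q w - q u * p w)) / (p v * p u * p w) := by
    field_simp
    ring
  rw [h, div_eq_zero_iff, or_iff_left (mul_ne_zero (mul_ne_zero hv hu) hw)]

/-- the points on the line through `v` of slope `σ` -/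
noncomputable def TT (S A : Finset Pl) (p q : Pl → ℝ) (x v : Pl) (σ : ℝ) : Finset Pl :=
  (S \ A).filter (fun w => 1 / p w - 1 / p v = σ * (q w / p w - q v / p v)) ∪
    (A.erase x).filter (fun a => 1 / q a = σ)

theorem mem_TT {S A : Finset Pl} {p q : Pl → ℝ} {x v : Pl} {σ : ℝ} {r : Pl} :
    r ∈ TT S A p q x v σ ↔ (r ∈ S \ A ∧ 1 / p r - 1 / p v = σ * (q r / p r - q v / p v)) ∨
      (r ∈ A.erase x ∧ 1 / q r = σ) := by
  unfold TT
  rw [mem_union, mem_filter, mem_filter]

variable {S A B : Finset Pl} {p q : Pl → ℝ} {x v : Pl}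

theorem inj_XY (hF : Fr S A B p q) {w w' : Pl} (hw : p w ≠ 0) (hw' : p w' ≠ 0)
    (h1 : 1 / p w = 1 / p w') (h2 : q w / p w = q w' / p w') : w = w' := by
  rw [div_eq_div_iff hw hw', one_mul, one_mul] at h1
  rw [div_eq_div_iff hw hw', h1] at h2
  exact hF.2.2.2.2.1 w w' h1.symm (mul_right_cancel₀ hw h2)

theorem q_ne (hA : A ∈ connectingLines S) (hF : Fr S A B p q) (hxA : x ∈ A) (hxB : x ∈ B) {a : Pl}
    (ha : a ∈ A.erase x) : q a ≠ 0 := by
  have hAS : A ⊆ S := (mem_connecting.1 hA).1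
  rw [mem_erase] at ha
  intro h
  apply ha.1
  have h1 : p a = 0 := (hF.2.2.1 a (hAS ha.2)).2 ha.2
  have h2 : p x = 0 := (hF.2.2.1 x (hAS hxA)).2 hxA
  have h3 : q x = 0 := (hF.2.2.2.1 x (hAS hxA)).2 hxB
  exact hF.2.2.2.2.1 a x (by rw [h1, h2]) (by rw [h, h3])

theorem no_A (hA : A ∈ connectingLines S) (hv : v ∈ S \ A) {u r : Pl} (hu : u ∈ A) (hr : r ∈ A)
    (h : area v u r = 0) : r = u := by
  by_contra hne
  rw [mem_sdiff] at hv
  apply hv.2
  rw [connecting_eq hA hu hr (Ne.symm hne), mem_filter]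
  refine ⟨hv.1, ?_⟩
  have : area u r v = area v u r := by unfold area; ring
  rw [this, h]

theorem line_TT (hA : A ∈ connectingLines S) (hF : Fr S A B p q) (hxA : x ∈ A) (hxB : x ∈ B)
    (hv : v ∈ S \ A) {σ : ℝ} {u : Pl} (hu : u ∈ TT S A p q x v σ) (huv : u ≠ v) :
    ln S v u = TT S A p q x v σ := by
  have hAS : A ⊆ S := (mem_connecting.1 hA).1
  have hp0 : ∀ w ∈ S \ A, p w ≠ 0 := by
    intro w hw h
    rw [mem_sdiff] at hw
    exact hw.2 ((hF.2.2.1 w hw.1).1 h)
  have hpA : ∀ w ∈ A, p w = 0 := fun w hw => (hF.2.2.1 w (hAS hw)).2 hw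
  have hq0 : q x = 0 := (hF.2.2.2.1 x (hAS hxA)).2 hxB
  ext r
  rw [mem_ln, mem_TT]
  rw [mem_TT] at hu
  by_cases hrA : r ∈ A
  · have hrS := hAS hrA
    have e1 : (r ∈ S \ A ∧ 1 / p r - 1 / p v = σ * (q r / p r - q v / p v)) ↔ False := by
      simp [hrA]
    rw [e1, false_or]
    rcases hu with ⟨huA, hu⟩ | ⟨huA, hu⟩
    · rw [key1 hF (hp0 v hv) (hp0 u huA) (hpA r hrA)]
      have hne : q u / p u - q v / p v ≠ 0 := by
        intro h
        rw [h, mul_zero, sub_eq_zero] at hu
        exact huv (inj_XY hF (hp0 u huA) (hp0 v hv) hu (sub_eq_zero.1 h))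
      constructor
      · rintro ⟨-, h⟩
        have h1 : (q u / p u - q v / p v) * (1 - σ * q r) = 0 := by
          rw [hu] at h
          linear_combination h
        have h2 : σ * q r = 1 := by
          rcases mul_eq_zero.1 h1 with h3 | h3
          · exact absurd h3 hne
          · linarith
        have h3 : q r ≠ 0 := by
          intro h4
          rw [h4, mul_zero] at h2
          exact zero_ne_one h2
        refine ⟨mem_erase.2 ⟨?_, hrA⟩, ?_⟩
        · rintro rfl
          exact h3 hq0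
        · rw [div_eq_iff h3]
          exact h2.symm
      · rintro ⟨hr, h⟩
        refine ⟨hrS, ?_⟩
        rw [div_eq_iff (q_ne hA hF hxA hxB hr)] at h
        rw [hu]
        linear_combination (q u / p u - q v / p v) * h
    · have huA' := (mem_erase.1 huA).2
      constructor
      · rintro ⟨-, h⟩
        have := no_A hA hv huA' hrA h
        rw [this]
        exact ⟨huA, hu⟩
      · rintro ⟨hr, h⟩
        have h1 : q r = q u := by
          rw [← hu, div_eq_div_iff (q_ne hA hF hxA hxB hr) (q_ne hA hF hxA hxB huA)] at h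
          linarith
        have h2 : r = u := hF.2.2.2.2.1 r u (by rw [hpA r hrA, hpA u huA']) h1
        rw [h2]
        exact ⟨hAS huA', area_right _ _⟩
  · have e1 : (r ∈ A.erase x ∧ 1 / q r = σ) ↔ False := by
      simp [hrA]
    have e2 : r ∈ S \ A ↔ r ∈ S := by
      simp [hrA]
    rw [e1, or_false, e2]
    refine and_congr_right (fun hrS => ?_)
    have hr : r ∈ S \ A := mem_sdiff.2 ⟨hrS, hrA⟩
    rcases hu with ⟨huA, hu⟩ | ⟨huA, hu⟩
    · rw [key2 hF (hp0 v hv) (hp0 u huA) (hp0 r hr)]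
      have hne : q u / p u - q v / p v ≠ 0 := by
        intro h
        rw [h, mul_zero, sub_eq_zero] at hu
        exact huv (inj_XY hF (hp0 u huA) (hp0 v hv) hu (sub_eq_zero.1 h))
      rw [hu]
      constructor
      · intro h
        apply mul_left_cancel₀ hne
        linear_combination h
      · intro h
        linear_combination (q u / p u - q v / p v) * h
    · have huA' := (mem_erase.1 huA).2
      rw [area_swap, key1 hF (hp0 v hv) (hp0 r hr) (hpA u huA')]
      have hne := q_ne hA hF hxA hxB huA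
      rw [div_eq_iff hne] at hu
      constructor
      · intro h
        linear_combination (-σ) * h + (1 / p r - 1 / p v) * hu
      · intro h
        linear_combination (-q u) * h + (q r / p r - q v / p v) * hu

theorem line_vert (hA : A ∈ connectingLines S) (hF : Fr S A B p q) (hxA : x ∈ A) (hxB : x ∈ B)
    (hv : v ∈ S \ A) :
    ln S v x = insert x ((S \ A).filter (fun w => q w / p w = q v / p v)) := by
  have hAS : A ⊆ S := (mem_connecting.1 hA).1
  have hp0 : ∀ w ∈ S \ A, p w ≠ 0 := by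
    intro w hw h
    rw [mem_sdiff] at hw
    exact hw.2 ((hF.2.2.1 w hw.1).1 h)
  have hpA : ∀ w ∈ A, p w = 0 := fun w hw => (hF.2.2.1 w (hAS hw)).2 hw
  have hq0 : q x = 0 := (hF.2.2.2.1 x (hAS hxA)).2 hxB
  ext r
  rw [mem_ln, mem_insert, mem_filter]
  by_cases hrA : r ∈ A
  · constructor
    · rintro ⟨-, h⟩
      exact Or.inl (no_A hA hv hxA hrA h)
    · rintro (rfl | ⟨h, -⟩)
      · exact ⟨hAS hxA, area_right _ _⟩
      · exact absurd hrA (mem_sdiff.1 h).2
  · constructor
    · rintro ⟨hrS, h⟩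
      have hr : r ∈ S \ A := mem_sdiff.2 ⟨hrS, hrA⟩
      rw [area_swap, key1 hF (hp0 v hv) (hp0 r hr) (hpA x hxA), hq0, zero_mul, sub_eq_zero] at h
      exact Or.inr ⟨hr, h⟩
    · rintro (rfl | ⟨hr, h⟩)
      · exact absurd hxA hrA
      · refine ⟨(mem_sdiff.1 hr).1, ?_⟩
        rw [area_swap, key1 hF (hp0 v hv) (hp0 r hr) (hpA x hxA), hq0, zero_mul, sub_eq_zero]
        exact h

theorem card_TT (hA : A ∈ connectingLines S) (hF : Fr S A B p q) (hxA : x ∈ A) (hxB : x ∈ B)
    (σ : ℝ) : (TT S A p q x v σ).card = ((S \ A).filter (fun w =>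
        1 / p w - 1 / p v = σ * (q w / p w - q v / p v))).card +
        if σ ∈ (A.erase x).image (fun a => 1 / q a) then 1 else 0 := by
  have hAS : A ⊆ S := (mem_connecting.1 hA).1
  have hpA : ∀ w ∈ A, p w = 0 := fun w hw => (hF.2.2.1 w (hAS hw)).2 hw
  unfold TT
  rw [card_union_of_disjoint]
  · congr 1
    split_ifs with h
    · rw [mem_image] at h
      obtain ⟨a, ha, h⟩ := h
      rw [card_eq_one]
      refine ⟨a, ?_⟩
      ext r
      rw [mem_filter, mem_singleton]
      constructor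
      · rintro ⟨hr, h1⟩
        rw [← h, div_eq_div_iff (q_ne hA hF hxA hxB hr) (q_ne hA hF hxA hxB ha)] at h1
        exact hF.2.2.2.2.1 r a (by rw [hpA r (mem_erase.1 hr).2, hpA a (mem_erase.1 ha).2])
          (by linarith)
      · rintro rfl
        exact ⟨ha, h⟩
    · rw [card_eq_zero, filter_eq_empty_iff]
      intro a ha h1
      exact h (mem_image.2 ⟨a, ha, h1⟩)
  · rw [disjoint_left]
    intro r h1 h2
    rw [mem_filter, mem_sdiff] at h1
    rw [mem_filter, mem_erase] at h2
    exact h1.1.2 h2.1.2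

end GeEv

open GeEv

/-- G3. -/
theorem geo_ev {S A B : Finset Pl} (hA : A ∈ connectingLines S) {p q : Pl → ℝ}
    (hF : Fr S A B p q) {x : Pl} (hxA : x ∈ A) (hxB : x ∈ B) {v : Pl} (hv : v ∈ S \ A) :
    ∃ E : Finset ℝ, (∀ σ, σ ∈ E ↔ Even (((S \ A).filter (fun w =>
        1 / p w - 1 / p v = σ * (q w / p w - q v / p v))).card +
        if σ ∈ (A.erase x).image (fun a => 1 / q a) then 1 else 0)) ∧
      E.card + (if Odd ((S \ A).filter (fun w => q w / p w = q v / p v)).card then 1 else 0) ≤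
        evl S v := by
  have hAS : A ⊆ S := (mem_connecting.1 hA).1
  have hvS := (mem_sdiff.1 hv).1
  have hvA := (mem_sdiff.1 hv).2
  have hp0 : ∀ w ∈ S \ A, p w ≠ 0 := by
    intro w hw h
    rw [mem_sdiff] at hw
    exact hw.2 ((hF.2.2.1 w hw.1).1 h)
  -- every even slope has a second point
  have hvT : ∀ σ, v ∈ TT S A p q x v σ := by
    intro σ
    rw [mem_TT]
    exact Or.inl ⟨hv, by simp⟩
  have h2nd : ∀ σ, Even (TT S A p q x v σ).card → ∃ u ∈ TT S A p q x v σ, u ≠ v := by
    intro σ hσ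
    have h1 : 0 < (TT S A p q x v σ).card := card_pos.2 ⟨v, hvT σ⟩
    have h2 : 1 < (TT S A p q x v σ).card := by
      obtain ⟨m, hm⟩ := hσ
      omega
    obtain ⟨u, hu, huv⟩ := exists_mem_ne h2 v
    exact ⟨u, hu, huv⟩
  -- the slope is determined by a second point
  have hslope : ∀ σ σ' u, u ≠ v → u ∈ TT S A p q x v σ → u ∈ TT S A p q x v σ' → σ = σ' := by
    intro σ σ' u huv h1 h2
    rw [mem_TT] at h1 h2
    rcases h1 with ⟨huA, h1⟩ | ⟨huA, h1⟩
    · rcases h2 with ⟨-, h2⟩ | ⟨huA', -⟩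
      · have hne : q u / p u - q v / p v ≠ 0 := by
          intro h
          rw [h, mul_zero, sub_eq_zero] at h1
          exact huv (inj_XY hF (hp0 u huA) (hp0 v hv) h1 (sub_eq_zero.1 h))
        rw [h1] at h2
        exact mul_right_cancel₀ hne h2
      · exact absurd (mem_erase.1 huA').2 (mem_sdiff.1 huA).2
    · rcases h2 with ⟨huA', -⟩ | ⟨-, h2⟩
      · exact absurd (mem_erase.1 huA).2 (mem_sdiff.1 huA').2
      · rw [← h1, ← h2]
  -- finitely many slopes
  obtain ⟨E, hE⟩ : ∃ E : Finset ℝ, ∀ σ, σ ∈ E ↔ Even (TT S A p q x v σ).card := by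
    refine ⟨(((S \ A).image (fun w => (1 / p w - 1 / p v) / (q w / p w - q v / p v))) ∪
      (A.erase x).image (fun a => 1 / q a)).filter (fun σ => Even (TT S A p q x v σ).card), ?_⟩
    intro σ
    rw [mem_filter]
    refine and_iff_right_of_imp (fun hσ => ?_)
    obtain ⟨u, hu, huv⟩ := h2nd σ hσ
    rw [mem_TT] at hu
    rw [mem_union]
    rcases hu with ⟨huA, h1⟩ | ⟨huA, h1⟩
    · left
      rw [mem_image]
      refine ⟨u, huA, ?_⟩
      have hne : q u / p u - q v / p v ≠ 0 := by
        intro h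
        rw [h, mul_zero, sub_eq_zero] at h1
        exact huv (inj_XY hF (hp0 u huA) (hp0 v hv) h1 (sub_eq_zero.1 h))
      show (1 / p u - 1 / p v) / (q u / p u - q v / p v) = σ
      rw [div_eq_iff hne]
      exact h1
    · right
      rw [mem_image]
      exact ⟨u, huA, h1⟩
  refine ⟨E, fun σ => ?_, ?_⟩
  · rw [hE, card_TT hA hF hxA hxB]
  · have hxT : ∀ σ, x ∉ TT S A p q x v σ := by
      intro σ h
      rw [mem_TT] at h
      rcases h with ⟨h, -⟩ | ⟨h, -⟩
      · exact (mem_sdiff.1 h).2 hxA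
      · exact (mem_erase.1 h).1 rfl
    have hvx : v ≠ x := fun h => hvA (h ▸ hxA)
    have himg : (E.image (TT S A p q x v)).card = E.card := by
      apply card_image_of_injOn
      intro σ hσ σ' hσ' h
      have hσ : σ ∈ E := by exact_mod_cast hσ
      obtain ⟨u, hu, huv⟩ := h2nd σ ((hE σ).1 hσ)
      exact hslope σ σ' u huv hu (h ▸ hu)
    have hsub : E.image (TT S A p q x v) ⊆
        (connectingLines S).filter (fun T => Even T.card ∧ v ∈ T) := by
      intro T hT
      rw [mem_image] at hT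
      obtain ⟨σ, hσ, rfl⟩ := hT
      obtain ⟨u, hu, huv⟩ := h2nd σ ((hE σ).1 hσ)
      have huS : u ∈ S := by
        rw [mem_TT] at hu
        rcases hu with ⟨h, -⟩ | ⟨h, -⟩
        · exact (mem_sdiff.1 h).1
        · exact hAS (mem_erase.1 h).2
      rw [mem_filter]
      refine ⟨?_, (hE σ).1 hσ, hvT σ⟩
      rw [← line_TT hA hF hxA hxB hv hu huv]
      exact Pool.Agent.Dirac86.Few.Hu.ln_mem hvS huS (Ne.symm huv)
    unfold evl
    split_ifs with hodd
    · have hTi : Pool.Agent.Dirac86.Few.Hu.ln S v x ∉ E.image (TT S A p q x v) := by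
        intro h
        rw [mem_image] at h
        obtain ⟨σ, -, h⟩ := h
        apply hxT σ
        rw [h]
        exact Pool.Agent.Dirac86.Few.Hu.mem_ln.2
          ⟨hAS hxA, Pool.Agent.Dirac86.Few.Hu.area_right _ _⟩
      rw [← himg, ← card_insert_of_notMem hTi]
      refine card_le_card (insert_subset ?_ hsub)
      rw [mem_filter]
      refine ⟨Pool.Agent.Dirac86.Few.Hu.ln_mem hvS (hAS hxA) hvx, ?_,
        Pool.Agent.Dirac86.Few.Hu.mem_ln.2 ⟨hvS, Pool.Agent.Dirac86.Few.Hu.area_left _ _⟩⟩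
      rw [line_vert hA hF hxA hxB hv, card_insert_of_notMem]
      · exact hodd.add_one
      · rw [mem_filter, mem_sdiff]
        exact fun h => h.1.2 hxA
    · rw [add_zero, ← himg]
      exact card_le_card hsub

end Pool.Agent.Dirac86.Tri
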