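import Mathlib

/-!
# The upper hull and a set of even directions
-/

set_option autoImplicit false
open Finset Classical

namespace Pool.Agent.Dirac86.Tri

open Filter Topology in
/-- K1. -/
theorem heads3 {ι : Type*} (P : Finset ι) (X Y : ι → ℝ) (hP : P.Nonempty)
    (hinj : ∀ v ∈ P, ∀ w ∈ P, X v = X w → Y v = Y w → v = w) (T B : Finset ℝ)
    (hbad : ∀ y ∈ B, ∀ d, Even (P.filter (fun w => Y w - y * X w = d)).card) :
    ∃ V ⊆ P, ∃ f : ι → ℝ, V.card = B.card ∧ Set.InjOn f V ∧ ∀ b ∈ V, f b ∈ B ∧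
      ∃ c, c < f b ∧ (∀ τ ∈ T, ¬ (c ≤ τ ∧ τ < f b)) ∧
        ∀ w ∈ P, w ≠ b → Y w - c * X w < Y b - c * X b := by
  -- the right end of the highest edge of slope `y`
  have hex : ∀ y : ℝ, ∃ b : ι, y ∈ B →
      b ∈ P ∧ (∀ w ∈ P, Y w - y * X w ≤ Y b - y * X b) ∧
      (∀ w ∈ P, Y w - y * X w = Y b - y * X b → w ≠ b → X w < X b) ∧
      (∃ t ∈ P, Y t - y * X t = Y b - y * X b ∧ X t < X b) := by
    intro y
    by_cases hy : y ∈ B
    swap
    · obtain ⟨b0, _⟩ := hP
      exact ⟨b0, fun h => absurd h hy⟩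
    obtain ⟨m, hm, hmax⟩ := Finset.exists_max_image P (fun w => Y w - y * X w) hP
    set F' := P.filter (fun w => Y w - y * X w = Y m - y * X m) with hF'
    have hmF' : m ∈ F' := Finset.mem_filter.2 ⟨hm, rfl⟩
    obtain ⟨b, hb, hbmax⟩ := Finset.exists_max_image F' (fun w => X w) ⟨m, hmF'⟩
    have hbF : b ∈ P := (Finset.mem_filter.1 hb).1
    have hbU : Y b - y * X b = Y m - y * X m := (Finset.mem_filter.1 hb).2
    have hlt : ∀ w ∈ P, Y w - y * X w = Y b - y * X b → w ≠ b → X w < X b := by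
      intro w hw hwU hwb
      have hwF' : w ∈ F' := Finset.mem_filter.2 ⟨hw, hwU.trans hbU⟩
      refine lt_of_le_of_ne (hbmax w hwF') (fun h => hwb ?_)
      have hY : Y w = Y b := by
        rw [h] at hwU
        linarith
      exact hinj w hw b hbF h hY
    refine ⟨b, fun _ => ⟨hbF, ?_, hlt, ?_⟩⟩
    · intro w hw
      rw [hbU]
      exact hmax w hw
    · have heven := hbad y hy (Y m - y * X m)
      have hpos : 0 < F'.card := Finset.card_pos.2 ⟨m, hmF'⟩
      have h1 : 1 < F'.card := by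
        rcases heven with ⟨k, hk⟩
        change F'.card = k + k at hk
        omega
      obtain ⟨t, ht, htb⟩ := Finset.exists_mem_ne h1 b
      have htF : t ∈ P := (Finset.mem_filter.1 ht).1
      have htU : Y t - y * X t = Y b - y * X b := (Finset.mem_filter.1 ht).2.trans hbU.symm
      exact ⟨t, htF, htU, hlt t htF htU htb⟩
  choose bf hbf using hex
  -- the direction
  have hc : ∀ y ∈ B, ∃ c : ℝ, c < y ∧ (∀ τ ∈ T, ¬ (c ≤ τ ∧ τ < y)) ∧
      ∀ w ∈ P, w ≠ bf y → Y w - c * X w < Y (bf y) - c * X (bf y) := by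
    intro y hy
    obtain ⟨hbF, hmax, hlt, _⟩ := hbf y hy
    set b := bf y
    have e1 : ∀ᶠ δ : ℝ in 𝓝[>] 0, ∀ w ∈ P, w ≠ b →
        0 < ((Y b - y * X b) - (Y w - y * X w)) + δ * (X b - X w) := by
      rw [Filter.eventually_all_finset]
      intro w hw
      by_cases hwb : w = b
      · exact Filter.Eventually.of_forall (fun δ h => absurd hwb h)
      rcases (hmax w hw).lt_or_eq with h | h
      · have hcont : Continuous (fun δ : ℝ => ((Y b - y * X b) - (Y w - y * X w)) +
            δ * (X b - X w)) := by fun_prop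
        have h0 : (0 : ℝ) < (fun δ : ℝ => ((Y b - y * X b) - (Y w - y * X w)) +
            δ * (X b - X w)) 0 := by
          simp only [zero_mul, add_zero]
          linarith
        have := (hcont.tendsto 0).eventually (lt_mem_nhds h0)
        exact (this.filter_mono nhdsWithin_le_nhds).mono (fun δ hδ _ => hδ)
      · have hlt' := hlt w hw h hwb
        filter_upwards [self_mem_nhdsWithin] with δ hδ _
        have hδ' : (0 : ℝ) < δ := hδ
        have := mul_pos hδ' (sub_pos.2 hlt')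
        rw [h]
        linarith
    have e3 : ∀ᶠ δ : ℝ in 𝓝[>] 0, ∀ τ ∈ T, ¬ (y - δ ≤ τ ∧ τ < y) := by
      rw [Filter.eventually_all_finset]
      intro τ _
      by_cases hi : τ < y
      · have : ∀ᶠ δ : ℝ in 𝓝 0, δ < y - τ := gt_mem_nhds (by linarith)
        exact (this.filter_mono nhdsWithin_le_nhds).mono (fun δ hδ h => by linarith [h.1])
      · exact Filter.Eventually.of_forall (fun δ h => hi h.2)
    have e4 : ∀ᶠ δ : ℝ in 𝓝[>] 0, 0 < δ := self_mem_nhdsWithin
    obtain ⟨δ, ⟨h1, h3⟩, h4⟩ := ((e1.and e3).and e4).exists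
    refine ⟨y - δ, by linarith, h3, fun w hw hwb => ?_⟩
    have := h1 w hw hwb
    nlinarith [this]
  -- distinctness for different directions
  have key : ∀ y ∈ B, ∀ y' ∈ B, bf y = bf y' → y' ≤ y := by
    intro y hy y' hy' hb
    obtain ⟨_, _, _, t, ht, htU, htX⟩ := hbf y hy
    obtain ⟨_, hmax, _, _⟩ := hbf y' hy'
    rw [← hb] at hmax
    have h1 := hmax t ht
    set b := bf y
    by_contra hlt
    push Not at hlt
    have h2 : 0 < (y' - y) * (X b - X t) := mul_pos (by linarith) (by linarith)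
    nlinarith [h1, h2, htU]
  have hdist : ∀ y ∈ B, ∀ y' ∈ B, bf y = bf y' → y = y' := by
    intro y hy y' hy' hb
    exact le_antisymm (key y' hy' y hy hb.symm) (key y hy y' hy' hb)
  -- the set
  have hfex : ∀ b : ι, ∃ y : ℝ, ∀ y' ∈ B, bf y' = b → y = y' := by
    intro b
    by_cases h : ∃ y' ∈ B, bf y' = b
    · obtain ⟨y', hy', hp⟩ := h
      exact ⟨y', fun y'' hy'' hp' => hdist y' hy' y'' hy'' (hp.trans hp'.symm)⟩
    · exact ⟨0, fun y' hy' hp => absurd ⟨y', hy', hp⟩ h⟩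
  choose f hf using hfex
  have hfb : ∀ y ∈ B, f (bf y) = y := fun y hy => hf _ y hy rfl
  refine ⟨B.image bf, ?_, f, ?_, ?_, ?_⟩
  · intro b hb
    obtain ⟨y, hy, rfl⟩ := Finset.mem_image.1 hb
    exact (hbf y hy).1
  · exact Finset.card_image_of_injOn (fun y hy y' hy' h => hdist y hy y' hy' h)
  · intro b hb b' hb' hbb
    obtain ⟨y, hy, rfl⟩ := Finset.mem_image.1 hb
    obtain ⟨y', hy', rfl⟩ := Finset.mem_image.1 hb'
    rw [hfb y hy, hfb y' hy'] at hbb
    rw [hbb]
  · intro b hb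
    obtain ⟨y, hy, rfl⟩ := Finset.mem_image.1 hb
    obtain ⟨c, h1, h2, h3⟩ := hc y hy
    rw [hfb y hy]
    exact ⟨hy, c, h1, h2, h3⟩

end Pool.Agent.Dirac86.Tri
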