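import Pool.Agent.Dirac86.Tri.Defs

/-!
# At most two extreme points on a line
-/

set_option autoImplicit false
open Finset Classical

namespace Pool.Agent.Dirac86.Tri

open Pool.Agent.Dirac80 (connectingLines mem_connecting connecting_eq Pl area)
open Pool.Agent.Dirac86.Few (evl)


/-- K8. (use `Pool.Agent.Dirac86.Few.Hu.three` and the formula for `area` in `Fr`) -/
theorem line_two {S A B : Finset Pl} {p q : Pl → ℝ} (hF : Fr S A B p q) {V : Finset Pl}
    (hVS : V ⊆ S \ A) (hV : ∀ b ∈ V, ∃ c : ℝ, ∀ w ∈ S \ A, w ≠ b →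
      1 / p w - c * (q w / p w) < 1 / p b - c * (q b / p b))
    {T : Finset Pl} (hT : T ∈ connectingLines S) : (V ∩ T).card ≤ 2 := by
  by_contra hcon
  rw [not_le, two_lt_card] at hcon
  obtain ⟨b1, hb1, b2, hb2, b3, hb3, h12, h13, h23⟩ := hcon
  rw [mem_inter] at hb1 hb2 hb3
  have hcol := Pool.Agent.Dirac80.area_of_collinear (mem_connecting.1 hT).2.2.1
    (p := b1) (q := b2) (r := b3) (by exact_mod_cast hb1.2) (by exact_mod_cast hb2.2)
    (by exact_mod_cast hb3.2)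
  have hne : ∀ w ∈ S \ A, p w ≠ 0 := by
    intro w hw h0
    rw [mem_sdiff] at hw
    exact hw.2 ((hF.2.2.1 w hw.1).1 h0)
  have f1 := hVS hb1.1
  have f2 := hVS hb2.1
  have f3 := hVS hb3.1
  have n1 := hne b1 f1
  have n2 := hne b2 f2
  have n3 := hne b3 f3
  rw [hF.2.2.2.2.2 b1 b2 b3] at hcol
  obtain ⟨c1, m1⟩ := hV b1 hb1.1
  obtain ⟨c2, m2⟩ := hV b2 hb2.1
  obtain ⟨c3, m3⟩ := hV b3 hb3.1
  have key : (1 / p b2 - 1 / p b1) * (q b3 / p b3 - q b1 / p b1) -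
      (q b2 / p b2 - q b1 / p b1) * (1 / p b3 - 1 / p b1) = 0 := by
    have h : (1 / p b2 - 1 / p b1) * (q b3 / p b3 - q b1 / p b1) -
      (q b2 / p b2 - q b1 / p b1) * (1 / p b3 - 1 / p b1) =
      -(p b1 * (q b2 - q b3) - q b1 * (p b2 - p b3) + (p b2 * q b3 - q b2 * p b3)) /
        (p b1 * p b2 * p b3) := by
      field_simp
      ring
    rw [h, hcol, neg_zero, zero_div]
  have e : ∀ (c : ℝ) (w : Pl), 1 * (1 / p w - c * (q w / p w)) = 1 / p w - c * (q w / p w) :=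
    fun c w => one_mul _
  refine Pool.Agent.Dirac86.Few.Hu.three (e1 := 1) (c1 := c1) (e2 := 1) (c2 := c2) (e3 := 1)
    (c3 := c3) key ?_ ?_ ?_ ?_ ?_ ?_
  · rw [e, e]; exact m1 b2 f2 h12.symm
  · rw [e, e]; exact m1 b3 f3 h13.symm
  · rw [e, e]; exact m2 b1 f1 h12
  · rw [e, e]; exact m2 b3 f3 h23.symm
  · rw [e, e]; exact m3 b1 f1 h13
  · rw [e, e]; exact m3 b2 f2 h23

end Pool.Agent.Dirac86.Tri
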