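import Pool.Agent.Dirac86.Tri.Defs

/-!
# Vertical parity, ranks and the algebra of two frames
-/

set_option autoImplicit false
open Finset Classical

namespace Pool.Agent.Dirac86.Tri

open Pool.Agent.Dirac80 (connectingLines mem_connecting connecting_eq Pl area)
open Pool.Agent.Dirac86.Few (evl)

private theorem vt_even {ι : Type*} (P : Finset ι) (X : ι → ℝ) {lam : ℝ}
    (h : ∀ ξ, Odd (P.filter (fun w => X w = ξ)).card ↔ ξ = 0 ∨ ξ = lam) (Q : ℝ → Prop)
    (h0 : ¬ Q 0) (h1 : ¬ Q lam) : Even (P.filter (fun w => Q (X w))).card := by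
  rw [card_eq_sum_card_image X]
  refine even_sum _ (fun ξ hξ => ?_)
  rw [mem_image] at hξ
  obtain ⟨w, hw, rfl⟩ := hξ
  rw [mem_filter] at hw
  have h2 : (P.filter (fun w => Q (X w))).filter (fun z => X z = X w) =
      P.filter (fun z => X z = X w) := by
    rw [filter_filter]
    apply filter_congr
    intro z _
    constructor
    · intro h3
      exact h3.2
    · intro h3
      exact ⟨by rw [h3]; exact hw.2, h3⟩
  rw [h2, ← Nat.not_odd_iff_even, h]
  rintro (h3 | h3)
  · exact h0 (h3 ▸ hw.2)
  · exact h1 (h3 ▸ hw.2)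

private theorem vt_even' {ι : Type*} (P : Finset ι) (X : ι → ℝ) {lam : ℝ}
    (h : ∀ ξ, Odd (P.filter (fun w => X w = ξ)).card ↔ ξ = 0 ∨ ξ = lam) (Q : ℝ → Prop)
    (h0 : ¬ Q 0) (h1 : ¬ Q lam) (s : Finset ι) (hs : ∀ w, w ∈ s ↔ w ∈ P ∧ Q (X w)) :
    Even s.card := by
  have h2 : s = P.filter (fun w => Q (X w)) := by
    ext w
    rw [hs, mem_filter]
  rw [h2]
  exact vt_even P X h Q h0 h1

/-- K5. -/
theorem vert_par {ι : Type*} (P : Finset ι) (X : ι → ℝ) {lam : ℝ} (hl : 0 < lam)
    (h : ∀ ξ, Odd (P.filter (fun w => X w = ξ)).card ↔ ξ = 0 ∨ ξ = lam) {v : ι}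
    (hv : Even (P.filter (fun w => X w = X v)).card)
    (hodd : Odd (P.filter (fun w => X w < X v)).card) : 0 < X v ∧ X v < lam := by
  have hne : X v ≠ lam := by
    intro h1
    rw [← Nat.not_odd_iff_even, h] at hv
    exact hv (Or.inr h1)
  constructor
  · by_contra h1
    have h2 := vt_even P X h (fun ξ => ξ < X v) h1 (fun h3 => h1 (hl.trans h3))
    exact (Nat.not_even_iff_odd.2 hodd) h2
  · by_contra h1
    have h2 : lam < X v := lt_of_le_of_ne (not_lt.1 h1) hne.symm
    have h3 : Even (P.filter (fun w => X w < X v ∧ X w ≠ 0 ∧ X w ≠ lam)).card := by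
      exact vt_even' P X h (fun ξ => ξ < X v ∧ ξ ≠ 0 ∧ ξ ≠ lam) (fun h4 => h4.2.1 rfl)
        (fun h4 => h4.2.2 rfl) _ (fun w => mem_filter)
    have h4 := (h 0).2 (Or.inl rfl)
    have h5 := (h lam).2 (Or.inr rfl)
    have h6 : (P.filter (fun w => X w < X v)).card =
        (P.filter (fun w => X w < X v ∧ X w ≠ 0 ∧ X w ≠ lam)).card +
        (P.filter (fun w => X w = 0)).card + (P.filter (fun w => X w = lam)).card := by
      rw [card_filter, card_filter, card_filter, card_filter, ← sum_add_distrib,
        ← sum_add_distrib]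
      refine sum_congr rfl (fun w _ => ?_)
      by_cases h7 : X w = 0
      · rw [if_pos (by rw [h7]; exact hl.trans h2), if_neg (fun h8 => h8.2.1 h7), if_pos h7,
          if_neg (by rw [h7]; exact hl.ne)]
      · by_cases h8 : X w = lam
        · rw [if_pos (by rw [h8]; exact h2), if_neg (fun h9 => h9.2.2 h8), if_neg h7, if_pos h8]
        · by_cases h9 : X w < X v
          · rw [if_pos h9, if_pos ⟨h9, h7, h8⟩, if_neg h7, if_neg h8]
          · rw [if_neg h9, if_neg (fun h10 => h9 h10.1), if_neg h7, if_neg h8]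
    rw [Nat.odd_iff] at hodd h4 h5
    rw [Nat.even_iff] at h3
    omega

private theorem vt_above {κ : Type*} (A : Finset κ) (t : κ → ℝ) (ht : Set.InjOn t A) {z : κ}
    (hz : z ∈ A) : A.card = (A.filter (fun a => t a < t z)).card + 1 +
      (A.filter (fun a => t z < t a)).card := by
  have h1 : A.card = ∑ _a ∈ A, 1 := by rw [card_eq_sum_ones]
  have h2 : (1 : ℕ) = ∑ a ∈ A, if a = z then 1 else 0 := by
    rw [sum_ite_eq' A z (fun _ => 1), if_pos hz]
  rw [h1]
  conv_rhs => rw [h2]
  rw [card_filter, card_filter, ← sum_add_distrib, ← sum_add_distrib]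
  refine sum_congr rfl (fun a ha => ?_)
  rcases lt_trichotomy (t a) (t z) with h | h | h
  · rw [if_pos h, if_neg (fun h3 => by rw [h3] at h; exact lt_irrefl _ h), if_neg (lt_asymm h)]
  · rw [if_neg h.ge.not_gt, if_pos (ht ha hz h), if_neg h.le.not_gt]
  · rw [if_neg (lt_asymm h), if_neg (fun h3 => by rw [h3] at h; exact lt_irrefl _ h), if_pos h]

private theorem vt_between {κ : Type*} (A : Finset κ) (t : κ → ℝ) (ht : Set.InjOn t A)
    {z z' : κ} (hz : z ∈ A) (h : t z < t z') : (A.filter (fun a => t a < t z')).card =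
      (A.filter (fun a => t a < t z)).card + 1 +
      (A.filter (fun a => t z < t a ∧ t a < t z')).card := by
  have h2 : (1 : ℕ) = ∑ a ∈ A, if a = z then 1 else 0 := by
    rw [sum_ite_eq' A z (fun _ => 1), if_pos hz]
  conv_rhs => rw [h2]
  rw [card_filter, card_filter, card_filter, ← sum_add_distrib, ← sum_add_distrib]
  refine sum_congr rfl (fun a ha => ?_)
  rcases lt_trichotomy (t a) (t z) with h3 | h3 | h3
  · rw [if_pos (h3.trans h), if_pos h3, if_neg (fun h4 => by rw [h4] at h3; exact lt_irrefl _ h3),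
      if_neg (fun h4 => lt_asymm h3 h4.1)]
  · rw [if_pos (h3 ▸ h), if_neg h3.ge.not_gt, if_pos (ht ha hz h3),
      if_neg (fun h4 => h3.le.not_gt h4.1)]
  · by_cases h4 : t a < t z'
    · rw [if_pos h4, if_neg (lt_asymm h3), if_neg (fun h5 => by rw [h5] at h3; exact lt_irrefl _ h3),
        if_pos ⟨h3, h4⟩]
    · rw [if_neg h4, if_neg (lt_asymm h3), if_neg (fun h5 => by rw [h5] at h3; exact lt_irrefl _ h3),
        if_neg (fun h5 => h4 h5.2)]

private theorem vt_inv_pos {u w : ℝ} (hw : 0 < w) (hu : u ≠ 0) :
    1 / u < 1 / w ↔ u < 0 ∨ w < u := by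
  rcases lt_or_gt_of_ne hu with h | h
  · constructor
    · intro _
      exact Or.inl h
    · intro _
      exact (one_div_neg.2 h).trans (one_div_pos.2 hw)
  · rw [one_div_lt_one_div h hw]
    constructor
    · intro h1
      exact Or.inr h1
    · rintro (h1 | h1)
      · exact absurd h1 (lt_asymm h)
      · exact h1

private theorem vt_inv_neg {u w : ℝ} (hw : w < 0) (hu : u ≠ 0) :
    1 / u < 1 / w ↔ w < u ∧ u < 0 := by
  rcases lt_or_gt_of_ne hu with h | h
  · rw [one_div_lt_one_div_of_neg h hw]
    constructor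
    · intro h1
      exact ⟨h1, h⟩
    · intro h1
      exact h1.1
  · constructor
    · intro h1
      exact absurd (h1.trans (one_div_neg.2 hw)) (lt_asymm (one_div_pos.2 h))
    · intro h1
      exact absurd h1.2 (lt_asymm h)

/-- K6. -/
theorem rank_tr {κ : Type*} (A : Finset κ) (hA : Even A.card) (t : κ → ℝ)
    (ht : Set.InjOn t A) {x y : κ} (hx : x ∈ A) (hy : y ∈ A) (hxy : x ≠ y) {m : ℝ} (hm : m ≠ 0) :
    (((A.erase x).image (fun a => 1 / (m * (t a - t x)))).filter
      (fun τ => τ < 1 / (m * (t y - t x)))).card % 2 =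
    ((A.filter (fun a => t a < t x)).card + (A.filter (fun a => t a < t y)).card + 1) % 2 := by
  have hne : ∀ a ∈ A, a ≠ x → m * (t a - t x) ≠ 0 := by
    intro a ha hax
    refine mul_ne_zero hm (sub_ne_zero.2 (fun h => hax (ht ha hx h)))
  have h1 : (((A.erase x).image (fun a => 1 / (m * (t a - t x)))).filter
      (fun τ => τ < 1 / (m * (t y - t x)))).card =
      ((A.erase x).filter (fun a => 1 / (m * (t a - t x)) < 1 / (m * (t y - t x)))).card := by
    rw [filter_image]
    refine card_image_of_injOn ?_
    intro a ha b hb hab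
    have ha' : a ∈ (A.erase x) := (mem_filter.1 (by exact_mod_cast ha)).1
    have hb' : b ∈ (A.erase x) := (mem_filter.1 (by exact_mod_cast hb)).1
    have h2 := hne a (mem_of_mem_erase ha') (ne_of_mem_erase ha')
    have h3 := hne b (mem_of_mem_erase hb') (ne_of_mem_erase hb')
    have hab : 1 / (m * (t a - t x)) = 1 / (m * (t b - t x)) := hab
    rw [div_eq_div_iff h2 h3, one_mul, one_mul] at hab
    have h4 := mul_left_cancel₀ hm hab
    exact ht (mem_of_mem_erase ha') (mem_of_mem_erase hb') (by linarith)
  rw [h1]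
  have htxy : t x ≠ t y := fun h => hxy (ht hx hy h)
  have ax := vt_above A t ht hx
  have ay := vt_above A t ht hy
  rw [Nat.even_iff] at hA
  rcases lt_or_gt_of_ne htxy with h | h
  · have bt := vt_between A t ht hx h
    rcases lt_or_gt_of_ne hm with hm' | hm'
    · -- `m < 0`, `t x < t y`
      have hw : m * (t y - t x) < 0 := mul_neg_of_neg_of_pos hm' (sub_pos.2 h)
      have h2 : (A.erase x).filter (fun a => 1 / (m * (t a - t x)) < 1 / (m * (t y - t x))) =
          A.filter (fun a => t x < t a ∧ t a < t y) := by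
        ext a
        rw [mem_filter, mem_filter, mem_erase]
        constructor
        · rintro ⟨⟨hax, ha⟩, hlt⟩
          rw [vt_inv_neg hw (hne a ha hax)] at hlt
          refine ⟨ha, ?_, ?_⟩
          · by_contra h3
            have := mul_nonneg_of_nonpos_of_nonpos hm'.le (sub_nonpos.2 (not_lt.1 h3))
            linarith [hlt.2]
          · by_contra h3
            have := mul_nonneg_of_nonpos_of_nonpos hm'.le
              (sub_nonpos.2 (not_lt.1 h3) : t y - t a ≤ 0)
            nlinarith [hlt.1]
        · rintro ⟨ha, h3, h4⟩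
          have hax : a ≠ x := fun h5 => by rw [h5] at h3; exact lt_irrefl _ h3
          refine ⟨⟨hax, ha⟩, ?_⟩
          rw [vt_inv_neg hw (hne a ha hax)]
          constructor
          · have := mul_neg_of_neg_of_pos hm' (sub_pos.2 h4)
            nlinarith
          · exact mul_neg_of_neg_of_pos hm' (sub_pos.2 h3)
      rw [h2]
      omega
    · -- `m > 0`, `t x < t y`
      have hw : 0 < m * (t y - t x) := mul_pos hm' (sub_pos.2 h)
      have h2 : ((A.erase x).filter (fun a => 1 / (m * (t a - t x)) < 1 / (m * (t y - t x)))).card =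
          (A.filter (fun a => t a < t x)).card + (A.filter (fun a => t y < t a)).card := by
        rw [← card_union_of_disjoint]
        · congr 1
          ext a
          rw [mem_filter, mem_union, mem_filter, mem_filter, mem_erase]
          constructor
          · rintro ⟨⟨hax, ha⟩, hlt⟩
            rw [vt_inv_pos hw (hne a ha hax)] at hlt
            rcases hlt with hlt | hlt
            · left
              refine ⟨ha, ?_⟩
              by_contra h3
              have := mul_nonneg hm'.le (sub_nonneg.2 (not_lt.1 h3))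
              linarith
            · right
              refine ⟨ha, ?_⟩
              by_contra h3
              have := mul_nonneg hm'.le (sub_nonneg.2 (not_lt.1 h3) : 0 ≤ t y - t a)
              nlinarith
          · rintro (⟨ha, h3⟩ | ⟨ha, h3⟩)
            · have hax : a ≠ x := fun h5 => by rw [h5] at h3; exact lt_irrefl _ h3
              refine ⟨⟨hax, ha⟩, ?_⟩
              rw [vt_inv_pos hw (hne a ha hax)]
              exact Or.inl (mul_neg_of_pos_of_neg hm' (sub_neg.2 h3))
            · have hax : a ≠ x := fun h5 => by rw [h5] at h3; exact lt_asymm h h3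
              refine ⟨⟨hax, ha⟩, ?_⟩
              rw [vt_inv_pos hw (hne a ha hax)]
              right
              have := mul_pos hm' (sub_pos.2 h3)
              nlinarith
        · rw [disjoint_left]
          intro a h3 h4
          rw [mem_filter] at h3 h4
          linarith [h3.2, h4.2]
      rw [h2]
      omega
  · have bt := vt_between A t ht hy h
    rcases lt_or_gt_of_ne hm with hm' | hm'
    · -- `m < 0`, `t y < t x`
      have hw : 0 < m * (t y - t x) := mul_pos_of_neg_of_neg hm' (sub_neg.2 h)
      have h2 : ((A.erase x).filter (fun a => 1 / (m * (t a - t x)) < 1 / (m * (t y - t x)))).card =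
          (A.filter (fun a => t x < t a)).card + (A.filter (fun a => t a < t y)).card := by
        rw [← card_union_of_disjoint]
        · congr 1
          ext a
          rw [mem_filter, mem_union, mem_filter, mem_filter, mem_erase]
          constructor
          · rintro ⟨⟨hax, ha⟩, hlt⟩
            rw [vt_inv_pos hw (hne a ha hax)] at hlt
            rcases hlt with hlt | hlt
            · left
              refine ⟨ha, ?_⟩
              by_contra h3
              have := mul_nonneg_of_nonpos_of_nonpos hm'.le (sub_nonpos.2 (not_lt.1 h3))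
              linarith
            · right
              refine ⟨ha, ?_⟩
              by_contra h3
              have := mul_nonneg_of_nonpos_of_nonpos hm'.le
                (sub_nonpos.2 (not_lt.1 h3) : t y - t a ≤ 0)
              nlinarith
          · rintro (⟨ha, h3⟩ | ⟨ha, h3⟩)
            · have hax : a ≠ x := fun h5 => by rw [h5] at h3; exact lt_irrefl _ h3
              refine ⟨⟨hax, ha⟩, ?_⟩
              rw [vt_inv_pos hw (hne a ha hax)]
              exact Or.inl (mul_neg_of_neg_of_pos hm' (sub_pos.2 h3))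
            · have hax : a ≠ x := fun h5 => by rw [h5] at h3; exact lt_asymm h h3
              refine ⟨⟨hax, ha⟩, ?_⟩
              rw [vt_inv_pos hw (hne a ha hax)]
              right
              have := mul_pos_of_neg_of_neg hm' (sub_neg.2 h3)
              nlinarith
        · rw [disjoint_left]
          intro a h3 h4
          rw [mem_filter] at h3 h4
          linarith [h3.2, h4.2]
      rw [h2]
      omega
    · -- `m > 0`, `t y < t x`
      have hw : m * (t y - t x) < 0 := mul_neg_of_pos_of_neg hm' (sub_neg.2 h)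
      have h2 : (A.erase x).filter (fun a => 1 / (m * (t a - t x)) < 1 / (m * (t y - t x))) =
          A.filter (fun a => t y < t a ∧ t a < t x) := by
        ext a
        rw [mem_filter, mem_filter, mem_erase]
        constructor
        · rintro ⟨⟨hax, ha⟩, hlt⟩
          rw [vt_inv_neg hw (hne a ha hax)] at hlt
          refine ⟨ha, ?_, ?_⟩
          · by_contra h3
            have := mul_nonneg hm'.le (sub_nonneg.2 (not_lt.1 h3) : 0 ≤ t y - t a)
            nlinarith [hlt.1]
          · by_contra h3
            have := mul_nonneg hm'.le (sub_nonneg.2 (not_lt.1 h3))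
            linarith [hlt.2]
        · rintro ⟨ha, h3, h4⟩
          have hax : a ≠ x := fun h5 => by rw [h5] at h4; exact lt_irrefl _ h4
          refine ⟨⟨hax, ha⟩, ?_⟩
          rw [vt_inv_neg hw (hne a ha hax)]
          constructor
          · have := mul_pos hm' (sub_pos.2 h3)
            nlinarith
          · exact mul_neg_of_pos_of_neg hm' (sub_neg.2 h4)
      rw [h2]
      omega

/-- M7. -/
theorem pair_alg {a b a1 b1 c c1 s s1 lam : ℝ} (h1 : 0 < b / a) (h2 : b / a < lam)
    (h3 : 0 < a1 / b1) (h4 : a1 / b1 < 1 / lam) (hc : c < s) (hc1 : c1 < s1)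
    (i1 : s1 < 1 / a - c * (b / a)) (i2 : 1 / a1 - c * (b1 / a1) < 1 / a - c * (b / a))
    (i3 : s < 1 / b1 - c1 * (a1 / b1))
    (i4 : 1 / b - c1 * (a / b) < 1 / b1 - c1 * (a1 / b1)) : False := by
  have ha : a ≠ 0 := by
    rintro rfl
    rw [div_zero] at h1
    exact lt_irrefl _ h1
  have hb : b ≠ 0 := by
    rintro rfl
    rw [zero_div] at h1
    exact lt_irrefl _ h1
  have hb1 : b1 ≠ 0 := by
    rintro rfl
    rw [div_zero] at h3
    exact lt_irrefl _ h3
  have ha1 : a1 ≠ 0 := by
    rintro rfl
    rw [zero_div] at h3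
    exact lt_irrefl _ h3
  have hl : 0 < lam := h1.trans h2
  obtain ⟨ρ, hρ⟩ : ∃ ρ, ρ = b / a := ⟨_, rfl⟩
  obtain ⟨ρ1, hρ1⟩ : ∃ ρ1, ρ1 = a1 / b1 := ⟨_, rfl⟩
  obtain ⟨u, hu⟩ : ∃ u, u = 1 / a := ⟨_, rfl⟩
  obtain ⟨u1, hu1⟩ : ∃ u1, u1 = 1 / b1 := ⟨_, rfl⟩
  rw [← hρ] at h1 h2 i1 i2
  rw [← hρ1] at h3 h4 i3 i4
  rw [← hu] at i1 i2
  rw [← hu1] at i3 i4
  have e1 : ρ1 * (1 / a1 - c * (b1 / a1)) = u1 - c := by
    rw [hρ1, hu1]
    field_simp
  have e2 : ρ * (1 / b - c1 * (a / b)) = u - c1 := by
    rw [hρ, hu]
    field_simp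
  have f1 := mul_lt_mul_of_pos_left i2 h3
  rw [e1] at f1
  have f2 := mul_lt_mul_of_pos_left i4 h1
  rw [e2] at f2
  -- `α = u1 - c1 * ρ1 - c`, `β = u - c * ρ - c1`
  have g1 : u1 - c1 * ρ1 - c < ρ1 * (u - c * ρ - c1) := by linarith
  have g2 : u - c * ρ - c1 < ρ * (u1 - c1 * ρ1 - c) := by linarith
  have g3 : 0 < u1 - c1 * ρ1 - c := by linarith
  have g4 : u1 - c1 * ρ1 - c < ρ1 * (ρ * (u1 - c1 * ρ1 - c)) :=
    g1.trans (mul_lt_mul_of_pos_left g2 h3)
  have g5 : ρ1 * ρ < 1 := by
    have g6 : ρ1 * ρ < 1 / lam * lam := mul_lt_mul h4 h2.le h1 (one_div_pos.2 hl).le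
    rw [one_div_mul_cancel hl.ne'] at g6
    exact g6
  have g7 := mul_lt_mul_of_pos_right g5 g3
  linarith

/-- K9. a set of elements whose ranks have the same parity -/
theorem class_card {κ : Type*} (A C : Finset κ) (hA : Even A.card) (t : κ → ℝ)
    (ht : Set.InjOn t A) (hC : C ⊆ A) (h : ∀ a ∈ C, ∀ b ∈ C,
      (A.filter (fun z => t z < t a)).card % 2 = (A.filter (fun z => t z < t b)).card % 2) :
    2 * C.card ≤ A.card := by
  have hlt : ∀ a ∈ A, (A.filter (fun z => t z < t a)).card < A.card := by
    intro a ha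
    have := vt_above A t ht ha
    omega
  have hmono : ∀ a ∈ A, ∀ b, t a < t b →
      (A.filter (fun z => t z < t a)).card < (A.filter (fun z => t z < t b)).card := by
    intro a ha b hab
    have := vt_between A t ht ha hab
    omega
  have hc : C.card ≤ (Finset.range (A.card / 2)).card := by
    refine card_le_card_of_injOn (fun a => (A.filter (fun z => t z < t a)).card / 2) ?_ ?_
    · intro a ha
      have ha : a ∈ C := by exact_mod_cast ha
      have h1 := hlt a (hC ha)
      rw [mem_coe, mem_range]
      show (A.filter (fun z => t z < t a)).card / 2 < A.card / 2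
      rw [Nat.even_iff] at hA
      omega
    · intro a ha b hb hab
      have ha : a ∈ C := by exact_mod_cast ha
      have hb : b ∈ C := by exact_mod_cast hb
      have hab : (A.filter (fun z => t z < t a)).card / 2 =
        (A.filter (fun z => t z < t b)).card / 2 := hab
      have h1 := h a ha b hb
      by_contra hne
      have htne : t a ≠ t b := fun h2 => hne (ht (hC ha) (hC hb) h2)
      rcases lt_or_gt_of_ne htne with h2 | h2
      · have := hmono a (hC ha) b h2
        omega
      · have := hmono b (hC hb) a h2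
        omega
  rw [card_range] at hc
  omega

end Pool.Agent.Dirac86.Tri
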