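import Pool.Agent.Dirac86.Tri.Geo1
import Pool.Agent.Dirac86.Tri.Vert

/-!
# Two long lines through a point on three even lines
-/

set_option autoImplicit false
open Finset Classical

namespace Pool.Agent.Dirac86.Tri

open Pool.Agent.Dirac80 (connectingLines mem_connecting connecting_eq Pl area)
open Pool.Agent.Dirac86.Few (evl)

private theorem pair_uniq {S A B : Finset Pl} (hA : A ∈ connectingLines S)
    (hB : B ∈ connectingLines S) (hAB : A ≠ B) {x w : Pl} (hxA : x ∈ A) (hxB : x ∈ B)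
    (hwA : w ∈ A) (hwB : w ∈ B) : w = x := by
  by_contra hne
  apply hAB
  rw [connecting_eq hA hxA hwA (Ne.symm hne), connecting_eq hB hxB hwB (Ne.symm hne)]

private theorem pair_pos {S A B C D : Finset Pl} (hA : A ∈ connectingLines S)
    (hB : B ∈ connectingLines S) (hAe : Even A.card) (hBe : Even B.card) (hAB : A ≠ B)
    (hC : Phi S A C) (hD : Phi S B D) {x : Pl} (hxA : x ∈ A) (hxB : x ∈ B)
    (h3 : evl S x = 3) (hxC : x ∉ C) (hxD : x ∉ D) {L : Finset Pl}
    (hL : L ∈ connectingLines S) (hLe : Even L.card) (hxL : x ∈ L) (hLA : L ≠ A) (hLB : L ≠ B)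
    {p q : Pl → ℝ} (hF : Fr S A B p q) {lam : ℝ} (hlam : 0 < lam)
    (hq : ∀ w ∈ L, q w = lam * p w) : False := by
  have hAS : A ⊆ S := (mem_connecting.1 hA).1
  have hBS : B ⊆ S := (mem_connecting.1 hB).1
  obtain ⟨v, hv, hvB, c, a, ha, hca, hv1, hv2, hvm⟩ :=
    hC x hxA hxC h3 B hB hBe hAB.symm hxB L hL hLe hxL hLA hLB p q hF lam hlam hq
  have hq' : ∀ w ∈ L, p w = 1 / lam * q w := by
    intro w hw
    rw [hq w hw]
    field_simp
  obtain ⟨v', hv', hvA', c', a', ha', hca', hv1', hv2', hvm'⟩ :=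
    hD x hxB hxD h3 A hA hAe hAB hxA L hL hLe hxL hLB hLA q p (Fr_swap hF) (1 / lam)
      (by positivity) hq'
  have hvv : v' ≠ v := by
    rintro rfl
    have h1 : q v' / p v' * (p v' / q v') = 1 := by
      have hp0 : p v' ≠ 0 := by
        intro h
        rw [h, div_zero] at hv1
        exact lt_irrefl _ hv1
      have hq0 : q v' ≠ 0 := by
        intro h
        rw [h, zero_div] at hv1
        exact lt_irrefl _ hv1
      field_simp
    have h2 : q v' / p v' * (p v' / q v') < lam * (1 / lam) :=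
      mul_lt_mul hv2 hv2'.le hv1' hlam.le
    rw [h1, mul_one_div_cancel hlam.ne'] at h2
    exact lt_irrefl _ h2
  rw [mem_erase] at ha ha'
  have haB : a ∉ B := fun h => ha.1 (pair_uniq hA hB hAB hxA hxB ha.2 h)
  have haA' : a' ∉ A := fun h => ha'.1 (pair_uniq hA hB hAB hxA hxB h ha'.2)
  have hpa : p a = 0 := (hF.2.2.1 a (hAS ha.2)).2 ha.2
  have hqa : q a' = 0 := (hF.2.2.2.1 a' (hBS ha'.2)).2 ha'.2
  have hv'SA : v' ∈ S \ A := mem_sdiff.2 ⟨(mem_sdiff.1 hv').1, hvA'⟩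
  have hvSB : v ∈ S \ B := mem_sdiff.2 ⟨(mem_sdiff.1 hv).1, hvB⟩
  have i1 : 1 / p a' < 1 / p v - c * (q v / p v) := by
    have h := hvm a' (mem_sdiff.2 ⟨hBS ha'.2, haA'⟩) (fun h => hvB (h ▸ ha'.2))
    rw [hqa, zero_div, mul_zero, sub_zero] at h
    exact h
  have i2 := hvm v' hv'SA hvv
  have i3 : 1 / q a < 1 / q v' - c' * (p v' / q v') := by
    have h := hvm' a (mem_sdiff.2 ⟨hAS ha.2, haB⟩) (fun h => hvA' (h ▸ ha.2))
    rw [hpa, zero_div, mul_zero, sub_zero] at h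
    exact h
  have i4 := hvm' v hvSB hvv.symm
  exact pair_alg hv1 hv2 hv1' hv2' hca hca' i1 i2 i3 i4

/-- L2. -/
theorem pair_class {S A B C D : Finset Pl} (hA : A ∈ connectingLines S)
    (hB : B ∈ connectingLines S) (hAe : Even A.card) (hBe : Even B.card) (hAB : A ≠ B)
    (hC : Phi S A C) (hD : Phi S B D) {x : Pl} (hxA : x ∈ A) (hxB : x ∈ B)
    (h3 : evl S x = 3) : x ∈ C ∨ x ∈ D := by
  by_contra hcon
  rw [not_or] at hcon
  obtain ⟨hxC, hxD⟩ := hcon
  have hAS : A ⊆ S := (mem_connecting.1 hA).1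
  have hBS : B ⊆ S := (mem_connecting.1 hB).1
  have hex : ∃ L : Finset Pl, L ∈ (connectingLines S).filter
      (fun T : Finset Pl => Even T.card ∧ x ∈ T) ∧ L ∉ ({A, B} : Finset (Finset Pl)) := by
    by_contra hno
    push Not at hno
    have hsub : (connectingLines S).filter (fun T : Finset Pl => Even T.card ∧ x ∈ T) ⊆
        ({A, B} : Finset (Finset Pl)) := fun T hT => hno T hT
    have h1 := card_le_card hsub
    have h2 : ((connectingLines S).filter
      (fun T : Finset Pl => Even T.card ∧ x ∈ T)).card = 3 := h3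
    have h4 : ({A, B} : Finset (Finset Pl)).card ≤ 2 := card_le_two
    omega
  obtain ⟨L, hLm, hLAB⟩ := hex
  rw [mem_filter] at hLm
  obtain ⟨hL, hLe, hxL⟩ := hLm
  rw [mem_insert, mem_singleton, not_or] at hLAB
  obtain ⟨hLA, hLB⟩ := hLAB
  have hLS : L ⊆ S := (mem_connecting.1 hL).1
  obtain ⟨w0, hw0, hw0x⟩ := exists_mem_ne (lt_of_lt_of_le one_lt_two (mem_connecting.1 hL).2.1) x
  obtain ⟨p, q, hF⟩ := geo1 hA hB hAB hxA hxB
  have hpx : p x = 0 := (hF.2.2.1 x (hAS hxA)).2 hxA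
  have hqx : q x = 0 := (hF.2.2.2.1 x (hAS hxA)).2 hxB
  have hp0 : p w0 ≠ 0 := by
    intro h
    exact hw0x (pair_uniq hL hA hLA hxL hxA hw0 ((hF.2.2.1 w0 (hLS hw0)).1 h))
  have hq0 : q w0 ≠ 0 := by
    intro h
    exact hw0x (pair_uniq hL hB hLB hxL hxB hw0 ((hF.2.2.2.1 w0 (hLS hw0)).1 h))
  have hlin : ∀ w ∈ L, q w = q w0 / p w0 * p w := by
    intro w hw
    have hcol := Pool.Agent.Dirac80.area_of_collinear (mem_connecting.1 hL).2.2.1
      (p := x) (q := w0) (r := w) (by exact_mod_cast hxL) (by exact_mod_cast hw0)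
      (by exact_mod_cast hw)
    rw [hF.2.2.2.2.2 x w0 w, hpx, hqx] at hcol
    field_simp
    linarith
  rcases lt_or_gt_of_ne (div_ne_zero hq0 hp0) with hneg | hpos
  · refine pair_pos hA hB hAe hBe hAB hC hD hxA hxB h3 hxC hxD hL hLe hxL hLA hLB (Fr_neg hF)
      (lam := -(q w0 / p w0)) (by linarith) ?_
    intro w hw
    rw [hlin w hw]
    ring
  · exact pair_pos hA hB hAe hBe hAB hC hD hxA hxB h3 hxC hxD hL hLe hxL hLA hLB hF hpos hlin

end Pool.Agent.Dirac86.Tri
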