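import Pool.Agent.Dirac86.Few.Basic
import Pool.Agent.Dirac86.Few.Count
import Pool.Agent.Dirac86.Long.Hull2
import Pool.Agent.Dirac86.Tri.LineClass
import Pool.Agent.Dirac86.Tri.Pair

/-!
# The final count
-/

set_option autoImplicit false
open Finset Classical

namespace Pool.Agent.Dirac86.Tri

open Pool.Agent.Dirac80 (connectingLines mem_connecting connecting_eq Pl area)
open Pool.Agent.Dirac86.Few (evl evl_odd cnt_dbl cnt_w cnt_V)
open Pool.Agent.Dirac86.Long (hull_set2)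

/-- the pointwise inequality -/
private theorem point3 (e m : ℕ) (he : ∃ a, e = 2 * a + 1) (hm : m ≤ e) :
    (if m = 0 then (e : ℤ) - 1 else 0) + (m : ℤ) * (if (e : ℤ) = 1 then -1 else 1) ≤
      (e : ℤ) - m - 1 + (if 2 ≤ m ∧ e = 3 then 2 * (m : ℤ) - 2 else 0) +
        ((if 3 ≤ m ∧ 5 ≤ e then 2 * m + 1 - e else 0 : ℕ) : ℤ) := by
  obtain ⟨a, rfl⟩ := he
  by_cases h0 : m = 0
  · subst h0
    simp
  · rw [if_neg h0]
    by_cases ha : a = 0
    · subst ha
      have h1 : m = 1 := by omega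
      subst h1
      simp
    · have h2 : ¬ (((2 * a + 1 : ℕ) : ℤ) = 1) := by
        push_cast
        omega
      rw [if_neg h2]
      by_cases h3 : a = 1
      · subst h3
        have h4 : ¬ (3 ≤ m ∧ 5 ≤ 2 * 1 + 1) := by omega
        rw [if_neg h4]
        by_cases h5 : 2 ≤ m
        · rw [if_pos ⟨h5, rfl⟩]
          push_cast
          omega
        · have h6 : ¬ (2 ≤ m ∧ 2 * 1 + 1 = 3) := fun h => h5 h.1
          rw [if_neg h6]
          push_cast
          omega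
      · have h4 : ¬ (2 ≤ m ∧ 2 * a + 1 = 3) := fun h => h3 (by omega)
        rw [if_neg h4]
        by_cases h5 : 3 ≤ m
        · rw [if_pos ⟨h5, by omega⟩]
          push_cast
          omega
        · have h6 : ¬ (3 ≤ m ∧ 5 ≤ 2 * a + 1) := fun h => h5 h.1
          rw [if_neg h6]
          push_cast
          omega

/-- the sum over the points of the large hulls -/
private theorem sum_V3 (V W : Finset Pl) (Z : Finset Pl) (hZ : Z ⊆ V) (y : Pl → ℤ) (d : ℤ)
    (h1 : ∀ b ∈ V, d - 2 ≤ y b) (h2 : ∀ b ∈ W, d ≤ y b)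
    (hc : ((V \ W).card : ℤ) ≤ 2 * d) :
    d * ((Z.card : ℤ) - 4) ≤ ∑ b ∈ Z, y b := by
  have h3 : ∑ b ∈ Z, (d - if b ∈ W then 0 else 2) ≤ ∑ b ∈ Z, y b := by
    refine sum_le_sum (fun b hb => ?_)
    by_cases hbW : b ∈ W
    · rw [if_pos hbW]
      have := h2 b hbW
      omega
    · rw [if_neg hbW]
      exact h1 b (hZ hb)
  have h4 : ∑ b ∈ Z, (if b ∈ W then (0 : ℤ) else 2) = 2 * ((Z.filter (fun b => b ∉ W)).card : ℤ) := by
    have h5 : ∀ b ∈ Z, (if b ∈ W then (0 : ℤ) else 2) = if b ∉ W then 2 else 0 := by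
      intro b _
      by_cases hb : b ∈ W <;> simp [hb]
    rw [sum_congr rfl h5, ← sum_filter, sum_const, nsmul_eq_mul]
    ring
  have h6 : ((Z.filter (fun b => b ∉ W)).card : ℤ) ≤ ((V \ W).card : ℤ) := by
    exact_mod_cast card_le_card (fun b hb => by
      rw [mem_filter] at hb
      exact mem_sdiff.mpr ⟨hZ hb.1, hb.2⟩)
  rw [sum_sub_distrib, h4, sum_const, nsmul_eq_mul] at h3
  have h7 : d * ((Z.card : ℤ) - 4) = (Z.card : ℤ) * d - 4 * d := by ring
  rw [h7]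
  linarith

/-- two connecting lines have at most one common point -/
private theorem two_lines {S T T' : Finset Pl} (hT : T ∈ connectingLines S)
    (hT' : T' ∈ connectingLines S) (hne : T ≠ T') : (T ∩ T').card ≤ 1 := by
  by_contra h
  push Not at h
  obtain ⟨p, hp, q, hq, hpq⟩ := one_lt_card.1 h
  rw [mem_inter] at hp hq
  exact hne ((connecting_eq hT hp.1 hq.1 hpq).trans (connecting_eq hT' hp.2 hq.2 hpq).symm)

/-- the points on at least two members of a family of connecting lines -/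
private theorem pairs_le {S : Finset Pl} (𝓐 : Finset (Finset Pl))
    (h : ∀ T ∈ 𝓐, T ∈ connectingLines S) (Q : Finset Pl)
    (hQ : ∀ x ∈ Q, 2 ≤ (𝓐.filter (fun T => x ∈ T)).card) :
    ∑ x ∈ Q, (2 * (((𝓐.filter (fun T => x ∈ T)).card : ℕ) : ℤ) - 2) ≤
      (𝓐.card : ℤ) * ((𝓐.card : ℤ) - 1) := by
  have h1 : ∀ x ∈ Q, 2 * (((𝓐.filter (fun T => x ∈ T)).card : ℕ) : ℤ) - 2 ≤
      ((𝓐.offDiag.filter (fun P => x ∈ P.1 ∧ x ∈ P.2)).card : ℤ) := by
    intro x hx
    have h2 := hQ x hx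
    have h3 : (𝓐.filter (fun T => x ∈ T)).offDiag ⊆
        𝓐.offDiag.filter (fun P => x ∈ P.1 ∧ x ∈ P.2) := by
      intro P hP
      rw [mem_offDiag, mem_filter, mem_filter] at hP
      rw [mem_filter, mem_offDiag]
      exact ⟨⟨hP.1.1, hP.2.1.1, hP.2.2⟩, hP.1.2, hP.2.1.2⟩
    have h4 := card_le_card h3
    rw [offDiag_card] at h4
    have h5 : (𝓐.filter (fun T => x ∈ T)).card ≤
        (𝓐.filter (fun T => x ∈ T)).card * (𝓐.filter (fun T => x ∈ T)).card :=
      Nat.le_mul_self _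
    have h6 : (((𝓐.filter (fun T => x ∈ T)).card : ℕ) : ℤ) *
        (((𝓐.filter (fun T => x ∈ T)).card : ℕ) : ℤ) -
        (((𝓐.filter (fun T => x ∈ T)).card : ℕ) : ℤ) ≤
        ((𝓐.offDiag.filter (fun P => x ∈ P.1 ∧ x ∈ P.2)).card : ℤ) := by
      have h7 : (((𝓐.filter (fun T => x ∈ T)).card * (𝓐.filter (fun T => x ∈ T)).card -
        (𝓐.filter (fun T => x ∈ T)).card : ℕ) : ℤ) ≤
        ((𝓐.offDiag.filter (fun P => x ∈ P.1 ∧ x ∈ P.2)).card : ℤ) := by exact_mod_cast h4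
      rw [Nat.cast_sub h5, Nat.cast_mul] at h7
      exact h7
    have h8 : (2 : ℤ) ≤ (((𝓐.filter (fun T => x ∈ T)).card : ℕ) : ℤ) := by exact_mod_cast h2
    nlinarith
  refine (sum_le_sum h1).trans ?_
  have h2 : ∀ x ∈ Q, ((𝓐.offDiag.filter (fun P => x ∈ P.1 ∧ x ∈ P.2)).card : ℤ) =
      ∑ P ∈ 𝓐.offDiag, if x ∈ P.1 ∧ x ∈ P.2 then (1 : ℤ) else 0 := by
    intro x _
    rw [card_filter]
    push_cast
    rfl
  rw [sum_congr rfl h2, sum_comm]
  have h3 : ∀ P ∈ 𝓐.offDiag, ∑ x ∈ Q, (if x ∈ P.1 ∧ x ∈ P.2 then (1 : ℤ) else 0) ≤ 1 := by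
    intro P hP
    rw [mem_offDiag] at hP
    have h4 := two_lines (h _ hP.1) (h _ hP.2.1) hP.2.2
    have h5 : (Q.filter (fun x => x ∈ P.1 ∧ x ∈ P.2)).card ≤ (P.1 ∩ P.2).card := by
      refine card_le_card (fun x hx => ?_)
      rw [mem_filter] at hx
      exact mem_inter.2 hx.2
    have h6 : ∑ x ∈ Q, (if x ∈ P.1 ∧ x ∈ P.2 then (1 : ℤ) else 0) =
        ((Q.filter (fun x => x ∈ P.1 ∧ x ∈ P.2)).card : ℤ) := by
      rw [card_filter]
      push_cast
      rfl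
    rw [h6]
    exact_mod_cast h5.trans h4
  refine (sum_le_sum h3).trans ?_
  rw [sum_const, nsmul_eq_mul, mul_one, offDiag_card, Nat.cast_sub (Nat.le_mul_self _),
    Nat.cast_mul]
  apply le_of_eq
  ring

/-- the case in which no line has many points on a single even line -/
private theorem core_neg (S : Finset Pl) (hS : ¬ Collinear ℝ (S : Set Pl))
    (𝓐 : Finset (Finset Pl))
    (hA : ∀ T ∈ 𝓐, T ∈ connectingLines S ∧ 4 ≤ T.card ∧ Even T.card)
    (hlen : ∀ T ∈ 𝓐, 𝓐.card ^ 2 + 3 * 𝓐.card ≤ T.card)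
    (hodd : ∀ x ∈ S, ∃ a, evl S x = 2 * a + 1)
    (hneg : ∀ T ∈ 𝓐, 2 * (T.filter (fun x => evl S x = 1)).card ≤ T.card) :
    ∑ T ∈ 𝓐, (2 * (((T.filter (fun x => evl S x = 1)).card : ℕ) : ℤ) - (T.card : ℤ)) +
      ∑ x ∈ S.filter (fun x => 2 ≤ (𝓐.filter (fun T => x ∈ T)).card ∧ evl S x = 3),
        (2 * (((𝓐.filter (fun T => x ∈ T)).card : ℕ) : ℤ) - 2) ≤
      ∑ x ∈ S, (if (𝓐.filter (fun T => x ∈ T)).card = 0 then
        ((evl S x : ℕ) : ℤ) - 1 else 0) := by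
  have hYterm : ∀ x ∈ S, 0 ≤ (if (𝓐.filter (fun T => x ∈ T)).card = 0 then
      ((evl S x : ℕ) : ℤ) - 1 else 0) := by
    intro x hx
    obtain ⟨a, ha⟩ := hodd x hx
    split_ifs
    · omega
    · exact le_refl 0
  have hY0 := sum_nonneg hYterm
  have hpl := pairs_le 𝓐 (fun T hT => (hA T hT).1)
    (S.filter (fun x => 2 ≤ (𝓐.filter (fun T => x ∈ T)).card ∧ evl S x = 3))
    (fun x hx => (mem_filter.1 hx).2.1)
  set Q := S.filter (fun x => 2 ≤ (𝓐.filter (fun T => x ∈ T)).card ∧ evl S x = 3) with hQ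
  set Y : ℤ := ∑ x ∈ S, (if (𝓐.filter (fun T => x ∈ T)).card = 0 then
      ((evl S x : ℕ) : ℤ) - 1 else 0) with hYdef
  by_contra hcon
  push Not at hcon
  have hterm : ∀ T ∈ 𝓐, (2 * (((T.filter (fun x => evl S x = 1)).card : ℕ) : ℤ) -
      (T.card : ℤ)) ≤ 0 := by
    intro T hT
    have := hneg T hT
    omega
  have hsingle : ∀ T ∈ 𝓐, ∑ T' ∈ 𝓐, (2 * (((T'.filter (fun x => evl S x = 1)).card : ℕ) : ℤ) -
      (T'.card : ℤ)) ≤ 2 * (((T.filter (fun x => evl S x = 1)).card : ℕ) : ℤ) -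
      (T.card : ℤ) := by
    intro T hT
    rw [← add_sum_erase 𝓐 _ hT]
    have h1 := sum_nonpos (fun T' (hT' : T' ∈ 𝓐.erase T) => hterm T' (mem_of_mem_erase hT'))
    linarith
  have hcl : ∀ T ∈ 𝓐, ∃ C ⊆ T, T.filter (fun x => evl S x = 1) ⊆ C ∧ 2 * C.card ≤ T.card ∧
      Phi S T C := by
    intro T hT
    obtain ⟨hc, h4, hev⟩ := hA T hT
    refine line_class S hS hc hev (hneg T hT) ?_
    intro V hV hVc hV2
    have hV0 : ∀ x ∈ V, x ∉ T := fun x hx => (mem_sdiff.mp (hV hx)).2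
    have hVS : ∀ x ∈ V, x ∈ S := fun x hx => (mem_sdiff.mp (hV hx)).1
    have hcV := cnt_V V T 𝓐 hT hV0 (fun T' hT' => hV2 T' (hA T' hT').1)
    set V0 := V.filter (fun x => (𝓐.filter (fun T => x ∈ T)).card = 0) with hV0def
    have hYV : ∑ x ∈ V0, (((evl S x : ℕ) : ℤ) - 1) ≤ Y := by
      have h3 : ∑ x ∈ V0, (((evl S x : ℕ) : ℤ) - 1) =
          ∑ x ∈ V0, (if (𝓐.filter (fun T => x ∈ T)).card = 0 then
              ((evl S x : ℕ) : ℤ) - 1 else 0) := by
        refine sum_congr rfl (fun x hx => ?_)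
        rw [if_pos (mem_filter.mp hx).2]
      rw [h3]
      refine sum_le_sum_of_subset_of_nonneg ?_ ?_
      · intro x hx
        exact hVS x (mem_filter.mp hx).1
      · intro x hx _
        exact hYterm x hx
    have hu : 2 * ((V0.filter (fun x => ¬ evl S x = 1)).card : ℤ) ≤
        ∑ x ∈ V0, (((evl S x : ℕ) : ℤ) - 1) := by
      have h5 : ∑ x ∈ V0, (if ¬ evl S x = 1 then (2 : ℤ) else 0) ≤
          ∑ x ∈ V0, (((evl S x : ℕ) : ℤ) - 1) := by
        refine sum_le_sum (fun x hx => ?_)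
        obtain ⟨a, ha⟩ := hodd x (hVS x (mem_filter.mp hx).1)
        split_ifs with h6 <;> omega
      rw [← sum_filter, sum_const, nsmul_eq_mul] at h5
      linarith
    have hsp := card_filter_add_card_filter_not (s := V0) (fun x => evl S x = 1)
    have hle : (V0.filter (fun x => evl S x = 1)).card ≤
        (V.filter (fun x => evl S x = 1)).card := by
      refine card_le_card (fun x hx => ?_)
      rw [mem_filter] at hx
      exact mem_filter.2 ⟨(mem_filter.1 hx.1).1, hx.2⟩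
    have hYlt : Y < 2 * (((T.filter (fun x => evl S x = 1)).card : ℕ) : ℤ) - (T.card : ℤ) +
        (𝓐.card : ℤ) * ((𝓐.card : ℤ) - 1) := by
      have := hsingle T hT
      linarith
    have hk1 : 1 ≤ 𝓐.card := card_pos.2 ⟨T, hT⟩
    have hl := hlen T hT
    have hl2 : (𝓐.card : ℤ) * (𝓐.card : ℤ) + 3 * (𝓐.card : ℤ) ≤ (T.card : ℤ) := by
      have : ((𝓐.card ^ 2 + 3 * 𝓐.card : ℕ) : ℤ) ≤ (T.card : ℤ) := by exact_mod_cast hl
      push_cast at this
      rw [pow_two] at this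
      exact this
    have hexp : (𝓐.card : ℤ) * ((𝓐.card : ℤ) - 1) = (𝓐.card : ℤ) * (𝓐.card : ℤ) -
      (𝓐.card : ℤ) := by ring
    rw [hexp] at hYlt
    set kk : ℤ := (𝓐.card : ℤ) * (𝓐.card : ℤ) with hkk
    omega
  choose! C hCT hC1 hC2 hC3 using hcl
  -- the points of `Q`
  have hQx : ∀ x ∈ Q, 2 * (((𝓐.filter (fun T => x ∈ T)).card : ℕ) : ℤ) - 2 ≤
      2 * (((𝓐.filter (fun T => x ∈ C T)).card : ℕ) : ℤ) := by
    intro x hx
    have hx' := mem_filter.1 hx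
    have h1 : (𝓐.filter (fun T => x ∈ T ∧ x ∉ C T)).card ≤ 1 := by
      by_contra h
      push Not at h
      obtain ⟨T, hT, T', hT', hne⟩ := one_lt_card.1 h
      rw [mem_filter] at hT hT'
      rcases pair_class (hA T hT.1).1 (hA T' hT'.1).1 (hA T hT.1).2.2 (hA T' hT'.1).2.2 hne
        (hC3 T hT.1) (hC3 T' hT'.1) hT.2.1 hT'.2.1 hx'.2.2 with h2 | h2
      · exact hT.2.2 h2
      · exact hT'.2.2 h2
    have h2 : 𝓐.filter (fun T => x ∈ T) ⊆
        𝓐.filter (fun T => x ∈ T ∧ x ∉ C T) ∪ 𝓐.filter (fun T => x ∈ C T) := by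
      intro T hT
      rw [mem_filter] at hT
      rw [mem_union, mem_filter, mem_filter]
      by_cases h3 : x ∈ C T
      · exact Or.inr ⟨hT.1, h3⟩
      · exact Or.inl ⟨hT.1, hT.2, h3⟩
    have h3 := (card_le_card h2).trans (card_union_le _ _)
    omega
  have hsum1 := sum_le_sum hQx
  have hsw : ∑ x ∈ Q, (2 * (((𝓐.filter (fun T => x ∈ C T)).card : ℕ) : ℤ)) =
      ∑ T ∈ 𝓐, 2 * (((Q.filter (fun x => x ∈ C T)).card : ℕ) : ℤ) := by
    rw [← mul_sum, ← mul_sum]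
    congr 1
    have h1 : ∀ x ∈ Q, (((𝓐.filter (fun T => x ∈ C T)).card : ℕ) : ℤ) =
        ∑ T ∈ 𝓐, if x ∈ C T then (1 : ℤ) else 0 := by
      intro x _
      rw [card_filter]
      push_cast
      rfl
    have h2 : ∀ T ∈ 𝓐, (((Q.filter (fun x => x ∈ C T)).card : ℕ) : ℤ) =
        ∑ x ∈ Q, if x ∈ C T then (1 : ℤ) else 0 := by
      intro T _
      rw [card_filter]
      push_cast
      rfl
    rw [sum_congr rfl h1, sum_congr rfl h2, sum_comm]
  have hT1 : ∀ T ∈ 𝓐, 2 * (((Q.filter (fun x => x ∈ C T)).card : ℕ) : ℤ) ≤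
      -(2 * (((T.filter (fun x => evl S x = 1)).card : ℕ) : ℤ) - (T.card : ℤ)) := by
    intro T hT
    have h1 : (Q.filter (fun x => x ∈ C T)).card + (T.filter (fun x => evl S x = 1)).card ≤
        (C T).card := by
      rw [← card_union_of_disjoint]
      · refine card_le_card (union_subset ?_ (hC1 T hT))
        intro x hx
        exact (mem_filter.1 hx).2
      · rw [disjoint_left]
        intro x hx hx'
        rw [mem_filter] at hx hx'
        have h2 := (mem_filter.1 hx.1).2.2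
        omega
    have h2 := hC2 T hT
    omega
  have hsum2 := sum_le_sum hT1
  rw [sum_neg_distrib] at hsum2
  rw [hsw] at hsum1
  linarith

theorem few_tri (S : Finset Pl) (hn : Even S.card) (hS : ¬ Collinear ℝ (S : Set Pl))
    (𝓐 : Finset (Finset Pl))
    (h𝓐 : 𝓐 ⊆ (connectingLines S).filter (fun T => 4 ≤ T.card ∧ Even T.card))
    (hlen : ∀ T ∈ 𝓐, 𝓐.card ^ 2 + 3 * 𝓐.card ≤ T.card) :
    S.card ≤ ∑ T ∈ (connectingLines S).filter (fun T => Even T.card ∧ T ∉ 𝓐), T.card +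
      ∑ x ∈ S.filter (fun x => 3 ≤ (𝓐.filter (fun T => x ∈ T)).card ∧ 5 ≤ evl S x),
        (2 * (𝓐.filter (fun T => x ∈ T)).card + 1 - evl S x) := by
  have hA : ∀ T ∈ 𝓐, T ∈ connectingLines S ∧ 4 ≤ T.card ∧ Even T.card := by
    intro T hT
    have := h𝓐 hT
    rw [mem_filter] at this
    exact this
  have hsub : ∀ T ∈ connectingLines S, T ⊆ S := fun T hT => (mem_connecting.mp hT).1
  have hsplit : ∀ x, (((connectingLines S).filter (fun T => Even T.card ∧ T ∉ 𝓐)).filter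
      (fun T => x ∈ T)).card + (𝓐.filter (fun T => x ∈ T)).card = evl S x := by
    intro x
    unfold Pool.Agent.Dirac86.Few.evl
    rw [← card_union_of_disjoint]
    · congr 1
      ext T
      simp only [mem_union, mem_filter]
      constructor
      · rintro (⟨⟨h1, h2, h3⟩, h4⟩ | ⟨h1, h2⟩)
        · exact ⟨h1, h2, h4⟩
        · exact ⟨(hA T h1).1, (hA T h1).2.2, h2⟩
      · rintro ⟨h1, h2, h3⟩
        by_cases h4 : T ∈ 𝓐
        · right; exact ⟨h4, h3⟩
        · left; exact ⟨⟨h1, h2, h4⟩, h3⟩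
    · rw [disjoint_left]
      intro T h1 h2
      rw [mem_filter, mem_filter] at h1
      rw [mem_filter] at h2
      exact h1.1.2.2 h2.1
  have hodd : ∀ x ∈ S, ∃ a, evl S x = 2 * a + 1 := by
    intro x hx
    obtain ⟨a, ha⟩ := evl_odd S hn hx
    exact ⟨a, by omega⟩
  -- the sum of the sizes of the remaining even lines
  have hR : ((∑ T ∈ (connectingLines S).filter (fun T => Even T.card ∧ T ∉ 𝓐), T.card : ℕ) : ℤ)
      = ∑ x ∈ S, (((evl S x : ℕ) : ℤ) - (((𝓐.filter (fun T => x ∈ T)).card : ℕ) : ℤ)) := by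
    have h1 := cnt_dbl S ((connectingLines S).filter (fun T => Even T.card ∧ T ∉ 𝓐))
      (fun T hT => hsub T (mem_filter.mp hT).1) (fun _ => 1)
    rw [Nat.cast_sum]
    have h2 : ∀ T ∈ (connectingLines S).filter (fun T => Even T.card ∧ T ∉ 𝓐),
        ((T.card : ℕ) : ℤ) = ∑ x ∈ T, (1 : ℤ) := by
      intro T _
      simp
    rw [sum_congr rfl h2, h1]
    refine sum_congr rfl (fun x _ => ?_)
    have h3 := hsplit x
    rw [← h3]
    push_cast
    ring
  have hw := cnt_dbl S 𝓐 (fun T hT => hsub T (hA T hT).1)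
    (fun x => if ((evl S x : ℕ) : ℤ) = 1 then -1 else 1)
  have hpt : ∑ x ∈ S, ((if (𝓐.filter (fun T => x ∈ T)).card = 0 then
      ((evl S x : ℕ) : ℤ) - 1 else 0) + (((𝓐.filter (fun T => x ∈ T)).card : ℕ) : ℤ) *
      (if ((evl S x : ℕ) : ℤ) = 1 then -1 else 1)) ≤
      ∑ x ∈ S, (((evl S x : ℕ) : ℤ) - (((𝓐.filter (fun T => x ∈ T)).card : ℕ) : ℤ) - 1 +
        (if 2 ≤ (𝓐.filter (fun T => x ∈ T)).card ∧ evl S x = 3 then
          2 * (((𝓐.filter (fun T => x ∈ T)).card : ℕ) : ℤ) - 2 else 0) +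
        ((if 3 ≤ (𝓐.filter (fun T => x ∈ T)).card ∧ 5 ≤ evl S x then
          (2 * (𝓐.filter (fun T => x ∈ T)).card + 1 - evl S x) else 0 : ℕ) : ℤ)) := by
    refine sum_le_sum (fun x hx => ?_)
    refine point3 _ _ (hodd x hx) ?_
    have h3 := hsplit x
    omega
  rw [sum_add_distrib, ← hw, sum_add_distrib, sum_add_distrib, sum_sub_distrib, ← hR] at hpt
  have hone : ∑ x ∈ S, (1 : ℤ) = (S.card : ℤ) := by simp
  rw [hone] at hpt
  have hB : ∑ x ∈ S, ((if 3 ≤ (𝓐.filter (fun T => x ∈ T)).card ∧ 5 ≤ evl S x then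
          (2 * (𝓐.filter (fun T => x ∈ T)).card + 1 - evl S x) else 0 : ℕ) : ℤ) =
      ((∑ x ∈ S.filter (fun x => 3 ≤ (𝓐.filter (fun T => x ∈ T)).card ∧ 5 ≤ evl S x),
        (2 * (𝓐.filter (fun T => x ∈ T)).card + 1 - evl S x) : ℕ) : ℤ) := by
    rw [sum_filter, Nat.cast_sum]
  have hC : ∑ x ∈ S, (if 2 ≤ (𝓐.filter (fun T => x ∈ T)).card ∧ evl S x = 3 then
          2 * (((𝓐.filter (fun T => x ∈ T)).card : ℕ) : ℤ) - 2 else 0) =
      ∑ x ∈ S.filter (fun x => 2 ≤ (𝓐.filter (fun T => x ∈ T)).card ∧ evl S x = 3),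
        (2 * (((𝓐.filter (fun T => x ∈ T)).card : ℕ) : ℤ) - 2) := (sum_filter _ _).symm
  rw [hB, hC] at hpt
  have hws : ∀ T ∈ 𝓐, ∑ x ∈ T, (if ((evl S x : ℕ) : ℤ) = 1 then (-1 : ℤ) else 1) =
      (T.card : ℤ) - 2 * (((T.filter (fun x => evl S x = 1)).card : ℕ) : ℤ) := by
    intro T _
    rw [cnt_w T (fun x => ((evl S x : ℕ) : ℤ) = 1)]
    have h1 : (T.filter (fun x => ((evl S x : ℕ) : ℤ) = 1)) = T.filter (fun x => evl S x = 1) := by
      ext x
      rw [mem_filter, mem_filter, Nat.cast_eq_one]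
    rw [h1]
  rw [sum_congr rfl hws] at hpt
  -- the core inequality
  have hcore : ∑ T ∈ 𝓐, (2 * (((T.filter (fun x => evl S x = 1)).card : ℕ) : ℤ) - (T.card : ℤ)) +
      ∑ x ∈ S.filter (fun x => 2 ≤ (𝓐.filter (fun T => x ∈ T)).card ∧ evl S x = 3),
        (2 * (((𝓐.filter (fun T => x ∈ T)).card : ℕ) : ℤ) - 2) ≤
      ∑ x ∈ S, (if (𝓐.filter (fun T => x ∈ T)).card = 0 then
        ((evl S x : ℕ) : ℤ) - 1 else 0) := by
    by_cases hneg : ∀ T ∈ 𝓐, 2 * (T.filter (fun x => evl S x = 1)).card ≤ T.card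
    · exact core_neg S hS 𝓐 hA hlen hodd hneg
    · push Not at hneg
      obtain ⟨T1, hT1, hT1d⟩ := hneg
      have hpl := pairs_le 𝓐 (fun T hT => (hA T hT).1)
        (S.filter (fun x => 2 ≤ (𝓐.filter (fun T => x ∈ T)).card ∧ evl S x = 3))
        (fun x hx => (mem_filter.1 hx).2.1)
      set Y : ℤ := ∑ x ∈ S, (if (𝓐.filter (fun T => x ∈ T)).card = 0 then
          ((evl S x : ℕ) : ℤ) - 1 else 0) with hYdef
      have hYterm : ∀ x ∈ S, 0 ≤ (if (𝓐.filter (fun T => x ∈ T)).card = 0 then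
        ((evl S x : ℕ) : ℤ) - 1 else 0) := by
        intro x hx
        obtain ⟨a, ha⟩ := hodd x hx
        split_ifs
        · omega
        · exact le_refl 0
      obtain ⟨T0, hT0, hmax⟩ := exists_max_image 𝓐
        (fun T => 2 * (((T.filter (fun x => evl S x = 1)).card : ℕ) : ℤ) - (T.card : ℤ))
        ⟨T1, hT1⟩
      set d : ℤ := 2 * (((T0.filter (fun x => evl S x = 1)).card : ℕ) : ℤ) - (T0.card : ℤ)
        with hd
      have hsum : ∑ T ∈ 𝓐, (2 * (((T.filter (fun x => evl S x = 1)).card : ℕ) : ℤ) -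
          (T.card : ℤ)) ≤ (𝓐.card : ℤ) * d := by
        have h1 := sum_le_card_nsmul 𝓐 (fun T => 2 * (((T.filter
          (fun x => evl S x = 1)).card : ℕ) : ℤ) - (T.card : ℤ)) d hmax
        rw [nsmul_eq_mul] at h1
        exact h1
      obtain ⟨hc0, h40, hev0⟩ := hA T0 hT0
      have hk1 : (1 : ℤ) ≤ (𝓐.card : ℤ) := by
        have := card_pos.mpr ⟨T1, hT1⟩
        omega
      have hd2 : 2 ≤ d := by
        have h1 : 2 * (((T1.filter (fun x => evl S x = 1)).card : ℕ) : ℤ) - (T1.card : ℤ) ≤ d :=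
          hmax T1 hT1
        obtain ⟨c, hc⟩ := hev0
        obtain ⟨c', hc'⟩ := (hA T1 hT1).2.2
        omega
      obtain ⟨V, hV, W, hWV, hVc, hVW, hVe, hWe, hVl⟩ :=
        hull_set2 S hn hS hc0 hev0 (by omega) h40
      have hV0 : ∀ x ∈ V, x ∉ T0 := fun x hx => (mem_sdiff.mp (hV hx)).2
      have hVS : ∀ x ∈ V, x ∈ S := fun x hx => (mem_sdiff.mp (hV hx)).1
      have hcV := cnt_V V T0 𝓐 hT0 hV0 (fun T hT => hVl T (hA T hT).1)
      have hlen0 := hlen T0 hT0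
      have hcard : ((V \ W).card : ℤ) ≤ 2 * d := by
        have h1 := card_sdiff_add_card_eq_card hWV
        omega
      have h1 : d * ((((V.filter (fun x => (𝓐.filter (fun T => x ∈ T)).card = 0)).card : ℕ) : ℤ)
          - 4) ≤ ∑ x ∈ V.filter (fun x => (𝓐.filter (fun T => x ∈ T)).card = 0),
            (((evl S x : ℕ) : ℤ) - 1) := by
        refine sum_V3 V W _ (filter_subset _ _) (fun x => ((evl S x : ℕ) : ℤ) - 1) d
          ?_ ?_ hcard
        · intro b hb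
          have := hVe b hb
          show d - 2 ≤ ((evl S b : ℕ) : ℤ) - 1
          omega
        · intro b hb
          have h2 := hWe b hb
          obtain ⟨a, ha⟩ := hodd b (hVS b (hWV hb))
          obtain ⟨c, hc⟩ := hev0
          show d ≤ ((evl S b : ℕ) : ℤ) - 1
          omega
      have h2 : ∑ x ∈ V.filter (fun x => (𝓐.filter (fun T => x ∈ T)).card = 0),
            (((evl S x : ℕ) : ℤ) - 1) ≤ Y := by
        have h3 : ∑ x ∈ V.filter (fun x => (𝓐.filter (fun T => x ∈ T)).card = 0),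
            (((evl S x : ℕ) : ℤ) - 1) =
            ∑ x ∈ V.filter (fun x => (𝓐.filter (fun T => x ∈ T)).card = 0),
              (if (𝓐.filter (fun T => x ∈ T)).card = 0 then
                ((evl S x : ℕ) : ℤ) - 1 else 0) := by
          refine sum_congr rfl (fun x hx => ?_)
          rw [if_pos (mem_filter.mp hx).2]
        rw [h3]
        refine sum_le_sum_of_subset_of_nonneg ?_ ?_
        · intro x hx
          exact hVS x (mem_filter.mp hx).1
        · intro x hx _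
          exact hYterm x hx
      have hl2 : (𝓐.card : ℤ) * (𝓐.card : ℤ) + 3 * (𝓐.card : ℤ) ≤ (T0.card : ℤ) := by
        have : ((𝓐.card ^ 2 + 3 * 𝓐.card : ℕ) : ℤ) ≤ (T0.card : ℤ) := by exact_mod_cast hlen0
        push_cast at this
        rw [pow_two] at this
        exact this
      have h3 : (𝓐.card : ℤ) * (𝓐.card : ℤ) + (𝓐.card : ℤ) ≤
          (((V.filter (fun x => (𝓐.filter (fun T => x ∈ T)).card = 0)).card : ℕ) : ℤ) - 4 := by
        set kk : ℤ := (𝓐.card : ℤ) * (𝓐.card : ℤ) with hkk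
        omega
      have h4 : d * ((𝓐.card : ℤ) * (𝓐.card : ℤ) + (𝓐.card : ℤ)) ≤ d *
          ((((V.filter (fun x => (𝓐.filter (fun T => x ∈ T)).card = 0)).card : ℕ) : ℤ) - 4) :=
        mul_le_mul_of_nonneg_left h3 (by omega)
      have h5 : 2 * ((𝓐.card : ℤ) * (𝓐.card : ℤ)) ≤ d * ((𝓐.card : ℤ) * (𝓐.card : ℤ)) :=
        mul_le_mul_of_nonneg_right hd2 (by positivity)
      nlinarith
  have hneg : ∑ T ∈ 𝓐, ((T.card : ℤ) - 2 * (((T.filter (fun x => evl S x = 1)).card : ℕ) : ℤ)) =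
      - ∑ T ∈ 𝓐, (2 * (((T.filter (fun x => evl S x = 1)).card : ℕ) : ℤ) - (T.card : ℤ)) := by
    rw [← sum_neg_distrib]
    exact sum_congr rfl (fun T _ => by ring)
  rw [hneg] at hpt
  have hfin : (S.card : ℤ) ≤
      ((∑ T ∈ (connectingLines S).filter (fun T => Even T.card ∧ T ∉ 𝓐), T.card : ℕ) : ℤ) +
      ((∑ x ∈ S.filter (fun x => 3 ≤ (𝓐.filter (fun T => x ∈ T)).card ∧ 5 ≤ evl S x),
        (2 * (𝓐.filter (fun T => x ∈ T)).card + 1 - evl S x) : ℕ) : ℤ) := by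
    linarith
  exact_mod_cast hfin

end Pool.Agent.Dirac86.Tri
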