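import Pool.Agent.Dirac86.Tri.Core

/-!
# The core, with a slope below the supporting slope
-/

set_option autoImplicit false
open Finset Classical

namespace Pool.Agent.Dirac86.Tri

open Pool.Agent.Dirac80 (connectingLines mem_connecting connecting_eq Pl area)
open Pool.Agent.Dirac86.Few (evl)

/-- K4 with `∃ y ∈ B, y < c` added. -/
theorem core2 {ι : Type*} (P : Finset ι) (X Y : ι → ℝ)
    (hinj : ∀ v ∈ P, ∀ w ∈ P, X v = X w → Y v = Y w → v = w) (T B : Finset ℝ) (hBT : B ⊆ T)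
    (hT : Odd T.card) (hbad : ∀ y ∈ B, ∀ d, Even (P.filter (fun w => Y w - y * X w = d)).card)
    (V W : Finset ι) (hVP : V ⊆ P) (f : ι → ℝ) (hf : Set.InjOn f V)
    (hV : ∀ b ∈ V, f b ∈ B ∧ ∃ c, c < f b ∧ (∀ τ ∈ T, ¬ (c ≤ τ ∧ τ < f b)) ∧
        ∀ w ∈ P, w ≠ b → Y w - c * X w < Y b - c * X b)
    (hW : W ⊆ V) (h3 : 3 ≤ W.card) (E : ι → Finset ℝ) (hE1 : ∀ b ∈ W, (E b).card ≤ 1)
    (hE : ∀ b ∈ W, ∀ σ, σ ∈ E b ↔ Even ((P.filter (fun w => Y w - Y b = σ * (X w - X b))).card +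
      if σ ∈ T then 1 else 0)) :
    (∀ y ∈ B, ∀ z ∈ B,
      (T.filter (fun τ => τ < y)).card % 2 = (T.filter (fun τ => τ < z)).card % 2) ∧
    ∃ v ∈ W, (E v).Nonempty ∧ (∃ c, c < f v ∧ (∃ y ∈ B, y < c) ∧
        ∀ w ∈ P, w ≠ v → Y w - c * X w < Y v - c * X v) ∧
      (Even (T.filter (fun τ => τ < f v)).card → Odd (P.filter (fun w => X w < X v)).card) := by
  have hV' : ∀ b ∈ W, f b ∈ B ∧ ∃ c, c < f b ∧ (∀ τ ∈ T, ¬ (c ≤ τ ∧ τ < f b)) ∧
        ∀ w ∈ P, w ≠ b → Y w - c * X w < Y b - c * X b := fun b hb => hV b (hW hb)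
  choose! hfB c hc g hmax using hV'
  have hWP : ∀ b ∈ W, b ∈ P := fun b hb => hVP (hW hb)
  have hin : ∀ b ∈ W, ∀ w ∈ P, X w = X b → Y w = Y b → w = b :=
    fun b hb w hw h h' => hinj w hw b (hWP b hb) h h'
  -- the parity relations at the tight points
  have hp : ∀ b ∈ W, ∀ y ∈ B, Even ((T.filter (fun τ => Btw (c b) y τ)).card +
      ((E b).filter (fun τ => Btw (c b) y τ)).card) := by
    intro b hb y hy
    have hyc : y ≠ c b := by
      intro h
      exact g b hb y (hBT hy) ⟨h.ge, h ▸ hc b hb⟩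
    exact tight_bad P X Y T (E b) (hWP b hb) (hin b hb) (hE b hb) (hmax b hb) hyc (hbad y hy)
  have key : ∀ b1 ∈ W, ∀ b2 ∈ W, f b1 < f b2 →
      (T.filter (fun τ => τ < f b1)).card % 2 = (T.filter (fun τ => τ < f b2)).card % 2 →
      (∀ y ∈ B, (T.filter (fun τ => τ < y)).card % 2 = (T.filter (fun τ => τ < f b1)).card % 2) ∧
      ∃ e ∈ E b2, e < c b2 := by
    intro b1 hb1 b2 hb2 h12 hs
    exact colour hBT (hfB b1 hb1) (hfB b2 hb2) h12 (hc b1 hb1) (hc b2 hb2) (g b1 hb1) (g b2 hb2)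
      (hE1 b1 hb1) (hE1 b2 hb2) (hp b1 hb1) (hp b2 hb2) hs
  -- two tight points of the same parity
  have hpig : ∃ b1 ∈ W, ∃ b2 ∈ W, b1 ≠ b2 ∧
      (T.filter (fun τ => τ < f b1)).card % 2 = (T.filter (fun τ => τ < f b2)).card % 2 := by
    have h4 : (Finset.range 2).card < W.card := by
      rw [card_range]
      omega
    obtain ⟨b1, hb1, b2, hb2, hne, h⟩ := exists_ne_map_eq_of_card_lt_of_maps_to h4
      (f := fun b => (T.filter (fun τ => τ < f b)).card % 2)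
      (fun b _ => by
        have : (T.filter (fun τ => τ < f b)).card % 2 < 2 := Nat.mod_lt _ (by norm_num)
        simpa using this)
    exact ⟨b1, hb1, b2, hb2, hne, h⟩
  have hall : ∀ y ∈ B, ∀ z ∈ B,
      (T.filter (fun τ => τ < y)).card % 2 = (T.filter (fun τ => τ < z)).card % 2 := by
    obtain ⟨b1, hb1, b2, hb2, hne, hs⟩ := hpig
    have hfne : f b1 ≠ f b2 := fun h => hne (hf (hW hb1) (hW hb2) h)
    rcases lt_or_gt_of_ne hfne with h | h
    · have h5 := (key b1 hb1 b2 hb2 h hs).1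
      intro y hy z hz
      rw [h5 y hy, h5 z hz]
    · have h5 := (key b2 hb2 b1 hb1 h hs.symm).1
      intro y hy z hz
      rw [h5 y hy, h5 z hz]
  refine ⟨hall, ?_⟩
  -- the tight point of largest slope
  have hWne : W.Nonempty := card_pos.1 (by omega)
  obtain ⟨v, hv, hvmax⟩ := exists_max_image W f hWne
  obtain ⟨b, hb, hbv⟩ := exists_mem_ne (by omega : 1 < W.card) v
  have hfne : f b ≠ f v := fun h => hbv (hf (hW hb) (hW hv) h)
  have hlt : f b < f v := lt_of_le_of_ne (hvmax b hb) hfne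
  obtain ⟨e, heE, hec⟩ := (key b hb v hv hlt (hall _ (hfB b hb) _ (hfB v hv))).2
  have hbc : f b < c v := by
    by_contra h
    exact g v hv (f b) (hBT (hfB b hb)) ⟨not_lt.1 h, hlt⟩
  refine ⟨v, hv, ⟨e, heE⟩, ⟨c v, hc v hv, ⟨f b, hfB b hb, hbc⟩, hmax v hv⟩, ?_⟩
  intro hev
  have h6 := tight_left P X Y T (E v) (hWP v hv) (hin v hv) (hE v hv) (hmax v hv)
  have h7 : ((E v).filter (fun τ => c v < τ)).card = 0 := by
    rw [card_eq_zero, filter_eq_empty_iff]
    intro τ hτ h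
    rw [card_le_one.1 (hE1 v hv) τ hτ e heE] at h
    exact lt_asymm h hec
  have h8 : T.card = (T.filter (fun τ => c v < τ)).card + (T.filter (fun τ => τ < f v)).card := by
    rw [← card_filter_add_card_filter_not (s := T) (fun τ => c v < τ)]
    congr 2
    apply filter_congr
    intro τ hτ
    constructor
    · intro h
      exact (not_lt.1 h).trans_lt (hc v hv)
    · intro h h'
      exact g v hv τ hτ ⟨h'.le, h⟩
  rw [h7] at h6
  rw [Nat.even_iff] at h6 hev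
  rw [Nat.odd_iff] at hT ⊢
  omega

end Pool.Agent.Dirac86.Tri
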