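import Pool.Agent.Dirac86.Tri.Defs

/-!
# Supporting lines with slopes between two slopes of the line at infinity
-/

set_option autoImplicit false
open Finset Classical

namespace Pool.Agent.Dirac86.Tri

open Pool.Agent.Dirac80 (connectingLines mem_connecting connecting_eq Pl area)
open Pool.Agent.Dirac86.Few (evl)


/-- `v` is the touching point of a supporting line of `S \ A` (in the chart with `A` at infinity)
whose slope lies strictly between two slopes of points of `A` -/
def Dat (S A : Finset Pl) (x : Pl) (P Q : Pl → ℝ) (v : Pl) : Prop :=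
  v ∈ S \ A ∧ ∃ c : ℝ, (∃ a ∈ A.erase x, c < 1 / Q a) ∧ (∃ a ∈ A.erase x, 1 / Q a < c) ∧
    ∀ w ∈ S \ A, w ≠ v → 1 / P w - c * (Q w / P w) < 1 / P v - c * (Q v / P v)

/-- parities on the line through `x` and `v`, and on one side of it -/
def Ver (S A : Finset Pl) (P Q : Pl → ℝ) (v : Pl) : Prop :=
  Even ((S \ A).filter (fun w => Q w / P w = Q v / P v)).card ∧
    Odd ((S \ A).filter (fun w => Q w / P w < Q v / P v)).card

/-- the points of `A` outside of `C` -/
def Phi2 (S A C : Finset Pl) : Prop :=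
  ∀ x ∈ A, x ∉ C → ∀ B ∈ connectingLines S, B ≠ A → x ∈ B → ∀ P Q : Pl → ℝ, Fr S A B P Q →
    ∃ v, Dat S A x P Q v ∧ Ver S A P Q v

/-- the line of the pencil with the coordinate `ξ` -/
def Co (S D : Finset Pl) (P Q : Pl → ℝ) (ξ : ℝ) : Prop := ∀ w ∈ S, Q w = ξ * P w ↔ w ∈ D

end Pool.Agent.Dirac86.Tri
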