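import Pool.Agent.Dirac86.Tri.Geo1
import Pool.Agent.Dirac86.Tri.GeoEv
import Pool.Agent.Dirac86.Tri.GeoBad
import Pool.Agent.Dirac86.Tri.LineTwo
import Pool.Agent.Dirac86.Tri.Heads3
import Pool.Agent.Dirac86.Tri.Core2
import Pool.Agent.Dirac86.Tri.Vert
import Pool.Agent.Dirac86.Tri.Defs2

/-!
# The class of a long line, general form
-/

set_option autoImplicit false
open Finset Classical

namespace Pool.Agent.Dirac86.Tri

open Pool.Agent.Dirac80 (connectingLines mem_connecting connecting_eq Pl area)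
open Pool.Agent.Dirac86.Few (evl)


/-- the data at a point on exactly three even lines -/
theorem key2 (S : Finset Pl) (hS : ¬ Collinear ℝ (S : Set Pl)) {A : Finset Pl}
    (hA : A ∈ connectingLines S) (hE : Even A.card)
    (htight : ∀ V ⊆ S \ A, V.card = (A.filter (fun x => evl S x = 1)).card →
      (∀ T ∈ connectingLines S, (V ∩ T).card ≤ 2) →
      3 ≤ (V.filter (fun b => evl S b = 1)).card)
    {t : Pl → ℝ} (htinj : Set.InjOn t A)
    (ht : ∀ q : Pl → ℝ, Aff q → ∀ x ∈ A, q x = 0 → (∃ a ∈ A, q a ≠ 0) →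
      ∃ m : ℝ, m ≠ 0 ∧ ∀ a ∈ A, q a = m * (t a - t x))
    {x : Pl} (hxA : x ∈ A) (hx1 : evl S x ≠ 1) {B : Finset Pl} (hxB : x ∈ B)
    {p q : Pl → ℝ} (hF : Fr S A B p q) :
    (∀ y ∈ A.filter (fun x => evl S x = 1), ∀ z ∈ A.filter (fun x => evl S x = 1),
      (A.filter (fun u => t u < t y)).card % 2 = (A.filter (fun u => t u < t z)).card % 2) ∧
    ((∀ y ∈ A.filter (fun x => evl S x = 1),
      (A.filter (fun u => t u < t x)).card % 2 ≠ (A.filter (fun u => t u < t y)).card % 2) →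
    ∃ v, Dat S A x p q v ∧ Ver S A p q v) := by
  obtain ⟨hAp, hAq, hp, hq, hinj0, hdet⟩ := hF
  have hF : Fr S A B p q := ⟨hAp, hAq, hp, hq, hinj0, hdet⟩
  have hAS := (mem_connecting.1 hA).1
  have hp0 : ∀ a ∈ A, p a = 0 := fun a ha => (hp a (hAS ha)).2 ha
  have hq0 : ∀ a ∈ A.erase x, q a ≠ 0 := by
    intro a ha h
    rw [mem_erase] at ha
    refine ha.1 (hinj0 a x ?_ ?_)
    · rw [hp0 a ha.2, hp0 x hxA]
    · rw [h, (hq x (hAS hxA)).2 hxB]
  have hpne : ∀ w ∈ S \ A, p w ≠ 0 := by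
    intro w hw h
    rw [mem_sdiff] at hw
    exact hw.2 ((hp w hw.1).1 h)
  have hqx : q x = 0 := (hq x (hAS hxA)).2 hxB
  have hinj : ∀ v ∈ S \ A, ∀ w ∈ S \ A, q v / p v = q w / p w → 1 / p v = 1 / p w → v = w := by
    intro v hv w hw h1 h2
    have h3 : p v = p w := by
      have := congrArg (fun z => 1 / z) h2
      simpa using this
    refine hinj0 v w h3 ?_
    rw [h3] at h1
    exact (div_left_inj' (hpne w hw)).1 h1
  have hiA : Set.InjOn (fun a => 1 / q a) (A.erase x : Set Pl) := by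
    intro a ha b hb h
    have ha' := (mem_erase.1 (mem_coe.1 ha)).2
    have hb' := (mem_erase.1 (mem_coe.1 hb)).2
    refine hinj0 a b (by rw [hp0 a ha', hp0 b hb']) ?_
    have := congrArg (fun z => 1 / z) h
    simpa using this
  obtain ⟨T, hTdef⟩ : ∃ T, T = (A.erase x).image (fun a => 1 / q a) := ⟨_, rfl⟩
  obtain ⟨Bd, hBd⟩ : ∃ Bd, Bd = A.filter (fun x => evl S x = 1) := ⟨_, rfl⟩
  have hTc : T.card + 1 = A.card := by
    rw [hTdef, card_image_of_injOn hiA, card_erase_add_one hxA]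
  have hTodd : Odd T.card := by
    obtain ⟨c, hc⟩ := hE
    rw [Nat.odd_iff]
    omega
  have hBsub : Bd ⊆ A.erase x := by
    intro y hy
    rw [hBd, mem_filter] at hy
    rw [mem_erase]
    refine ⟨?_, hy.1⟩
    rintro rfl
    exact hx1 hy.2
  have hB0 : (Bd.image (fun a => 1 / q a)).card = Bd.card :=
    card_image_of_injOn (hiA.mono (by exact_mod_cast hBsub))
  have hbad : ∀ y ∈ Bd.image (fun a => 1 / q a), ∀ d,
      Even ((S \ A).filter (fun w => 1 / p w - y * (q w / p w) = d)).card := by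
    intro y hy d
    obtain ⟨a, ha, rfl⟩ := mem_image.1 hy
    have h1 := hBd ▸ ha
    rw [mem_filter] at h1
    exact geo_bad hA hE hF hxA hxB (hBsub ha) h1.2 d
  have hPne : (S \ A).Nonempty := by
    rw [nonempty_iff_ne_empty]
    intro h
    rw [sdiff_eq_empty_iff_subset] at h
    exact hS ((mem_connecting.1 hA).2.2.1.subset (by exact_mod_cast h))
  obtain ⟨V, hVS, f, hVc, hf, hV⟩ := heads3 (S \ A) (fun w => q w / p w) (fun w => 1 / p w) hPne
    hinj T (Bd.image (fun a => 1 / q a)) hbad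
  have hV3 := htight V hVS (by rw [hVc, hB0, hBd]) (fun U hU => line_two hF hVS (fun b hb => by
    obtain ⟨-, c, -, -, hc⟩ := hV b hb
    exact ⟨c, hc⟩) hU)
  have hEx : ∀ b : Pl, ∃ E : Finset ℝ, b ∈ S \ A → ((∀ σ, σ ∈ E ↔ Even (((S \ A).filter (fun w =>
        1 / p w - 1 / p b = σ * (q w / p w - q b / p b))).card +
        if σ ∈ (A.erase x).image (fun a => 1 / q a) then 1 else 0)) ∧
      E.card + (if Odd ((S \ A).filter (fun w => q w / p w = q b / p b)).card then 1 else 0) ≤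
        evl S b) := by
    intro b
    by_cases hb : b ∈ S \ A
    · obtain ⟨E, h1, h2⟩ := geo_ev hA hF hxA hxB hb
      exact ⟨E, fun _ => ⟨h1, h2⟩⟩
    · exact ⟨∅, fun h => absurd h hb⟩
  choose E hEE using hEx
  have hW1 : ∀ b ∈ V.filter (fun b => evl S b = 1), b ∈ S \ A ∧ evl S b = 1 := by
    intro b hb
    rw [mem_filter] at hb
    exact ⟨hVS hb.1, hb.2⟩
  obtain ⟨hc1, v, hv, hvE, ⟨c, hc, ⟨y0, hy0, hyc⟩, hcs⟩, hodd⟩ := core2 (S \ A) (fun w => q w / p w)
    (fun w => 1 / p w) hinj T (Bd.image (fun a => 1 / q a))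
    (by rw [hTdef]; exact image_subset_image hBsub) hTodd hbad V
    (V.filter (fun b => evl S b = 1)) hVS f hf hV (filter_subset _ _) hV3 E
    (fun b hb => by
      have h1 := (hEE b (hW1 b hb).1).2
      rw [(hW1 b hb).2] at h1
      omega)
    (fun b hb => by
      rw [hTdef]
      exact (hEE b (hW1 b hb).1).1)
  obtain ⟨m, hm, hmq⟩ := ht q hAq x hxA hqx (by
    obtain ⟨a, ha⟩ : (A.erase x).Nonempty := by
      rw [← card_pos, card_erase_of_mem hxA]
      have := (mem_connecting.1 hA).2.1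
      omega
    exact ⟨a, (mem_erase.1 ha).2, hq0 a ha⟩)
  have hTim : T = (A.erase x).image (fun a => 1 / (m * (t a - t x))) := by
    rw [hTdef]
    refine image_congr ?_
    intro a ha
    have := hmq a (mem_erase.1 (mem_coe.1 ha)).2
    simp only [this]
  have hrk : ∀ y ∈ Bd, (T.filter (fun τ => τ < 1 / q y)).card % 2 =
      ((A.filter (fun a => t a < t x)).card + (A.filter (fun a => t a < t y)).card + 1) % 2 := by
    intro y hy
    have hy2 := mem_erase.1 (hBsub hy)
    have h1 := rank_tr A hE t htinj hxA hy2.2 (Ne.symm hy2.1) hm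
    rw [← h1, hmq y hy2.2, hTim]
    congr 3
    ext a
    rw [@mem_image, @mem_image]
    refine exists_congr (fun b => and_congr_left (fun _ => ?_))
    rw [@mem_erase, @mem_erase]
  rw [← hBd]
  refine ⟨?_, ?_⟩
  · intro y hy z hz
    have h1 := hc1 _ (mem_image_of_mem _ hy) _ (mem_image_of_mem _ hz)
    rw [hrk y hy, hrk z hz] at h1
    omega
  · intro hdiff
    have hvV := (mem_filter.1 hv).1
    have hvS := (hW1 v hv).1
    obtain ⟨hfB, -⟩ := hV v hvV
    obtain ⟨a, ha, haf⟩ := mem_image.1 hfB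
    have h1 := hrk a ha
    have h2 := hdiff a ha
    have h4 : Even (T.filter (fun τ => τ < f v)).card := by
      rw [← haf]
      rw [Nat.even_iff, h1]
      omega
    have h5 := hodd h4
    have h6 : Even ((S \ A).filter (fun w => q w / p w = q v / p v)).card := by
      rw [← Nat.not_odd_iff_even]
      intro h7
      have h8 := (hEE v hvS).2
      rw [if_pos h7, (hW1 v hv).2] at h8
      have := card_pos.2 hvE
      omega
    obtain ⟨a2, ha2, rfl⟩ := mem_image.1 hy0
    exact ⟨v, ⟨hvS, c, ⟨a, hBsub ha, by rw [haf]; exact hc⟩, ⟨a2, hBsub ha2, hyc⟩, hcs⟩, h6, h5⟩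

/-- P3. -/
theorem line_class2 (S : Finset Pl) (hS : ¬ Collinear ℝ (S : Set Pl)) {A : Finset Pl}
    (hA : A ∈ connectingLines S) (hE : Even A.card)
    (hd : 2 * (A.filter (fun x => evl S x = 1)).card ≤ A.card)
    (htight : ∀ V ⊆ S \ A, V.card = (A.filter (fun x => evl S x = 1)).card →
      (∀ T ∈ connectingLines S, (V ∩ T).card ≤ 2) →
      3 ≤ (V.filter (fun b => evl S b = 1)).card) :
    ∃ C ⊆ A, A.filter (fun x => evl S x = 1) ⊆ C ∧ 2 * C.card ≤ A.card ∧ Phi2 S A C := by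
  obtain ⟨t, htinj, ht⟩ := geo_t hA
  by_cases h : ∀ y ∈ A.filter (fun x => evl S x = 1), ∀ z ∈ A.filter (fun x => evl S x = 1),
      (A.filter (fun u => t u < t y)).card % 2 = (A.filter (fun u => t u < t z)).card % 2
  · refine ⟨A.filter (fun a => ∃ y ∈ A.filter (fun x => evl S x = 1),
      (A.filter (fun u => t u < t a)).card % 2 = (A.filter (fun u => t u < t y)).card % 2),
      filter_subset _ _, ?_, ?_, ?_⟩
    · intro y hy
      rw [mem_filter]
      exact ⟨(mem_filter.1 hy).1, y, hy, rfl⟩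
    · refine class_card A _ hE t htinj (filter_subset _ _) ?_
      intro a ha b hb
      obtain ⟨y, hy, h1⟩ := (mem_filter.1 ha).2
      obtain ⟨z, hz, h2⟩ := (mem_filter.1 hb).2
      rw [h1, h2]
      exact h y hy z hz
    · intro x hxA hxC B hB hBA hxB p q hF
      have hx1 : evl S x ≠ 1 := by
        intro h1
        apply hxC
        rw [mem_filter]
        exact ⟨hxA, x, mem_filter.2 ⟨hxA, h1⟩, rfl⟩
      refine (key2 S hS hA hE htight htinj ht hxA hx1 hxB hF).2 ?_
      intro y hy hcon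
      apply hxC
      rw [mem_filter]
      exact ⟨hxA, y, hy, hcon⟩
  · refine ⟨A.filter (fun x => evl S x = 1), filter_subset _ _, Subset.refl _, hd, ?_⟩
    intro x hxA hxC B hB hBA hxB p q hF
    have hx1 : evl S x ≠ 1 := fun h1 => hxC (mem_filter.2 ⟨hxA, h1⟩)
    exact absurd (key2 S hS hA hE htight htinj ht hxA hx1 hxB hF).1 h

end Pool.Agent.Dirac86.Tri
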