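import Pool.Agent.Dirac86.Tri.TripleAdj

/-!
# Three long lines through a point on five even lines
-/

set_option autoImplicit false
open Finset Classical

namespace Pool.Agent.Dirac86.Tri

open Pool.Agent.Dirac80 (connectingLines mem_connecting connecting_eq Pl area)
open Pool.Agent.Dirac86.Few (evl)

/-- the other two even lines -/
private theorem tc_two {S A B D : Finset Pl} (hA : A ∈ connectingLines S)
    (hB : B ∈ connectingLines S) (hD : D ∈ connectingLines S) (eA : Even A.card)
    (eB : Even B.card) (eD : Even D.card) {x : Pl} (xA : x ∈ A) (xB : x ∈ B) (xD : x ∈ D)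
    (hAB : A ≠ B) (hAD : A ≠ D) (hBD : B ≠ D) (h5 : evl S x = 5) :
    ∃ L ∈ connectingLines S, ∃ M ∈ connectingLines S, Even L.card ∧ Even M.card ∧ x ∈ L ∧
      x ∈ M ∧ A ≠ L ∧ A ≠ M ∧ B ≠ L ∧ B ≠ M ∧ D ≠ L ∧ D ≠ M ∧ L ≠ M := by
  have h1 : ((connectingLines S).filter (fun T : Finset Pl => Even T.card ∧ x ∈ T)).card = 5 := h5
  have hsub : ({A, B, D} : Finset (Finset Pl)) ⊆
      (connectingLines S).filter (fun T : Finset Pl => Even T.card ∧ x ∈ T) := by
    intro T hT
    rw [mem_insert, mem_insert, mem_singleton] at hT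
    rw [mem_filter]
    rcases hT with h | h | h
    · rw [h]; exact ⟨hA, eA, xA⟩
    · rw [h]; exact ⟨hB, eB, xB⟩
    · rw [h]; exact ⟨hD, eD, xD⟩
  have h3 : ({A, B, D} : Finset (Finset Pl)).card = 3 := card_eq_three.2 ⟨A, B, D, hAB, hAD, hBD, rfl⟩
  have h4 : ((connectingLines S).filter (fun T : Finset Pl => Even T.card ∧ x ∈ T) \
      ({A, B, D} : Finset (Finset Pl))).card = 2 := by
    rw [card_sdiff_of_subset hsub, h1, h3]
  obtain ⟨L, M, hLM, hE⟩ := card_eq_two.1 h4
  have hL : L ∈ (connectingLines S).filter (fun T : Finset Pl => Even T.card ∧ x ∈ T) \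
      ({A, B, D} : Finset (Finset Pl)) := by
    rw [hE]; exact mem_insert_self _ _
  have hM : M ∈ (connectingLines S).filter (fun T : Finset Pl => Even T.card ∧ x ∈ T) \
      ({A, B, D} : Finset (Finset Pl)) := by
    rw [hE]; exact mem_insert_of_mem (mem_singleton_self _)
  rw [mem_sdiff, mem_filter, mem_insert, mem_insert, mem_singleton, not_or, not_or] at hL hM
  obtain ⟨⟨hL1, hL2, hL3⟩, hL4, hL5, hL6⟩ := hL
  obtain ⟨⟨hM1, hM2, hM3⟩, hM4, hM5, hM6⟩ := hM
  exact ⟨L, hL1, M, hM1, hL2, hM2, hL3, hM3, Ne.symm hL4, Ne.symm hM4, Ne.symm hL5, Ne.symm hM5,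
    Ne.symm hL6, Ne.symm hM6, hLM⟩

/-- the case `0 < z` -/
private theorem tc_pos {S A B D L M C1 C2 C3 : Finset Pl} (hA : A ∈ connectingLines S)
    (hB : B ∈ connectingLines S) (hD : D ∈ connectingLines S) (hL : L ∈ connectingLines S)
    (hM : M ∈ connectingLines S) (eA : Even A.card) (eB : Even B.card) (eD : Even D.card)
    (eL : Even L.card) (eM : Even M.card) {x : Pl} (xA : x ∈ A) (xB : x ∈ B) (xD : x ∈ D)
    (xL : x ∈ L) (xM : x ∈ M) (hAB : A ≠ B) (hAD : A ≠ D) (hAL : A ≠ L) (hAM : A ≠ M)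
    (hBD : B ≠ D) (hBL : B ≠ L) (hBM : B ≠ M) (hDL : D ≠ L) (hDM : D ≠ M) (hLM : L ≠ M)
    (h5 : evl S x = 5) (h1 : Phi2 S A C1) (h2 : Phi2 S B C2) (h3 : Phi2 S D C3)
    (x1 : x ∉ C1) (x2 : x ∉ C2) (x3 : x ∉ C3) {p q : Pl → ℝ} (hF : Fr S A B p q)
    {z a b : ℝ} (cD : Co S D p q z) (cL : Co S L p q a) (cM : Co S M p q b)
    (hz : 0 < z) (ha : a ≠ 0) (hb : b ≠ 0) (hza : a ≠ z) (hzb : b ≠ z) : False := by
  have hp : ∀ w ∈ S, p w = 0 ↔ w ∈ A := hF.2.2.1
  have hq : ∀ w ∈ S, q w = 0 ↔ w ∈ B := hF.2.2.2.1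
  -- the second frame
  have k2 : (a < 0 ∨ z < a) → (b < 0 ∨ z < b) → False := by
    intro ka kb
    have hF2 : Fr S B D (fun w => 0 * p w + 1 * q w) (fun w => (-z) * p w + 1 * q w) := by
      refine Fr_lin hF (a := 0) (b := 1) (c := -z) (d := 1) ?_ ?_ ?_
      · intro h
        exact hz.ne' (by linarith)
      · intro w hw
        rw [← hq w hw, zero_mul, zero_add, one_mul]
      · intro w hw
        rw [← cD w hw]
        constructor
        · intro h
          linarith
        · intro h
          linarith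
    have e1 : ∀ (T : Finset Pl) (t : ℝ), t ≠ 0 → Co S T p q t →
        Co S T (fun w => 0 * p w + 1 * q w) (fun w => (-z) * p w + 1 * q w) (1 - z / t) := by
      intro T t ht hT w hw
      rw [← hT w hw]
      show -z * p w + 1 * q w = (1 - z / t) * (0 * p w + 1 * q w) ↔ q w = t * p w
      constructor
      · intro h
        have h' : z * (q w - t * p w) = 0 := by
          have h'' : -z * p w + q w = q w - z / t * q w := by linarith
          have h3 : z / t * q w = z * p w := by linarith
          have h4 : z / t * t = z := div_mul_cancel₀ z ht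
          calc z * (q w - t * p w) = z / t * t * q w - t * (z * p w) := by rw [h4]; ring
            _ = t * (z / t * q w - z * p w) := by ring
            _ = 0 := by rw [h3, sub_self, mul_zero]
        rcases mul_eq_zero.1 h' with h6 | h6
        · exact absurd h6 hz.ne'
        · linarith
      · intro h
        rw [h]
        have h4 : z / t * t = z := div_mul_cancel₀ z ht
        calc -z * p w + 1 * (t * p w) = (t - z / t * t) * p w := by rw [h4]; ring
          _ = (1 - z / t) * (0 * p w + 1 * (t * p w)) := by ring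
    have cA : Co S A (fun w => 0 * p w + 1 * q w) (fun w => (-z) * p w + 1 * q w) 1 := by
      intro w hw
      rw [← hp w hw]
      show -z * p w + 1 * q w = 1 * (0 * p w + 1 * q w) ↔ p w = 0
      constructor
      · intro h
        have h' : z * p w = 0 := by linarith
        rcases mul_eq_zero.1 h' with h6 | h6
        · exact absurd h6 hz.ne'
        · exact h6
      · intro h
        rw [h]; ring
    have pos : ∀ t : ℝ, (t < 0 ∨ z < t) → 0 < 1 - z / t := by
      intro t ht
      rcases ht with ht | ht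
      · have : z / t < 0 := div_neg_of_pos_of_neg hz ht
        linarith
      · have : z / t < 1 := (div_lt_one (hz.trans ht)).2 ht
        linarith
    exact triple_adj hB hD hA hL hM eB eD eA eL eM xB xD xA xL xM hBD hAB.symm hBL hBM
      hAD.symm hDL hDM hAL hAM hLM h5 h2 h3 h1 x2 x3 x1 hF2 cA (e1 L a ha cL) (e1 M b hb cM)
      one_pos (pos a ka) (pos b kb)
  -- the third frame
  have k3 : a < z → b < z → False := by
    intro ka kb
    have hF3 : Fr S A D (fun w => 1 * p w + 0 * q w) (fun w => z * p w + (-1) * q w) := by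
      refine Fr_lin hF (a := 1) (b := 0) (c := z) (d := -1) ?_ ?_ ?_
      · norm_num
      · intro w hw
        rw [← hp w hw, zero_mul, add_zero, one_mul]
      · intro w hw
        rw [← cD w hw]
        constructor
        · intro h
          linarith
        · intro h
          linarith
    have e1 : ∀ (T : Finset Pl) (t : ℝ), Co S T p q t →
        Co S T (fun w => 1 * p w + 0 * q w) (fun w => z * p w + (-1) * q w) (z - t) := by
      intro T t hT w hw
      rw [← hT w hw]
      show z * p w + -1 * q w = (z - t) * (1 * p w + 0 * q w) ↔ q w = t * p w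
      constructor
      · intro h
        linarith
      · intro h
        rw [h]; ring
    have cB : Co S B (fun w => 1 * p w + 0 * q w) (fun w => z * p w + (-1) * q w) z := by
      intro w hw
      rw [← hq w hw]
      show z * p w + -1 * q w = z * (1 * p w + 0 * q w) ↔ q w = 0
      constructor
      · intro h
        linarith
      · intro h
        rw [h]; ring
    exact triple_adj hA hD hB hL hM eA eD eB eL eM xA xD xB xL xM hAD hAB hAL hAM
      hBD.symm hDL hDM hBL hBM hLM h5 h1 h3 h2 x1 x3 x2 hF3 cB (e1 L a cL) (e1 M b cM)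
      hz (by linarith) (by linarith)
  have k1 : 0 < a → 0 < b → False := fun ka kb =>
    triple_adj hA hB hD hL hM eA eB eD eL eM xA xB xD xL xM hAB hAD hAL hAM
      hBD hBL hBM hDL hDM hLM h5 h1 h2 h3 x1 x2 x3 hF cD cL cM hz ka kb
  rcases lt_or_gt_of_ne ha with na | na
  · rcases lt_or_gt_of_ne hzb with nb | nb
    · exact k3 (na.trans hz) nb
    · exact k2 (Or.inl na) (Or.inr nb)
  · rcases lt_or_gt_of_ne hb with nb | nb
    · rcases lt_or_gt_of_ne hza with nc | nc
      · exact k3 nc (nb.trans hz)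
      · exact k2 (Or.inr nc) (Or.inl nb)
    · exact k1 na nb

/-- P9. -/
theorem triple_class {S A B D C1 C2 C3 : Finset Pl} (hA : A ∈ connectingLines S)
    (hB : B ∈ connectingLines S) (hD : D ∈ connectingLines S) (eA : Even A.card)
    (eB : Even B.card) (eD : Even D.card) {x : Pl} (xA : x ∈ A) (xB : x ∈ B) (xD : x ∈ D)
    (hAB : A ≠ B) (hAD : A ≠ D) (hBD : B ≠ D) (h5 : evl S x = 5) (h1 : Phi2 S A C1)
    (h2 : Phi2 S B C2) (h3 : Phi2 S D C3) : x ∈ C1 ∨ x ∈ C2 ∨ x ∈ C3 := by
  by_contra hcon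
  rw [not_or, not_or] at hcon
  obtain ⟨x1, x2, x3⟩ := hcon
  obtain ⟨L, hL, M, hM, eL, eM, xL, xM, hAL, hAM, hBL, hBM, hDL, hDM, hLM⟩ :=
    tc_two hA hB hD eA eB eD xA xB xD hAB hAD hBD h5
  obtain ⟨p, q, hF⟩ := geo1 hA hB hAB xA xB
  obtain ⟨z, cD⟩ := third hA hD hF xA xB xD hAD.symm
  obtain ⟨a, cL⟩ := third hA hL hF xA xB xL hAL.symm
  obtain ⟨b, cM⟩ := third hA hM hF xA xB xM hAM.symm
  have cB : Co S B p q 0 := by
    intro w hw
    rw [zero_mul]
    exact hF.2.2.2.1 w hw
  have hz : z ≠ 0 := by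
    rintro rfl
    exact hBD (Co_inj hB hD cB cD)
  have ha : a ≠ 0 := by
    rintro rfl
    exact hBL (Co_inj hB hL cB cL)
  have hb : b ≠ 0 := by
    rintro rfl
    exact hBM (Co_inj hB hM cB cM)
  have hza : a ≠ z := by
    rintro rfl
    exact hDL (Co_inj hD hL cD cL)
  have hzb : b ≠ z := by
    rintro rfl
    exact hDM (Co_inj hD hM cD cM)
  have neg : ∀ (T : Finset Pl) (t : ℝ), Co S T p q t → Co S T p (fun w => - q w) (-t) := by
    intro T t hT w hw
    rw [← hT w hw]
    show - q w = -t * p w ↔ q w = t * p w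
    constructor
    · intro h
      linarith
    · intro h
      rw [h]; ring
  rcases lt_or_gt_of_ne hz with hneg | hpos
  · exact tc_pos hA hB hD hL hM eA eB eD eL eM xA xB xD xL xM hAB hAD hAL hAM hBD hBL hBM hDL hDM
      hLM h5 h1 h2 h3 x1 x2 x3 (Fr_neg hF) (neg D z cD) (neg L a cL) (neg M b cM)
      (neg_pos.2 hneg) (neg_ne_zero.2 ha) (neg_ne_zero.2 hb)
      (fun h => hza (neg_injective h)) (fun h => hzb (neg_injective h))
  · exact tc_pos hA hB hD hL hM eA eB eD eL eM xA xB xD xL xM hAB hAD hAL hAM hBD hBL hBM hDL hDM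
      hLM h5 h1 h2 h3 x1 x2 x3 hF cD cL cM hpos ha hb hza hzb

end Pool.Agent.Dirac86.Tri
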