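import Mathlib
import Pool.Agent.Dirac86.Few.Asm
import Pool.Agent.Dirac86.Tri.Count4

/-!
# Dirac bound with long even-rich lines, no four through a point: assembly
-/

set_option autoImplicit false
open Finset Classical

namespace Pool.Agent.Dirac86.Tri

open Pool.Agent.Dirac80 (connectingLines mem_connecting Pl)
open Pool.Agent.Dirac86.Few (sum_even evl)

/-- Dirac's bound for long even-rich lines, up to the points where four of them meet -/
theorem quad_all (S : Finset Pl) (hn : Even S.card) (hS : ¬ Collinear ℝ (S : Set Pl))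
    (𝓐 : Finset (Finset Pl)) (hlen : ∀ T ∈ 𝓐, 𝓐.card ^ 2 + 3 * 𝓐.card ≤ T.card) :
    S.card ≤ 2 * {T : Finset Pl | T ⊆ S ∧ T.card = 2 ∧
            ∀ r ∈ S, r ∈ affineSpan ℝ (T : Set Pl) → r ∈ T}.ncard +
        ∑ T ∈ (connectingLines S).filter (fun T => 4 ≤ T.card ∧ Even T.card ∧ T ∉ 𝓐), T.card +
        ∑ x ∈ S.filter (fun x => 4 ≤ (𝓐.filter (fun T => x ∈ T)).card ∧
            7 ≤ ((connectingLines S).filter (fun T => Even T.card ∧ x ∈ T)).card),
          (2 * (𝓐.filter (fun T => x ∈ T)).card + 1 -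
            ((connectingLines S).filter (fun T => Even T.card ∧ x ∈ T)).card) := by
  obtain ⟨B, hB⟩ : ∃ B, B = 𝓐.filter
    (fun T => T ∈ (connectingLines S).filter (fun T => 4 ≤ T.card ∧ Even T.card)) := ⟨_, rfl⟩
  have hBA : B ⊆ 𝓐 := by rw [hB]; exact filter_subset _ _
  have hB2 : B ⊆ (connectingLines S).filter (fun T => 4 ≤ T.card ∧ Even T.card) :=
    fun T hT => by rw [hB] at hT; exact (mem_filter.mp hT).2
  have hBc := card_le_card hBA
  have h1 := few_quad S hn hS B hB2 (fun T hT => by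
    have h2 := hlen T (hBA hT)
    have h3 : B.card ^ 2 ≤ 𝓐.card ^ 2 := Nat.pow_le_pow_left hBc 2
    omega)
  rw [sum_even S B hB2] at h1
  have h4 : (connectingLines S).filter (fun T => 4 ≤ T.card ∧ Even T.card ∧ T ∉ B) =
      (connectingLines S).filter (fun T => 4 ≤ T.card ∧ Even T.card ∧ T ∉ 𝓐) := by
    refine filter_congr (fun T hT => ?_)
    refine and_congr_right (fun h5 => and_congr_right (fun h6 => not_congr ?_))
    rw [hB, mem_filter]
    exact ⟨fun h => h.1, fun h => ⟨h, mem_filter.mpr ⟨hT, h5, h6⟩⟩⟩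
  rw [h4] at h1
  have hm : ∀ x, (B.filter (fun T => x ∈ T)).card ≤ (𝓐.filter (fun T => x ∈ T)).card :=
    fun x => card_le_card (filter_subset_filter _ hBA)
  have h5 : ∑ x ∈ S.filter (fun x => 4 ≤ (B.filter (fun T => x ∈ T)).card ∧ 7 ≤ evl S x),
        (2 * (B.filter (fun T => x ∈ T)).card + 1 - evl S x) ≤
      ∑ x ∈ S.filter (fun x => 4 ≤ (𝓐.filter (fun T => x ∈ T)).card ∧ 7 ≤ evl S x),
        (2 * (𝓐.filter (fun T => x ∈ T)).card + 1 - evl S x) := by
    refine le_trans (sum_le_sum (fun x _ => ?_)) (sum_le_sum_of_subset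
      (f := fun x => 2 * (𝓐.filter (fun T => x ∈ T)).card + 1 - evl S x) ?_)
    · have := hm x
      omega
    · intro x hx
      rw [mem_filter] at hx ⊢
      exact ⟨hx.1, hx.2.1.trans (hm x), hx.2.2⟩
  refine h1.trans (Nat.add_le_add_left (h5.trans (le_of_eq ?_)) _)
  unfold Pool.Agent.Dirac86.Few.evl
  rfl

end Pool.Agent.Dirac86.Tri
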