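import Pool.Agent.Dirac86.Few.Hull

/-!
# Affine coordinates adapted to two connecting lines
-/

set_option autoImplicit false
open Finset Classical

namespace Pool.Agent.Dirac86.Tri

open Pool.Agent.Dirac80 (connectingLines mem_connecting connecting_eq Pl area)
open Pool.Agent.Dirac86.Few (evl)

/-- affine functions -/
def Aff (q : Pl → ℝ) : Prop := ∃ α β γ : ℝ, ∀ w : Pl, q w = α * w 0 + β * w 1 + γ

/-- affine coordinates `p`, `q` vanishing on the connecting lines `A` and `B` of `S` -/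
def Fr (S A B : Finset Pl) (p q : Pl → ℝ) : Prop :=
  Aff p ∧ Aff q ∧ (∀ w ∈ S, p w = 0 ↔ w ∈ A) ∧ (∀ w ∈ S, q w = 0 ↔ w ∈ B) ∧
  (∀ u v, p u = p v → q u = q v → u = v) ∧
  ∀ u v w, area u v w = 0 ↔
    p u * (q v - q w) - q u * (p v - p w) + (p v * q w - q v * p w) = 0

/-- strictly between `c` and `y` -/
def Btw (c y τ : ℝ) : Prop := (c < τ ∧ τ < y) ∨ (y < τ ∧ τ < c)

/-- the points of `A` outside of `C` on exactly three even lines: see the assembly -/
def Phi (S A C : Finset Pl) : Prop :=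
  ∀ x ∈ A, x ∉ C → evl S x = 3 → ∀ B ∈ connectingLines S, Even B.card → B ≠ A → x ∈ B →
    ∀ L ∈ connectingLines S, Even L.card → x ∈ L → L ≠ A → L ≠ B →
    ∀ p q : Pl → ℝ, Fr S A B p q → ∀ lam : ℝ, 0 < lam → (∀ w ∈ L, q w = lam * p w) →
    ∃ v ∈ S \ A, v ∉ B ∧ ∃ c : ℝ, ∃ a ∈ A.erase x, c < 1 / q a ∧ 0 < q v / p v ∧ q v / p v < lam ∧
      ∀ w ∈ S \ A, w ≠ v → 1 / p w - c * (q w / p w) < 1 / p v - c * (q v / p v)

end Pool.Agent.Dirac86.Tri
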