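import Mathlib

/-!
# Five lines of a pencil: the real numbers
-/

set_option autoImplicit false
open Finset Classical

namespace Pool.Agent.Dirac86.Tri

private theorem fa_four {x s t r : ℝ} (hs : 0 < s) (hst : s < t) (htr : t < r)
    (h : x * (x - s) * (x - t) * (x - r) < 0) : (0 < x ∧ x < s) ∨ (t < x ∧ x < r) := by
  have e : x * (x - s) * (x - t) * (x - r) = (x * (x - s)) * ((x - t) * (x - r)) := by ring
  rw [e] at h
  by_contra hcon
  rw [not_or, not_and, not_and, not_lt, not_lt] at hcon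
  obtain ⟨h1, h2⟩ := hcon
  rcases le_or_gt x 0 with hx | hx
  · have h3 := mul_nonneg_of_nonpos_of_nonpos hx (by linarith : x - s ≤ 0)
    have h4 := mul_nonneg_of_nonpos_of_nonpos (by linarith : x - t ≤ 0) (by linarith : x - r ≤ 0)
    exact absurd h (not_lt.2 (mul_nonneg h3 h4))
  · have h5 := h1 hx
    have h3 := mul_nonneg hx.le (by linarith : 0 ≤ x - s)
    rcases le_or_gt x t with hxt | hxt
    · have h4 := mul_nonneg_of_nonpos_of_nonpos (by linarith : x - t ≤ 0)
        (by linarith : x - r ≤ 0)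
      exact absurd h (not_lt.2 (mul_nonneg h3 h4))
    · have h6 := h2 hxt
      have h4 := mul_nonneg (by linarith : 0 ≤ x - t) (by linarith : 0 ≤ x - r)
      exact absurd h (not_lt.2 (mul_nonneg h3 h4))

private theorem fa_three {x s t r : ℝ} (hst : s < t) (htr : t < r)
    (h : 0 < (x - s) * (x - t) * (x - r)) : (s < x ∧ x < t) ∨ r < x := by
  by_contra hcon
  rw [not_or, not_and, not_lt, not_lt] at hcon
  obtain ⟨h1, h2⟩ := hcon
  have hr : x - r ≤ 0 := by linarith
  have h3 : 0 ≤ (x - s) * (x - t) := by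
    rcases le_or_gt x s with hx | hx
    · exact mul_nonneg_of_nonpos_of_nonpos (by linarith) (by linarith)
    · have := h1 hx
      exact mul_nonneg (by linarith) (by linarith)
  exact absurd h (not_lt.2 (mul_nonpos_of_nonneg_of_nonpos h3 hr))

private theorem fa_neg {x s t : ℝ} (hs : 0 < s) (hst : s < t)
    (h : x * (x - s) * (x - t) < 0) : x < 0 ∨ (s < x ∧ x < t) := by
  by_contra hcon
  rw [not_or, not_and, not_lt, not_lt] at hcon
  obtain ⟨h1, h2⟩ := hcon
  have h3 : 0 ≤ x * (x - s) * (x - t) := by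
    rcases le_or_gt x s with hx | hx
    · exact mul_nonneg_of_nonpos_of_nonpos
        (mul_nonpos_of_nonneg_of_nonpos h1 (by linarith)) (by linarith)
    · have := h2 hx
      exact mul_nonneg (mul_nonneg h1 (by linarith)) (by linarith)
  exact absurd h (not_lt.2 h3)

/-- the positions of the points on the lines `A` and `B` -/
private theorem fa_pos {x y s t r : ℝ} (hs : 0 < s) (hst : s < t) (htr : t < r)
    (h4 : x * (x - s) * (x - t) * (x - r) < 0) (h3 : 0 < (y - s) * (y - t) * (y - r))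
    (h : 0 < x → 0 < y → y ≤ x) : (t < x ∧ x < r) ∧ (s < y ∧ y < t) := by
  have hx := fa_four hs hst htr h4
  have hy := fa_three hst htr h3
  have hx0 : 0 < x := by
    rcases hx with hx | hx
    · exact hx.1
    · linarith [hx.1]
  have hy0 : 0 < y := by
    rcases hy with hy | hy
    · linarith [hy.1]
    · linarith
  have hyx := h hx0 hy0
  have hx2 : t < x ∧ x < r := by
    rcases hx with hx | hx
    · exfalso
      rcases hy with hy | hy
      · linarith [hx.2, hy.1]
      · linarith [hx.2]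
    · exact hx
  refine ⟨hx2, ?_⟩
  rcases hy with hy | hy
  · exact hy
  · exfalso
    linarith [hx2.2]

private theorem five_core {z a b x1 y1 x2 y2 x3 : ℝ} (hz : 0 < z) (ha : 0 < a) (hb : 0 < b)
    (hza : z ≠ a) (hzb : z ≠ b) (hab : a < b)
    (n1 : x1 * (x1 - z) * (x1 - a) * (x1 - b) < 0)
    (m1 : y1 * (y1 - z) * (y1 - a) * (y1 - b) < 0)
    (n2 : 0 < (x2 - z) * (x2 - a) * (x2 - b)) (m2 : 0 < (y2 - z) * (y2 - a) * (y2 - b))
    (n3 : x3 * (x3 - a) * (x3 - b) * ((z - a) * (z - b)) < 0)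
    (r1 : 0 < x1 → 0 < x2 → x2 ≤ x1) (s1 : 0 < y1 → 0 < y2 → y2 ≤ y1)
    (r2 : 0 < y1 - z → 0 < x3 - z → x3 - z ≤ y1 - z)
    (r3 : 0 < z - x1 → 0 < z - x3 → z - x3 ≤ z - x1)
    (r4 : 0 < 1 - z / y2 → 0 < 1 - z / x3 → 1 - z / x3 ≤ 1 - z / y2)
    (r5 : 0 < z / x2 - 1 → 0 < z / x3 - 1 → z / x3 - 1 ≤ z / x2 - 1) : False := by
  rcases lt_or_gt_of_ne hza with hza' | hza'
  · -- `z < a < b`
    obtain ⟨hx1, hx2⟩ := fa_pos hz hza' hab n1 n2 r1
    obtain ⟨hy1, hy2⟩ := fa_pos hz hza' hab m1 m2 s1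
    have hp : 0 < (z - a) * (z - b) := mul_pos_of_neg_of_neg (by linarith) (by linarith)
    have h3 : x3 * (x3 - a) * (x3 - b) < 0 := by
      by_contra hcon
      exact absurd n3 (not_lt.2 (mul_nonneg (not_lt.1 hcon) hp.le))
    have hy2' : 0 < y2 := by linarith [hy2.1]
    have h4 : 0 < 1 - z / y2 := by
      rw [sub_pos, div_lt_one hy2']
      exact hy2.1
    rcases fa_neg ha hab h3 with h | h
    · have h5 : z / x3 < 0 := div_neg_of_pos_of_neg hz h
      have h6 := r4 h4 (by linarith)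
      have h7 : 0 < z / y2 := div_pos hz hy2'
      linarith
    · have hx3 : 0 < x3 := by linarith [h.1]
      have h5 : z / x3 < z / y2 := div_lt_div_of_pos_left hz hy2' (by linarith [h.1, hy2.2])
      have h8 : 0 < 1 - z / x3 := by
        rw [sub_pos, div_lt_one hx3]
        linarith [h.1]
      have h6 := r4 h4 h8
      linarith
  · rcases lt_or_gt_of_ne hzb with hzb' | hzb'
    · -- `a < z < b`
      have n1' : x1 * (x1 - a) * (x1 - z) * (x1 - b) < 0 := by
        have e : x1 * (x1 - a) * (x1 - z) * (x1 - b) =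
          x1 * (x1 - z) * (x1 - a) * (x1 - b) := by ring
        rw [e]; exact n1
      have m1' : y1 * (y1 - a) * (y1 - z) * (y1 - b) < 0 := by
        have e : y1 * (y1 - a) * (y1 - z) * (y1 - b) =
          y1 * (y1 - z) * (y1 - a) * (y1 - b) := by ring
        rw [e]; exact m1
      have n2' : 0 < (x2 - a) * (x2 - z) * (x2 - b) := by
        have e : (x2 - a) * (x2 - z) * (x2 - b) = (x2 - z) * (x2 - a) * (x2 - b) := by ring
        rw [e]; exact n2
      have m2' : 0 < (y2 - a) * (y2 - z) * (y2 - b) := by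
        have e : (y2 - a) * (y2 - z) * (y2 - b) = (y2 - z) * (y2 - a) * (y2 - b) := by ring
        rw [e]; exact m2
      obtain ⟨hx1, hx2⟩ := fa_pos ha hza' hzb' n1' n2' r1
      obtain ⟨hy1, hy2⟩ := fa_pos ha hza' hzb' m1' m2' s1
      have hp : (z - a) * (z - b) < 0 := mul_neg_of_pos_of_neg (by linarith) (by linarith)
      have h3 : 0 < (x3 - 0) * (x3 - a) * (x3 - b) := by
        rw [sub_zero]
        by_contra hcon
        exact absurd n3 (not_lt.2 (mul_nonneg_of_nonpos_of_nonpos (not_lt.1 hcon) hp.le))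
      rcases fa_three ha hab h3 with h | h
      · have hx2' : 0 < x2 := by linarith [hx2.1]
        have h4 : 0 < z / x2 - 1 := by
          rw [sub_pos, one_lt_div hx2']
          exact hx2.2
        have h5 : 0 < z / x3 - 1 := by
          rw [sub_pos, one_lt_div h.1]
          linarith [h.2]
        have h6 := r5 h4 h5
        have h7 : z / x2 < z / x3 := div_lt_div_of_pos_left hz h.1 (by linarith [h.2, hx2.1])
        linarith
      · have h4 := r2 (by linarith [hy1.1]) (by linarith)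
        linarith [hy1.2]
    · -- `a < b < z`
      have n1' : x1 * (x1 - a) * (x1 - b) * (x1 - z) < 0 := by
        have e : x1 * (x1 - a) * (x1 - b) * (x1 - z) =
          x1 * (x1 - z) * (x1 - a) * (x1 - b) := by ring
        rw [e]; exact n1
      have n2' : 0 < (x2 - a) * (x2 - b) * (x2 - z) := by
        have e : (x2 - a) * (x2 - b) * (x2 - z) = (x2 - z) * (x2 - a) * (x2 - b) := by ring
        rw [e]; exact n2
      obtain ⟨hx1, hx2⟩ := fa_pos ha hab hzb' n1' n2' r1
      have hp : 0 < (z - a) * (z - b) := mul_pos (by linarith) (by linarith)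
      have h3 : x3 * (x3 - a) * (x3 - b) < 0 := by
        by_contra hcon
        exact absurd n3 (not_lt.2 (mul_nonneg (not_lt.1 hcon) hp.le))
      rcases fa_neg ha hab h3 with h | h
      · have h4 := r3 (by linarith [hx1.2]) (by linarith)
        linarith [hx1.1]
      · have h4 := r3 (by linarith [hx1.2]) (by linarith [h.2])
        linarith [hx1.1, h.2]

/-- P7. -/
theorem five_alg {z a b x1 y1 x2 y2 x3 : ℝ} (hz : 0 < z) (ha : 0 < a) (hb : 0 < b)
    (hza : z ≠ a) (hzb : z ≠ b) (hab : a ≠ b)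
    (n1 : x1 * (x1 - z) * (x1 - a) * (x1 - b) < 0)
    (m1 : y1 * (y1 - z) * (y1 - a) * (y1 - b) < 0)
    (n2 : 0 < (x2 - z) * (x2 - a) * (x2 - b)) (m2 : 0 < (y2 - z) * (y2 - a) * (y2 - b))
    (n3 : x3 * (x3 - a) * (x3 - b) * ((z - a) * (z - b)) < 0)
    (r1 : 0 < x1 → 0 < x2 → x2 ≤ x1) (s1 : 0 < y1 → 0 < y2 → y2 ≤ y1)
    (r2 : 0 < y1 - z → 0 < x3 - z → x3 - z ≤ y1 - z)
    (r3 : 0 < z - x1 → 0 < z - x3 → z - x3 ≤ z - x1)
    (r4 : 0 < 1 - z / y2 → 0 < 1 - z / x3 → 1 - z / x3 ≤ 1 - z / y2)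
    (r5 : 0 < z / x2 - 1 → 0 < z / x3 - 1 → z / x3 - 1 ≤ z / x2 - 1) : False := by
  rcases lt_or_gt_of_ne hab with h | h
  · exact five_core hz ha hb hza hzb h n1 m1 n2 m2 n3 r1 s1 r2 r3 r4 r5
  · refine five_core hz hb ha hzb hza h ?_ ?_ ?_ ?_ ?_ r1 s1 r2 r3 r4 r5
    · have e : x1 * (x1 - z) * (x1 - b) * (x1 - a) =
        x1 * (x1 - z) * (x1 - a) * (x1 - b) := by ring
      rw [e]; exact n1
    · have e : y1 * (y1 - z) * (y1 - b) * (y1 - a) =
        y1 * (y1 - z) * (y1 - a) * (y1 - b) := by ring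
      rw [e]; exact m1
    · have e : (x2 - z) * (x2 - b) * (x2 - a) = (x2 - z) * (x2 - a) * (x2 - b) := by ring
      rw [e]; exact n2
    · have e : (y2 - z) * (y2 - b) * (y2 - a) = (y2 - z) * (y2 - a) * (y2 - b) := by ring
      rw [e]; exact m2
    · have e : x3 * (x3 - b) * (x3 - a) * ((z - b) * (z - a)) =
        x3 * (x3 - a) * (x3 - b) * ((z - a) * (z - b)) := by ring
      rw [e]; exact n3

end Pool.Agent.Dirac86.Tri
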