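import Pool.Agent.Dirac86.Tri.Defs

/-!
# The coordinates given by two connecting lines
-/

set_option autoImplicit false
open Finset Classical

namespace Pool.Agent.Dirac86.Tri

open Pool.Agent.Dirac80 (connectingLines mem_connecting connecting_eq Pl area)
open Pool.Agent.Dirac86.Few (evl)

private theorem g1_par {d0 d1 e0 e1 u0 u1 : ℝ} (hd : ¬ (d0 = 0 ∧ d1 = 0))
    (h1 : d0 * u1 - d1 * u0 = 0) (h2 : d0 * e1 - d1 * e0 = 0) : e0 * u1 - e1 * u0 = 0 := by
  by_cases h : d0 = 0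
  · have h' : d1 ≠ 0 := fun h' => hd ⟨h, h'⟩
    have h3 : d1 * (e0 * u1 - e1 * u0) = 0 := by
      linear_combination e1 * h1 - u1 * h2
    rcases mul_eq_zero.1 h3 with h4 | h4
    · exact absurd h4 h'
    · exact h4
  · have h3 : d0 * (e0 * u1 - e1 * u0) = 0 := by
      linear_combination e0 * h1 - u0 * h2
    rcases mul_eq_zero.1 h3 with h4 | h4
    · exact absurd h4 h
    · exact h4

private theorem g1_two {S A : Finset Pl} (hA : A ∈ connectingLines S) :
    ∃ a0 ∈ A, ∃ a1 ∈ A, a0 ≠ a1 := by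
  have h := (mem_connecting.1 hA).2.1
  exact Finset.one_lt_card.1 (by omega)

private theorem g1_dir {a0 a1 : Pl} (h : a0 ≠ a1) : ¬ (a1 0 - a0 0 = 0 ∧ a1 1 - a0 1 = 0) := by
  rintro ⟨h1, h2⟩
  exact h (Pool.Agent.Dirac80.pl_ext (by linarith) (by linarith))

private theorem g1_aff (a0 a1 : Pl) : Aff (fun w => area a0 a1 w) := by
  refine ⟨-(a1 1 - a0 1), a1 0 - a0 0, -(a1 0 - a0 0) * a0 1 + (a1 1 - a0 1) * a0 0, ?_⟩
  intro w
  unfold area
  ring

/-- G1. (the determinant of the rows (p, q, 1) is the cross product of `a1 - a0` and `b1 - b0`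
times `area u v w`) -/
theorem geo1 {S A B : Finset Pl} (hA : A ∈ connectingLines S) (hB : B ∈ connectingLines S)
    (hAB : A ≠ B) {x : Pl} (hxA : x ∈ A) (hxB : x ∈ B) : ∃ p q : Pl → ℝ, Fr S A B p q := by
  obtain ⟨a0, ha0, a1, ha1, ha⟩ := g1_two hA
  obtain ⟨b0, hb0, b1, hb1, hb⟩ := g1_two hB
  have eA := connecting_eq hA ha0 ha1 ha
  have eB := connecting_eq hB hb0 hb1 hb
  have mA : ∀ w ∈ S, area a0 a1 w = 0 ↔ w ∈ A := by
    intro w hw
    rw [eA, mem_filter]
    exact ⟨fun h => ⟨hw, h⟩, fun h => h.2⟩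
  have mB : ∀ w ∈ S, area b0 b1 w = 0 ↔ w ∈ B := by
    intro w hw
    rw [eB, mem_filter]
    exact ⟨fun h => ⟨hw, h⟩, fun h => h.2⟩
  have hAS := (mem_connecting.1 hA).1
  have hBS := (mem_connecting.1 hB).1
  have hκ : (a1 0 - a0 0) * (b1 1 - b0 1) - (a1 1 - a0 1) * (b1 0 - b0 0) ≠ 0 := by
    intro h0
    apply hAB
    have hx1 := (mA x (hAS hxA)).2 hxA
    have hx2 := (mB x (hBS hxB)).2 hxB
    have h0' : (b1 0 - b0 0) * (a1 1 - a0 1) - (b1 1 - b0 1) * (a1 0 - a0 0) = 0 := by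
      linear_combination -h0
    ext w
    constructor
    · intro hw
      have hwS := hAS hw
      have h1 := (mA w hwS).2 hw
      rw [← mB w hwS]
      have h2 : (a1 0 - a0 0) * (w 1 - x 1) - (a1 1 - a0 1) * (w 0 - x 0) = 0 := by
        unfold area at h1 hx1
        linear_combination h1 - hx1
      have h3 := g1_par (g1_dir ha) h2 h0
      unfold area at hx2 ⊢
      linear_combination h3 + hx2
    · intro hw
      have hwS := hBS hw
      have h1 := (mB w hwS).2 hw
      rw [← mA w hwS]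
      have h2 : (b1 0 - b0 0) * (w 1 - x 1) - (b1 1 - b0 1) * (w 0 - x 0) = 0 := by
        unfold area at h1 hx2
        linear_combination h1 - hx2
      have h3 := g1_par (g1_dir hb) h2 h0'
      unfold area at hx1 ⊢
      linear_combination h3 + hx1
  refine ⟨fun w => area a0 a1 w, fun w => area b0 b1 w, g1_aff a0 a1, g1_aff b0 b1, mA, mB, ?_, ?_⟩
  · intro u v h1 h2
    have h1' : (a1 0 - a0 0) * (u 1 - v 1) - (a1 1 - a0 1) * (u 0 - v 0) = 0 := by
      have h1'' : area a0 a1 u = area a0 a1 v := h1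
      unfold area at h1''
      linear_combination h1''
    have h2' : (b1 0 - b0 0) * (u 1 - v 1) - (b1 1 - b0 1) * (u 0 - v 0) = 0 := by
      have h2'' : area b0 b1 u = area b0 b1 v := h2
      unfold area at h2''
      linear_combination h2''
    apply Pool.Agent.Dirac80.pl_ext
    · have h3 : ((a1 0 - a0 0) * (b1 1 - b0 1) - (a1 1 - a0 1) * (b1 0 - b0 0)) *
          (u 0 - v 0) = 0 := by
        linear_combination (b1 0 - b0 0) * h1' - (a1 0 - a0 0) * h2'
      rcases mul_eq_zero.1 h3 with h4 | h4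
      · exact absurd h4 hκ
      · linarith
    · have h3 : ((a1 0 - a0 0) * (b1 1 - b0 1) - (a1 1 - a0 1) * (b1 0 - b0 0)) *
          (u 1 - v 1) = 0 := by
        linear_combination (b1 1 - b0 1) * h1' - (a1 1 - a0 1) * h2'
      rcases mul_eq_zero.1 h3 with h4 | h4
      · exact absurd h4 hκ
      · linarith
  · intro u v w
    have key : area a0 a1 u * (area b0 b1 v - area b0 b1 w) -
        area b0 b1 u * (area a0 a1 v - area a0 a1 w) +
        (area a0 a1 v * area b0 b1 w - area b0 b1 v * area a0 a1 w) =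
        ((a1 0 - a0 0) * (b1 1 - b0 1) - (a1 1 - a0 1) * (b1 0 - b0 0)) * area u v w := by
      unfold area
      ring
    show area u v w = 0 ↔ area a0 a1 u * (area b0 b1 v - area b0 b1 w) -
        area b0 b1 u * (area a0 a1 v - area a0 a1 w) +
        (area a0 a1 v * area b0 b1 w - area b0 b1 v * area a0 a1 w) = 0
    rw [key, mul_eq_zero]
    constructor
    · exact fun h => Or.inr h
    · rintro (h | h)
      · exact absurd h hκ
      · exact h

theorem Fr_neg {S A B : Finset Pl} {p q : Pl → ℝ} (h : Fr S A B p q) :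
    Fr S A B p (fun w => - q w) := by
  obtain ⟨h1, ⟨α, β, γ, h2⟩, h3, h4, h5, h6⟩ := h
  refine ⟨h1, ⟨-α, -β, -γ, fun w => ?_⟩, h3, fun w hw => ?_, fun u v hu hv => ?_,
    fun u v w => ?_⟩
  · show - q w = _
    rw [h2]; ring
  · show - q w = 0 ↔ _
    rw [neg_eq_zero]
    exact h4 w hw
  · exact h5 u v hu (neg_injective hv)
  · rw [h6 u v w]
    constructor
    · intro h
      show p u * (- q v - - q w) - - q u * (p v - p w) + (p v * - q w - - q v * p w) = 0
      linear_combination -h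
    · intro h
      have h' : p u * (- q v - - q w) - - q u * (p v - p w) + (p v * - q w - - q v * p w) = 0 := h
      linear_combination -h'

theorem Fr_swap {S A B : Finset Pl} {p q : Pl → ℝ} (h : Fr S A B p q) : Fr S B A q p := by
  obtain ⟨h1, h2, h3, h4, h5, h6⟩ := h
  refine ⟨h2, h1, h4, h3, fun u v hu hv => h5 u v hv hu, fun u v w => ?_⟩
  rw [h6 u v w]
  constructor
  · intro h
    linear_combination -h
  · intro h
    linear_combination -h

/-- G6. -/
theorem geo_t {S A : Finset Pl} (hA : A ∈ connectingLines S) :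
    ∃ t : Pl → ℝ, Set.InjOn t A ∧ ∀ q : Pl → ℝ, Aff q → ∀ x ∈ A, q x = 0 → (∃ a ∈ A, q a ≠ 0) →
      ∃ m : ℝ, m ≠ 0 ∧ ∀ a ∈ A, q a = m * (t a - t x) := by
  obtain ⟨a0, ha0, a1, ha1, ha⟩ := g1_two hA
  have eA := connecting_eq hA ha0 ha1 ha
  have par : ∀ r ∈ A, ∃ s : ℝ, r 0 = a0 0 + s * (a1 0 - a0 0) ∧ r 1 = a0 1 + s * (a1 1 - a0 1) := by
    intro r hr
    rw [eA, mem_filter] at hr
    obtain ⟨s, hs⟩ := Pool.Agent.Dirac80.exists_of_area ha hr.2
    refine ⟨s, ?_, ?_⟩
    · rw [hs]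
      simp only [vadd_eq_add, PiLp.add_apply, PiLp.smul_apply, PiLp.sub_apply, smul_eq_mul]
      ring
    · rw [hs]
      simp only [vadd_eq_add, PiLp.add_apply, PiLp.smul_apply, PiLp.sub_apply, smul_eq_mul]
      ring
  -- the general statement for a coordinate with different values
  have gen : ∀ i : Fin 2, a1 i - a0 i ≠ 0 →
      (∀ r ∈ A, ∃ s : ℝ, r 0 = a0 0 + s * (a1 0 - a0 0) ∧ r 1 = a0 1 + s * (a1 1 - a0 1) ∧
        r i = a0 i + s * (a1 i - a0 i)) →
      Set.InjOn (fun w : Pl => w i) A ∧ ∀ q : Pl → ℝ, Aff q → ∀ x ∈ A, q x = 0 →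
        (∃ a ∈ A, q a ≠ 0) → ∃ m : ℝ, m ≠ 0 ∧ ∀ a ∈ A, q a = m * (a i - x i) := by
    intro i hi hp
    constructor
    · intro r hr r' hr' hrr
      obtain ⟨s, h0, h1, h2⟩ := hp r (Finset.mem_coe.1 hr)
      obtain ⟨s', h0', h1', h2'⟩ := hp r' (Finset.mem_coe.1 hr')
      have hrr' : r i = r' i := hrr
      have hs : s = s' := by
        have h3 : (s - s') * (a1 i - a0 i) = 0 := by
          rw [h2, h2'] at hrr'
          linear_combination hrr'
        rcases mul_eq_zero.1 h3 with h4 | h4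
        · linarith
        · exact absurd h4 hi
      subst hs
      exact Pool.Agent.Dirac80.pl_ext (by rw [h0, h0']) (by rw [h1, h1'])
    · rintro q ⟨α, β, γ, hq⟩ x hx hqx ⟨a, haA, hqa⟩
      obtain ⟨sx, hx0, hx1, hx2⟩ := hp x hx
      set D : ℝ := α * (a1 0 - a0 0) + β * (a1 1 - a0 1) with hD
      have hval : ∀ b ∈ A, ∃ s : ℝ, q b = (s - sx) * D ∧ b i - x i = (s - sx) * (a1 i - a0 i) := by
        intro b hb
        obtain ⟨s, h0, h1, h2⟩ := hp b hb
        refine ⟨s, ?_, ?_⟩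
        · have e1 : q b = q b - q x := by rw [hqx]; ring
          rw [e1, hq b, hq x, h0, h1, hx0, hx1, hD]
          ring
        · rw [h2, hx2]; ring
      have hD0 : D ≠ 0 := by
        intro h0
        obtain ⟨s, h1, _⟩ := hval a haA
        rw [h0, mul_zero] at h1
        exact hqa h1
      refine ⟨D / (a1 i - a0 i), div_ne_zero hD0 hi, ?_⟩
      intro b hb
      obtain ⟨s, h1, h2⟩ := hval b hb
      rw [h1, h2]
      field_simp
  by_cases h0 : a1 0 - a0 0 = 0
  · have h1 : a1 1 - a0 1 ≠ 0 := fun h1 => g1_dir ha ⟨h0, h1⟩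
    obtain ⟨h2, h3⟩ := gen 1 h1 (fun r hr => by
      obtain ⟨s, h4, h5⟩ := par r hr
      exact ⟨s, h4, h5, h5⟩)
    exact ⟨fun w => w 1, h2, h3⟩
  · obtain ⟨h2, h3⟩ := gen 0 h0 (fun r hr => by
      obtain ⟨s, h4, h5⟩ := par r hr
      exact ⟨s, h4, h5, h4⟩)
    exact ⟨fun w => w 0, h2, h3⟩

end Pool.Agent.Dirac86.Tri
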