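import Pool.Agent.Dirac86.Tri.Defs2
import Pool.Agent.Dirac86.Tri.Geo1
import Pool.Agent.Dirac86.Tri.GeoBad
import Pool.Agent.Dirac86.Tri.Vert

/-!
# Change of coordinates
-/

set_option autoImplicit false
open Finset Classical

namespace Pool.Agent.Dirac86.Tri

open Pool.Agent.Dirac80 (connectingLines mem_connecting connecting_eq Pl area)
open Pool.Agent.Dirac86.Few (evl)


private theorem div_lt_div_of_neg_right_80 {a b c : ℝ} (hc : c < 0) (h : b < a) :
    a / c < b / c := by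
  rw [div_lt_div_right_of_neg hc]
  exact h

/-- P4a. -/
theorem Fr_lin {S A B A1 B1 : Finset Pl} {p q : Pl → ℝ} (hF : Fr S A B p q) {a b c d : ℝ}
    (hdet : a * d - b * c ≠ 0) (hA1 : ∀ w ∈ S, a * p w + b * q w = 0 ↔ w ∈ A1)
    (hB1 : ∀ w ∈ S, c * p w + d * q w = 0 ↔ w ∈ B1) :
    Fr S A1 B1 (fun w => a * p w + b * q w) (fun w => c * p w + d * q w) := by
  obtain ⟨⟨p1, p2, p3, hp⟩, ⟨q1, q2, q3, hq⟩, h3, h4, h5, h6⟩ := hF
  refine ⟨⟨a * p1 + b * q1, a * p2 + b * q2, a * p3 + b * q3, fun w => ?_⟩,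
    ⟨c * p1 + d * q1, c * p2 + d * q2, c * p3 + d * q3, fun w => ?_⟩, hA1, hB1, ?_, ?_⟩
  · simp only [hp w, hq w]; ring
  · simp only [hp w, hq w]; ring
  · intro u v hu hv
    simp only at hu hv
    apply h5 u v
    · have h7 : (a * d - b * c) * (p u - p v) = 0 := by linear_combination d * hu - b * hv
      rcases mul_eq_zero.1 h7 with h8 | h8
      · exact absurd h8 hdet
      · linarith
    · have h7 : (a * d - b * c) * (q u - q v) = 0 := by linear_combination a * hv - c * hu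
      rcases mul_eq_zero.1 h7 with h8 | h8
      · exact absurd h8 hdet
      · linarith
  · intro u v w
    simp only
    rw [h6 u v w]
    constructor
    · intro h
      linear_combination (a * d - b * c) * h
    · intro h
      have h7 : (a * d - b * c) *
          (p u * (q v - q w) - q u * (p v - p w) + (p v * q w - q v * p w)) = 0 := by
        linear_combination h
      exact (mul_eq_zero.1 h7).resolve_left hdet

/-- P4b. -/
theorem third {S A B D : Finset Pl} (hA : A ∈ connectingLines S) (hD : D ∈ connectingLines S)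
    {p q : Pl → ℝ} (hF : Fr S A B p q) {x : Pl} (hxA : x ∈ A) (hxB : x ∈ B) (hxD : x ∈ D)
    (hDA : D ≠ A) : ∃ ξ : ℝ, Co S D p q ξ := by
  have hAS : A ⊆ S := (mem_connecting.1 hA).1
  have hDS : D ⊆ S := (mem_connecting.1 hD).1
  have hpx : p x = 0 := (hF.2.2.1 x (hAS hxA)).2 hxA
  have hqx : q x = 0 := (hF.2.2.2.1 x (hAS hxA)).2 hxB
  have h2 : 1 < D.card := by
    have := (mem_connecting.1 hD).2.1
    omega
  obtain ⟨w0, hw0, hw0x⟩ := exists_mem_ne h2 x
  have hp0 : p w0 ≠ 0 := by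
    intro h
    have hw0A : w0 ∈ A := (hF.2.2.1 w0 (hDS hw0)).1 h
    apply hDA
    rw [connecting_eq hD hxD hw0 hw0x.symm, connecting_eq hA hxA hw0A hw0x.symm]
  refine ⟨q w0 / p w0, fun w hw => ?_⟩
  have h3 : w ∈ D ↔ area x w0 w = 0 := by
    constructor
    · intro h
      rw [connecting_eq hD hxD hw0 hw0x.symm, mem_filter] at h
      exact h.2
    · intro h
      rw [connecting_eq hD hxD hw0 hw0x.symm, mem_filter]
      exact ⟨hw, h⟩
  rw [h3, hF.2.2.2.2.2 x w0 w, hpx, hqx]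
  constructor
  · intro h
    rw [h]
    field_simp
    ring
  · intro h
    have h4 : p w0 * q w = q w0 * p w := by linarith
    field_simp
    linarith

/-- P4c. -/
theorem Co_inj {S D D1 : Finset Pl} (hD : D ∈ connectingLines S) (hD1 : D1 ∈ connectingLines S)
    {p q : Pl → ℝ} {ξ : ℝ} (h : Co S D p q ξ) (h1 : Co S D1 p q ξ) : D = D1 := by
  have hDS : D ⊆ S := (mem_connecting.1 hD).1
  have hD1S : D1 ⊆ S := (mem_connecting.1 hD1).1
  ext w
  constructor
  · intro hw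
    exact (h1 w (hDS hw)).1 ((h w (hDS hw)).2 hw)
  · intro hw
    exact (h w (hD1S hw)).1 ((h1 w (hD1S hw)).2 hw)

/-- P4d. -/
theorem Dat_tr {S A : Finset Pl} {x : Pl} {P Q : Pl → ℝ} {v : Pl} (hP : ∀ a ∈ A, P a = 0)
    (hP' : ∀ w ∈ S \ A, P w ≠ 0)
    {α β : ℝ} (hβ : β ≠ 0) (h : Dat S A x P Q v) :
    Dat S A x P (fun w => β * Q w + α * P w) v := by
  obtain ⟨hv, c, ⟨a, ha, hca⟩, ⟨a', ha', hca'⟩, h1⟩ := h
  have hval : ∀ w ∈ S \ A, 1 / P w - c / β * ((β * Q w + α * P w) / P w) =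
      1 / P w - c * (Q w / P w) - c * α / β := by
    intro w hw
    have h2 := hP' w hw
    field_simp
    ring
  have hq : ∀ u ∈ A.erase x, 1 / (β * Q u + α * P u) = 1 / Q u / β := by
    intro u hu
    rw [hP u (mem_of_mem_erase hu), mul_zero, add_zero, div_div, mul_comm]
  have hlast : ∀ w ∈ S \ A, w ≠ v →
      1 / P w - c / β * ((β * Q w + α * P w) / P w) <
        1 / P v - c / β * ((β * Q v + α * P v) / P v) := by
    intro w hw hwv
    rw [hval w hw, hval v hv]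
    have := h1 w hw hwv
    linarith
  rcases lt_or_gt_of_ne hβ with hb | hb
  · refine ⟨hv, c / β, ⟨a', ha', ?_⟩, ⟨a, ha, ?_⟩, hlast⟩
    · rw [hq a' ha']
      exact div_lt_div_of_neg_right_80 hb hca'
    · rw [hq a ha]
      exact div_lt_div_of_neg_right_80 hb hca
  · refine ⟨hv, c / β, ⟨a, ha, ?_⟩, ⟨a', ha', ?_⟩, hlast⟩
    · rw [hq a ha]
      exact div_lt_div_of_pos_right hca hb
    · rw [hq a' ha']
      exact div_lt_div_of_pos_right hca' hb

/-- P4e. -/
theorem Phi_of_Phi2 {S A C : Finset Pl} (hA : A ∈ connectingLines S) (hE : Even A.card)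
    (h : Phi2 S A C) : Phi S A C := by
  intro x hxA hxC h3 B hB hBe hBA hxB L hL hLe hxL hLA hLB p q hF lam hlam hLl
  obtain ⟨v, ⟨hv, c, ⟨a, ha, hca⟩, -, hs⟩, hev, hodd⟩ := h x hxA hxC B hB hBA hxB p q hF
  have hg := geo_vert hA hB hE hBe (Ne.symm hBA) hF hxA hxB hL hLe hxL hLA hLB h3 hLl
  obtain ⟨h4, h5⟩ := vert_par (S \ A) (fun w => q w / p w) hlam hg hev hodd
  refine ⟨v, hv, ?_, c, a, ha, hca, h4, h5, hs⟩
  intro hvB
  have h6 : q v = 0 := (hF.2.2.2.1 v (mem_sdiff.1 hv).1).2 hvB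
  simp only [h6, zero_div, lt_self_iff_false] at h4

end Pool.Agent.Dirac86.Tri
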