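import Pool.Agent.Dirac86.Tri.Defs2
import Pool.Agent.Dirac86.Tri.Vert

/-!
# The order of the touching points for two lines of a pencil
-/

set_option autoImplicit false
open Finset Classical

namespace Pool.Agent.Dirac86.Tri

open Pool.Agent.Dirac80 (connectingLines mem_connecting connecting_eq Pl area)
open Pool.Agent.Dirac86.Few (evl)


/-- P5. -/
theorem rule {S A B : Finset Pl} {P Q : Pl → ℝ} (hF : Fr S A B P Q) (hAS : A ⊆ S) (hBS : B ⊆ S)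
    {x v w : Pl} (hxA : x ∈ A) (hxB : x ∈ B) (h1 : Dat S A x P Q v) (h2 : Dat S B x Q P w)
    (hv : v ∉ B) (hw : w ∉ A) (h3 : 0 < Q v / P v) (h4 : 0 < Q w / P w) :
    Q w / P w ≤ Q v / P v := by
  by_contra hcon
  rw [not_le] at hcon
  obtain ⟨lam, hl1, hl2⟩ := exists_between hcon
  have hlam : 0 < lam := h3.trans hl1
  obtain ⟨hvA, c, ⟨a, ha, hca⟩, -, hvm⟩ := h1
  obtain ⟨hwB, c', ⟨b, hb, hcb⟩, -, hwm⟩ := h2
  have hvw : v ≠ w := by
    rintro rfl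
    exact lt_irrefl _ hcon
  have hPx : P x = 0 := (hF.2.2.1 x (hAS hxA)).2 hxA
  have hQx : Q x = 0 := (hF.2.2.2.1 x (hBS hxB)).2 hxB
  rw [mem_erase] at ha hb
  have hPa : P a = 0 := (hF.2.2.1 a (hAS ha.2)).2 ha.2
  have hQb : Q b = 0 := (hF.2.2.2.1 b (hBS hb.2)).2 hb.2
  have haB : a ∉ B := fun h => ha.1 (hF.2.2.2.2.1 a x (by rw [hPa, hPx])
    (by rw [(hF.2.2.2.1 a (hBS h)).2 h, hQx]))
  have hbA : b ∉ A := fun h => hb.1 (hF.2.2.2.2.1 b x
    (by rw [(hF.2.2.1 b (hAS h)).2 h, hPx]) (by rw [hQb, hQx]))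
  have hvSB : v ∈ S \ B := mem_sdiff.2 ⟨(mem_sdiff.1 hvA).1, hv⟩
  have hwSA : w ∈ S \ A := mem_sdiff.2 ⟨(mem_sdiff.1 hwB).1, hw⟩
  have hinv : P w / Q w = 1 / (Q w / P w) := by rw [one_div_div]
  have h5 : 0 < P w / Q w := by
    rw [hinv]
    positivity
  have h6 : P w / Q w < 1 / lam := by
    rw [hinv]
    exact one_div_lt_one_div_of_lt hlam hl2
  have i1 : 1 / P b < 1 / P v - c * (Q v / P v) := by
    have h := hvm b (mem_sdiff.2 ⟨hBS hb.2, hbA⟩) (fun h => hv (h ▸ hb.2))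
    rw [hQb, zero_div, mul_zero, sub_zero] at h
    exact h
  have i2 := hvm w hwSA hvw.symm
  have i3 : 1 / Q a < 1 / Q w - c' * (P w / Q w) := by
    have h := hwm a (mem_sdiff.2 ⟨hAS ha.2, haB⟩) (fun h => hw (h ▸ ha.2))
    rw [hPa, zero_div, mul_zero, sub_zero] at h
    exact h
  have i4 := hwm v hvSB hvw
  exact pair_alg h3 hl1 h5 h6 hca hcb i1 i2 i3 i4

end Pool.Agent.Dirac86.Tri
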