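import Pool.Agent.Dirac86.Tri.Defs

/-!
# Parities of the slopes at a point
-/

set_option autoImplicit false
open Finset Classical

namespace Pool.Agent.Dirac86.Tri

open Pool.Agent.Dirac80 (connectingLines mem_connecting connecting_eq Pl area)
open Pool.Agent.Dirac86.Few (evl)

private theorem sp_count {ι : Type*} (P : Finset ι) (X Y : ι → ℝ) {v : ι} (hv : v ∈ P)
    (hinj : ∀ w ∈ P, X w = X v → Y w = Y v → w = v) (σ : ℝ) :
    (P.filter (fun w => Y w - Y v = σ * (X w - X v))).card =
      (P.filter (fun w => X w ≠ X v ∧ (Y w - Y v) / (X w - X v) = σ)).card + 1 := by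
  have h1 : P.filter (fun w => Y w - Y v = σ * (X w - X v)) =
      insert v (P.filter (fun w => X w ≠ X v ∧ (Y w - Y v) / (X w - X v) = σ)) := by
    ext w
    rw [mem_filter, mem_insert, mem_filter]
    constructor
    · rintro ⟨hw, he⟩
      by_cases hx : X w = X v
      · left
        refine hinj w hw hx ?_
        rw [hx, sub_self, mul_zero, sub_eq_zero] at he
        exact he
      · right
        refine ⟨hw, hx, ?_⟩
        rw [he, mul_div_assoc, div_self (sub_ne_zero.2 hx), mul_one]
    · rintro (h | ⟨hw, hx, he⟩)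
      · rw [h, sub_self, sub_self, mul_zero]
        exact ⟨hv, rfl⟩
      · refine ⟨hw, ?_⟩
        rw [← he, div_mul_cancel₀ _ (sub_ne_zero.2 hx)]
  rw [h1, card_insert_of_notMem]
  intro h
  exact (mem_filter.1 h).2.1 rfl

private theorem sp_par {ι : Type*} (P : Finset ι) (X Y : ι → ℝ) (T E : Finset ℝ) {v : ι}
    (hv : v ∈ P) (hinj : ∀ w ∈ P, X w = X v → Y w = Y v → w = v)
    (hE : ∀ σ, σ ∈ E ↔ Even ((P.filter (fun w => Y w - Y v = σ * (X w - X v))).card +
      if σ ∈ T then 1 else 0)) (σ : ℝ) :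
    Even ((P.filter (fun w => X w ≠ X v ∧ (Y w - Y v) / (X w - X v) = σ)).card +
      (if σ ∈ T then 1 else 0) + (if σ ∈ E then 1 else 0)) := by
  have h := hE σ
  rw [sp_count P X Y hv hinj σ] at h
  by_cases hσ : σ ∈ E
  · rw [if_pos hσ]
    have h1 := h.1 hσ
    rw [add_right_comm] at h1
    exact h1
  · rw [if_neg hσ, add_zero]
    have h1 := mt h.2 hσ
    rw [add_right_comm, Nat.even_add_one, not_not] at h1
    exact h1

/-- K2a. -/
theorem slope_par {ι : Type*} (P : Finset ι) (X Y : ι → ℝ) (T E : Finset ℝ) {v : ι} (hv : v ∈ P)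
    (hinj : ∀ w ∈ P, X w = X v → Y w = Y v → w = v)
    (hE : ∀ σ, σ ∈ E ↔ Even ((P.filter (fun w => Y w - Y v = σ * (X w - X v))).card +
      if σ ∈ T then 1 else 0)) (J : ℝ → Prop) :
    Even ((P.filter (fun w => X w ≠ X v ∧ J ((Y w - Y v) / (X w - X v)))).card +
      (T.filter J).card + (E.filter J).card) := by
  have key := sp_par P X Y T E hv hinj hE
  have hF : ∀ F : Finset ℝ, (∀ σ ∈ F, J σ) →
      (∀ w ∈ P, X w ≠ X v → J ((Y w - Y v) / (X w - X v)) → (Y w - Y v) / (X w - X v) ∈ F) →
      (∀ σ ∈ T, J σ → σ ∈ F) → (∀ σ ∈ E, J σ → σ ∈ F) →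
      Even ((P.filter (fun w => X w ≠ X v ∧ J ((Y w - Y v) / (X w - X v)))).card +
      (T.filter J).card + (E.filter J).card) := by
    intro F hFJ hFP hFT hFE
    have h1 : (P.filter (fun w => X w ≠ X v ∧ J ((Y w - Y v) / (X w - X v)))).card =
        ∑ σ ∈ F, (P.filter (fun w => X w ≠ X v ∧ (Y w - Y v) / (X w - X v) = σ)).card := by
      rw [card_eq_sum_card_fiberwise (f := fun w => (Y w - Y v) / (X w - X v)) (t := F)]
      · refine sum_congr rfl fun σ hσ => ?_
        have h2 : ((P.filter (fun w => X w ≠ X v ∧ J ((Y w - Y v) / (X w - X v)))).filter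
            (fun w => (Y w - Y v) / (X w - X v) = σ)) =
            P.filter (fun w => X w ≠ X v ∧ (Y w - Y v) / (X w - X v) = σ) := by
          ext w
          rw [mem_filter, mem_filter, mem_filter]
          constructor
          · rintro ⟨⟨h3, h4, -⟩, h5⟩
            exact ⟨h3, h4, h5⟩
          · rintro ⟨h3, h4, h5⟩
            exact ⟨⟨h3, h4, by rw [h5]; exact hFJ σ hσ⟩, h5⟩
        rw [h2]
      · intro w hw
        have hw1 := mem_filter.1 (mem_coe.1 hw)
        exact mem_coe.2 (hFP w hw1.1 hw1.2.1 hw1.2.2)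
    have h2 : ∀ U : Finset ℝ, (∀ σ ∈ U, J σ → σ ∈ F) →
        (U.filter J).card = ∑ σ ∈ F, (if σ ∈ U then 1 else 0) := by
      intro U hU
      rw [← sum_filter, sum_const, smul_eq_mul, mul_one]
      have h3 : U.filter J = F.filter (fun σ => σ ∈ U) := by
        ext σ
        rw [mem_filter, mem_filter]
        exact ⟨fun h => ⟨hU σ h.1 h.2, h.1⟩, fun h => ⟨h.2, hFJ σ h.1⟩⟩
      rw [h3]
    rw [h1, h2 T hFT, h2 E hFE, ← sum_add_distrib, ← sum_add_distrib]
    exact sum_induction _ Even (fun a b ha hb => ha.add hb) Even.zero (fun σ _ => key σ)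
  refine hF (((P.filter (fun w => X w ≠ X v ∧ J ((Y w - Y v) / (X w - X v)))).image
    (fun w => (Y w - Y v) / (X w - X v))) ∪ T.filter J ∪ E.filter J) ?_ ?_ ?_ ?_
  · intro σ hσ
    rw [mem_union, mem_union, mem_image, mem_filter, mem_filter] at hσ
    rcases hσ with (⟨w, hw, he⟩ | h) | h
    · rw [← he]
      exact (mem_filter.1 hw).2.2
    · exact h.2
    · exact h.2
  · intro w hw hx hJ
    exact mem_union_left _ (mem_union_left _
      (mem_image.2 ⟨w, mem_filter.2 ⟨hw, hx, hJ⟩, rfl⟩))
  · intro σ hσ hJ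
    exact mem_union_left _ (mem_union_right _ (mem_filter.2 ⟨hσ, hJ⟩))
  · intro σ hσ hJ
    exact mem_union_right _ (mem_filter.2 ⟨hσ, hJ⟩)

private theorem sp_even_gt {ι : Type*} (P : Finset ι) (Z : ι → ℝ) (d0 : ℝ)
    (hbad : ∀ d, Even (P.filter (fun w => Z w = d)).card) :
    Even (P.filter (fun w => d0 < Z w)).card := by
  rw [card_eq_sum_card_fiberwise (f := Z) (t := (P.filter (fun w => d0 < Z w)).image Z)]
  · refine sum_induction _ Even (fun a b ha hb => ha.add hb) Even.zero (fun d hd => ?_)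
    obtain ⟨w0, hw0, he0⟩ := mem_image.1 hd
    have h1 : (P.filter (fun w => d0 < Z w)).filter (fun w => Z w = d) =
        P.filter (fun w => Z w = d) := by
      ext w
      rw [mem_filter, mem_filter, mem_filter]
      constructor
      · rintro ⟨⟨h3, -⟩, h5⟩
        exact ⟨h3, h5⟩
      · rintro ⟨h3, h5⟩
        refine ⟨⟨h3, ?_⟩, h5⟩
        rw [h5, ← he0]
        exact (mem_filter.1 hw0).2
    rw [h1]
    exact hbad d
  · intro w hw
    exact mem_coe.2 (mem_image_of_mem Z (mem_coe.1 hw))

/-- K2b. -/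
theorem tight_bad {ι : Type*} (P : Finset ι) (X Y : ι → ℝ) (T E : Finset ℝ) {v : ι} (hv : v ∈ P)
    (hinj : ∀ w ∈ P, X w = X v → Y w = Y v → w = v)
    (hE : ∀ σ, σ ∈ E ↔ Even ((P.filter (fun w => Y w - Y v = σ * (X w - X v))).card +
      if σ ∈ T then 1 else 0)) {c : ℝ}
    (hc : ∀ w ∈ P, w ≠ v → Y w - c * X w < Y v - c * X v) {y : ℝ} (hyc : y ≠ c)
    (hbad : ∀ d, Even (P.filter (fun w => Y w - y * X w = d)).card) :
    Even ((T.filter (fun τ => Btw c y τ)).card + (E.filter (fun τ => Btw c y τ)).card) := by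
  have _ := hyc
  have h1 := slope_par P X Y T E hv hinj hE (fun τ => Btw c y τ)
  have h2 : P.filter (fun w => X w ≠ X v ∧ Btw c y ((Y w - Y v) / (X w - X v))) =
      P.filter (fun w => Y v - y * X v < Y w - y * X w) := by
    ext w
    rw [mem_filter, mem_filter]
    constructor
    · rintro ⟨hw, hx, hb⟩
      refine ⟨hw, ?_⟩
      have hwv : w ≠ v := fun h => hx (by rw [h])
      have hcw := hc w hw hwv
      have hs : (Y w - Y v) = (Y w - Y v) / (X w - X v) * (X w - X v) := by
        rw [div_mul_cancel₀ _ (sub_ne_zero.2 hx)]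
      set s : ℝ := (Y w - Y v) / (X w - X v) with hsd
      rcases lt_or_gt_of_ne hx with h | h
      · -- X w < X v, so c < s
        have hcs : c < s := by
          by_contra hle
          have hle' : s ≤ c := not_lt.1 hle
          nlinarith [mul_nonneg (sub_nonneg.2 hle') (sub_nonneg.2 h.le)]
        rcases hb with hb | hb
        · nlinarith [mul_pos (sub_pos.2 hb.2) (sub_pos.2 h)]
        · exact absurd hb.2 (not_lt.2 hcs.le)
      · have hcs : s < c := by
          by_contra hle
          have hle' : c ≤ s := not_lt.1 hle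
          nlinarith [mul_nonneg (sub_nonneg.2 hle') (sub_nonneg.2 h.le)]
        rcases hb with hb | hb
        · exact absurd hb.1 (not_lt.2 hcs.le)
        · nlinarith [mul_pos (sub_pos.2 hb.1) (sub_pos.2 h)]
    · rintro ⟨hw, hy⟩
      have hwv : w ≠ v := by
        intro h
        rw [h] at hy
        exact lt_irrefl _ hy
      have hcw := hc w hw hwv
      have hx : X w ≠ X v := by
        intro h
        rw [h] at hy hcw
        linarith
      refine ⟨hw, hx, ?_⟩
      rcases lt_or_gt_of_ne hx with h | h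
      · left
        constructor
        · rw [lt_div_iff_of_neg (sub_neg.2 h)]
          linarith
        · rw [div_lt_iff_of_neg (sub_neg.2 h)]
          linarith
      · right
        constructor
        · rw [lt_div_iff₀ (sub_pos.2 h)]
          linarith
        · rw [div_lt_iff₀ (sub_pos.2 h)]
          linarith
  rw [h2, add_assoc] at h1
  have h3 := sp_even_gt P (fun w => Y w - y * X w) (Y v - y * X v) hbad
  exact (Nat.even_add.1 h1).1 h3

/-- K2c. -/
theorem tight_left {ι : Type*} (P : Finset ι) (X Y : ι → ℝ) (T E : Finset ℝ) {v : ι} (hv : v ∈ P)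
    (hinj : ∀ w ∈ P, X w = X v → Y w = Y v → w = v)
    (hE : ∀ σ, σ ∈ E ↔ Even ((P.filter (fun w => Y w - Y v = σ * (X w - X v))).card +
      if σ ∈ T then 1 else 0)) {c : ℝ}
    (hc : ∀ w ∈ P, w ≠ v → Y w - c * X w < Y v - c * X v) :
    Even ((P.filter (fun w => X w < X v)).card + (T.filter (fun τ => c < τ)).card +
      (E.filter (fun τ => c < τ)).card) := by
  have h1 := slope_par P X Y T E hv hinj hE (fun τ => c < τ)
  have h2 : P.filter (fun w => X w ≠ X v ∧ c < (Y w - Y v) / (X w - X v)) =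
      P.filter (fun w => X w < X v) := by
    ext w
    rw [mem_filter, mem_filter]
    constructor
    · rintro ⟨hw, hx, hb⟩
      refine ⟨hw, ?_⟩
      by_contra hle
      have h : X v < X w := lt_of_le_of_ne (not_lt.1 hle) (Ne.symm hx)
      rw [lt_div_iff₀ (sub_pos.2 h)] at hb
      have hcw := hc w hw (fun h' => hx (by rw [h']))
      linarith
    · rintro ⟨hw, h⟩
      refine ⟨hw, h.ne, ?_⟩
      rw [lt_div_iff_of_neg (sub_neg.2 h)]
      have hcw := hc w hw (fun h' => h.ne (by rw [h']))
      linarith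
  rw [h2] at h1
  exact h1

end Pool.Agent.Dirac86.Tri
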