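import Pool.Agent.Dirac86.Tri.Defs2

/-!
# The vertical parity for five even lines
-/

set_option autoImplicit false
open Finset Classical

namespace Pool.Agent.Dirac86.Tri

open Pool.Agent.Dirac80 (connectingLines mem_connecting connecting_eq Pl area)
open Pool.Agent.Dirac86.Few (evl)

open Pool.Agent.Dirac86.Few.Hu (ln mem_ln ln_mem area_left area_right)

/-- a line of the pencil and its fibre -/
private theorem v5_line {S A B D : Finset Pl} (hA : A ∈ connectingLines S)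
    (hD : D ∈ connectingLines S) {x : Pl} (xA : x ∈ A) (xD : x ∈ D) (hAD : A ≠ D)
    {P Q : Pl → ℝ} (hF : Fr S A B P Q) {ξ : ℝ} (c : Co S D P Q ξ) :
    (S \ A).filter (fun w => Q w / P w = ξ) = D.erase x := by
  have hDS : D ⊆ S := (mem_connecting.1 hD).1
  ext w
  rw [mem_filter, mem_erase]
  constructor
  · rintro ⟨hw, hwξ⟩
    have hw' := mem_sdiff.1 hw
    have hP : P w ≠ 0 := fun h => hw'.2 ((hF.2.2.1 w hw'.1).1 h)
    refine ⟨fun h => hw'.2 (h ▸ xA), (c w hw'.1).1 ?_⟩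
    rw [← hwξ, div_mul_cancel₀ _ hP]
  · rintro ⟨hwx, hwD⟩
    have hwA : w ∉ A := by
      intro hwA
      apply hAD
      rw [connecting_eq hA xA hwA hwx.symm, connecting_eq hD xD hwD hwx.symm]
    have hP : P w ≠ 0 := fun h => hwA ((hF.2.2.1 w (hDS hwD)).1 h)
    refine ⟨mem_sdiff.2 ⟨hDS hwD, hwA⟩, ?_⟩
    rw [(c w (hDS hwD)).2 hwD, mul_div_assoc, div_self hP, mul_one]

private theorem v5_odd {S A B D : Finset Pl} (hA : A ∈ connectingLines S)
    (hD : D ∈ connectingLines S) (eD : Even D.card) {x : Pl} (xA : x ∈ A) (xD : x ∈ D)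
    (hAD : A ≠ D) {P Q : Pl → ℝ} (hF : Fr S A B P Q) {ξ : ℝ} (c : Co S D P Q ξ) :
    Odd ((S \ A).filter (fun w => Q w / P w = ξ)).card := by
  rw [v5_line hA hD xA xD hAD hF c, card_erase_of_mem xD]
  have hpos : 0 < D.card := card_pos.2 ⟨x, xD⟩
  rw [Nat.even_iff] at eD
  rw [Nat.odd_iff]
  omega

private theorem v5_ne {S D D' : Finset Pl} (hD : D ∈ connectingLines S)
    (hD' : D' ∈ connectingLines S) (h : D ≠ D') {P Q : Pl → ℝ} {ξ ξ' : ℝ}
    (c : Co S D P Q ξ) (c' : Co S D' P Q ξ') : ξ ≠ ξ' := by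
  intro he
  apply h
  ext w
  constructor
  · intro hw
    have hS := (mem_connecting.1 hD).1 hw
    have h1 := (c w hS).2 hw
    rw [he] at h1
    exact (c' w hS).1 h1
  · intro hw
    have hS := (mem_connecting.1 hD').1 hw
    have h1 := (c' w hS).2 hw
    rw [← he] at h1
    exact (c w hS).1 h1

private theorem v5_par {ι : Type*} (F : Finset ι) (φ : ι → ℝ) (Z : Finset ℝ)
    (hZ : ∀ ξ, Odd (F.filter (fun w => φ w = ξ)).card ↔ ξ ∈ Z) {t : ℝ}
    (h : Odd (F.filter (fun w => φ w < t)).card) : Odd (Z.filter (fun z => z < t)).card := by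
  rw [card_eq_sum_card_image φ, odd_sum_iff_odd_card_odd] at h
  have h1 : ((F.filter (fun w => φ w < t)).image φ).filter
      (fun b => Odd ((F.filter (fun w => φ w < t)).filter (fun a => φ a = b)).card) =
      Z.filter (fun z => z < t) := by
    have hfib : ∀ b, b < t → (F.filter (fun w => φ w < t)).filter (fun a => φ a = b) =
        F.filter (fun w => φ w = b) := by
      intro b hb
      rw [filter_filter]
      apply filter_congr
      intro w _
      constructor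
      · intro h3
        exact h3.2
      · intro h3
        exact ⟨by rw [h3]; exact hb, h3⟩
    ext b
    rw [mem_filter, mem_filter, mem_image]
    constructor
    · rintro ⟨⟨w, hw, rfl⟩, h2⟩
      rw [mem_filter] at hw
      rw [hfib _ hw.2, hZ] at h2
      exact ⟨h2, hw.2⟩
    · rintro ⟨hb, hbt⟩
      have h2 := (hZ b).2 hb
      obtain ⟨w, hw⟩ := card_pos.1 h2.pos
      rw [mem_filter] at hw
      refine ⟨⟨w, mem_filter.2 ⟨hw.1, by rw [hw.2]; exact hbt⟩, hw.2⟩, ?_⟩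
      rw [hfib b hbt]
      exact h2
  rw [h1] at h
  exact h

private theorem v5_two {a b : ℝ} (ha : a ≠ 0) (hb : b ≠ 0) :
    0 < a * b ↔ (0 < a ↔ 0 < b) := by
  rcases lt_or_gt_of_ne ha with h1 | h1 <;> rcases lt_or_gt_of_ne hb with h2 | h2
  · exact ⟨fun _ => ⟨fun h => absurd h (lt_asymm h1), fun h => absurd h (lt_asymm h2)⟩,
      fun _ => mul_pos_of_neg_of_neg h1 h2⟩
  · exact ⟨fun h => absurd h (lt_asymm (mul_neg_of_neg_of_pos h1 h2)),
      fun h => absurd (h.2 h2) (lt_asymm h1)⟩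
  · exact ⟨fun h => absurd h (lt_asymm (mul_neg_of_pos_of_neg h1 h2)),
      fun h => absurd (h.1 h1) (lt_asymm h2)⟩
  · exact ⟨fun _ => ⟨fun _ => h2, fun _ => h1⟩, fun _ => mul_pos h1 h2⟩

private theorem v5_sign {a b c d : ℝ} (ha : a ≠ 0) (hb : b ≠ 0) (hc : c ≠ 0) (hd : d ≠ 0)
    (h : Odd ((if 0 < a then 1 else 0) + (if 0 < b then 1 else 0) + (if 0 < c then 1 else 0) +
      (if 0 < d then 1 else 0))) : a * b * c * d < 0 := by
  by_contra hcon
  have hne : a * b * (c * d) ≠ 0 := mul_ne_zero (mul_ne_zero ha hb) (mul_ne_zero hc hd)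
  have h0 : 0 < a * b * (c * d) := by
    refine lt_of_le_of_ne ?_ hne.symm
    rw [← mul_assoc]
    exact not_lt.1 hcon
  have hp := v5_two ha hb
  have hq := v5_two hc hd
  have hpq := (v5_two (mul_ne_zero ha hb) (mul_ne_zero hc hd)).1 h0
  rw [hp, hq] at hpq
  rw [Nat.odd_iff] at h
  split_ifs at h with hA hB hC hD hD hC hD hD hB hC hD hD hC hD hD <;> first | omega | tauto

/-- P6. -/
theorem vert5 {S A B D1 D2 D3 : Finset Pl} (hA : A ∈ connectingLines S)
    (hB : B ∈ connectingLines S) (hD1 : D1 ∈ connectingLines S) (hD2 : D2 ∈ connectingLines S)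
    (hD3 : D3 ∈ connectingLines S) (eA : Even A.card) (eB : Even B.card) (e1 : Even D1.card)
    (e2 : Even D2.card) (e3 : Even D3.card) {x : Pl} (xA : x ∈ A) (xB : x ∈ B) (x1 : x ∈ D1)
    (x2 : x ∈ D2) (x3 : x ∈ D3) (hAB : A ≠ B) (hA1 : A ≠ D1) (hA2 : A ≠ D2) (hA3 : A ≠ D3)
    (hB1 : B ≠ D1) (hB2 : B ≠ D2) (hB3 : B ≠ D3) (h12 : D1 ≠ D2) (h13 : D1 ≠ D3)
    (h23 : D2 ≠ D3) (h5 : evl S x = 5) {P Q : Pl → ℝ} (hF : Fr S A B P Q) {ξ1 ξ2 ξ3 : ℝ}
    (c1 : Co S D1 P Q ξ1) (c2 : Co S D2 P Q ξ2) (c3 : Co S D3 P Q ξ3) {v : Pl}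
    (hv : v ∈ S \ A) (h : Ver S A P Q v) :
    Q v / P v * (Q v / P v - ξ1) * (Q v / P v - ξ2) * (Q v / P v - ξ3) < 0 := by
  have hAS : A ⊆ S := (mem_connecting.1 hA).1
  have hPx : P x = 0 := (hF.2.2.1 x (hAS xA)).2 xA
  have hQx : Q x = 0 := (hF.2.2.2.1 x (hAS xA)).2 xB
  have cB : Co S B P Q 0 := by
    intro w hw
    rw [zero_mul]
    exact hF.2.2.2.1 w hw
  have n01 := v5_ne hB hD1 hB1 cB c1
  have n02 := v5_ne hB hD2 hB2 cB c2
  have n03 := v5_ne hB hD3 hB3 cB c3
  have n12 := v5_ne hD1 hD2 h12 c1 c2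
  have n13 := v5_ne hD1 hD3 h13 c1 c3
  have n23 := v5_ne hD2 hD3 h23 c2 c3
  -- the even lines through `x`
  have heven : ∀ T ∈ connectingLines S, Even T.card → x ∈ T →
      T = A ∨ T = B ∨ T = D1 ∨ T = D2 ∨ T = D3 := by
    intro T hT hTe hxT
    have h4 : ({A, B, D1, D2, D3} : Finset (Finset Pl)) ⊆
        (connectingLines S).filter (fun T => Even T.card ∧ x ∈ T) := by
      intro T' hT'
      simp only [mem_insert, mem_singleton] at hT'
      rcases hT' with rfl | rfl | rfl | rfl | rfl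
      · exact mem_filter.2 ⟨hA, eA, xA⟩
      · exact mem_filter.2 ⟨hB, eB, xB⟩
      · exact mem_filter.2 ⟨hD1, e1, x1⟩
      · exact mem_filter.2 ⟨hD2, e2, x2⟩
      · exact mem_filter.2 ⟨hD3, e3, x3⟩
    have h6 : ({A, B, D1, D2, D3} : Finset (Finset Pl)).card = 5 := by
      rw [card_insert_of_notMem, card_insert_of_notMem, card_insert_of_notMem, card_pair h23]
      · simp only [mem_insert, mem_singleton, not_or]
        exact ⟨h12, h13⟩
      · simp only [mem_insert, mem_singleton, not_or]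
        exact ⟨hB1, hB2, hB3⟩
      · simp only [mem_insert, mem_singleton, not_or]
        exact ⟨hAB, hA1, hA2, hA3⟩
    have h7 : ((connectingLines S).filter (fun T => Even T.card ∧ x ∈ T)).card = 5 := by
      rw [← h5]
      unfold evl
      rfl
    have h8 := eq_of_subset_of_card_le h4 (by rw [h6, h7])
    have h9 : T ∈ (connectingLines S).filter (fun T => Even T.card ∧ x ∈ T) :=
      mem_filter.2 ⟨hT, hTe, hxT⟩
    rw [← h8] at h9
    simp only [mem_insert, mem_singleton] at h9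
    exact h9
  -- the odd fibres
  have hpar : ∀ ξ, Odd ((S \ A).filter (fun w => Q w / P w = ξ)).card ↔
      ξ ∈ ({0, ξ1, ξ2, ξ3} : Finset ℝ) := by
    intro ξ
    simp only [mem_insert, mem_singleton]
    constructor
    · intro ho
      obtain ⟨w0, hw0⟩ := card_pos.1 ho.pos
      rw [mem_filter] at hw0
      obtain ⟨hw0F, hw0r⟩ := hw0
      have hw0' := mem_sdiff.1 hw0F
      have hP0 : P w0 ≠ 0 := fun h1 => hw0'.2 ((hF.2.2.1 w0 hw0'.1).1 h1)
      have hxw0 : x ≠ w0 := fun h1 => hw0'.2 (h1 ▸ xA)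
      have hT := ln_mem (hAS xA) hw0'.1 hxw0
      have hxT : x ∈ ln S x w0 := mem_ln.2 ⟨hAS xA, area_left _ _⟩
      have hw0T : w0 ∈ ln S x w0 := mem_ln.2 ⟨hw0'.1, area_right _ _⟩
      have hAT : A ≠ ln S x w0 := fun h1 => hw0'.2 (h1 ▸ hw0T)
      have cT : Co S (ln S x w0) P Q ξ := by
        intro w hw
        rw [mem_ln, hF.2.2.2.2.2 x w0 w, hPx, hQx, ← hw0r]
        constructor
        · intro h1
          refine ⟨hw, ?_⟩
          rw [h1]
          field_simp
          ring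
        · rintro ⟨-, h1⟩
          rw [div_mul_eq_mul_div, eq_div_iff hP0]
          linarith
      have hTe : Even (ln S x w0).card := by
        rw [v5_line hA hT xA hxT hAT hF cT, card_erase_of_mem hxT] at ho
        have hpos : 0 < (ln S x w0).card := card_pos.2 ⟨x, hxT⟩
        rw [Nat.odd_iff] at ho
        rw [Nat.even_iff]
        omega
      have hval : ∀ D : Finset Pl, ∀ ξ' : ℝ, Co S D P Q ξ' → w0 ∈ D → ξ = ξ' := by
        intro D ξ' cD hwD
        rw [← hw0r, (cD w0 hw0'.1).2 hwD, mul_div_assoc, div_self hP0, mul_one]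
      rcases heven _ hT hTe hxT with h1 | h1 | h1 | h1 | h1
      · exact absurd h1.symm hAT
      · exact Or.inl (hval _ _ cB (h1 ▸ hw0T))
      · exact Or.inr (Or.inl (hval _ _ c1 (h1 ▸ hw0T)))
      · exact Or.inr (Or.inr (Or.inl (hval _ _ c2 (h1 ▸ hw0T))))
      · exact Or.inr (Or.inr (Or.inr (hval _ _ c3 (h1 ▸ hw0T))))
    · rintro (rfl | rfl | rfl | rfl)
      · exact v5_odd hA hB eB xA xB hAB hF cB
      · exact v5_odd hA hD1 e1 xA x1 hA1 hF c1
      · exact v5_odd hA hD2 e2 xA x2 hA2 hF c2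
      · exact v5_odd hA hD3 e3 xA x3 hA3 hF c3
  have hvZ : Q v / P v ∉ ({0, ξ1, ξ2, ξ3} : Finset ℝ) := by
    rw [← hpar, Nat.not_odd_iff_even]
    exact h.1
  simp only [mem_insert, mem_singleton, not_or] at hvZ
  have hodd := v5_par (S \ A) (fun w => Q w / P w) {0, ξ1, ξ2, ξ3} hpar h.2
  have hcard : (({0, ξ1, ξ2, ξ3} : Finset ℝ).filter (fun z => z < Q v / P v)).card =
      (if 0 < Q v / P v then 1 else 0) + (if 0 < Q v / P v - ξ1 then 1 else 0) +
      (if 0 < Q v / P v - ξ2 then 1 else 0) + (if 0 < Q v / P v - ξ3 then 1 else 0) := by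
    rw [card_filter, sum_insert, sum_insert, sum_insert, sum_singleton]
    · simp only [sub_pos]
      ring
    · rw [mem_singleton]
      exact n23
    · simp only [mem_insert, mem_singleton, not_or]
      exact ⟨n12, n13⟩
    · simp only [mem_insert, mem_singleton, not_or]
      exact ⟨n01, n02, n03⟩
  rw [hcard] at hodd
  exact v5_sign hvZ.1 (sub_ne_zero.2 hvZ.2.1) (sub_ne_zero.2 hvZ.2.2.1)
    (sub_ne_zero.2 hvZ.2.2.2) hodd

end Pool.Agent.Dirac86.Tri
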