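import Pool.Agent.Dirac86.Tri.Frames
import Pool.Agent.Dirac86.Tri.Rule
import Pool.Agent.Dirac86.Tri.Vert5
import Pool.Agent.Dirac86.Tri.FiveAlg

/-!
# Three long lines through a point on five even lines, two of them adjacent
-/

set_option autoImplicit false
open Finset Classical

namespace Pool.Agent.Dirac86.Tri

open Pool.Agent.Dirac80 (connectingLines mem_connecting connecting_eq Pl area)
open Pool.Agent.Dirac86.Few (evl)

namespace TrA

theorem Fr_lin' {S A B A1 B1 : Finset Pl} {p q : Pl → ℝ} (hF : Fr S A B p q) {P Q : Pl → ℝ}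
    (a b c d : ℝ) (hdet : a * d - b * c ≠ 0) (hP : ∀ w, P w = a * p w + b * q w)
    (hQ : ∀ w, Q w = c * p w + d * q w) (hA1 : ∀ w ∈ S, P w = 0 ↔ w ∈ A1)
    (hB1 : ∀ w ∈ S, Q w = 0 ↔ w ∈ B1) : Fr S A1 B1 P Q := by
  have e1 : P = fun w => a * p w + b * q w := funext hP
  have e2 : Q = fun w => c * p w + d * q w := funext hQ
  subst e1
  subst e2
  exact Fr_lin hF hdet hA1 hB1

theorem Dat_tr' {S A : Finset Pl} {x : Pl} {P Q Q' : Pl → ℝ} {v : Pl}
    (hP : ∀ w ∈ S, P w = 0 ↔ w ∈ A) (hAS : A ⊆ S)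
    (α β : ℝ) (hβ : β ≠ 0) (hQ' : ∀ w, Q' w = β * Q w + α * P w) (h : Dat S A x P Q v) :
    Dat S A x P Q' v := by
  have e1 : Q' = fun w => β * Q w + α * P w := funext hQ'
  subst e1
  exact Dat_tr (fun a ha => (hP a (hAS ha)).2 ha)
    (fun w hw h0 => (mem_sdiff.1 hw).2 ((hP w (mem_sdiff.1 hw).1).1 h0)) hβ h

theorem num2 {s X z a b : ℝ} (hX : X ≠ 0) (hz : 0 < z) (ha : 0 < a) (hb : 0 < b) (hs : s = 1 / X)
    (h : s * (s - 1 / z) * (s - 1 / a) * (s - 1 / b) < 0) : 0 < (X - z) * (X - a) * (X - b) := by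
  have e : s * (s - 1 / z) * (s - 1 / a) * (s - 1 / b) =
      -((X - z) * (X - a) * (X - b)) / (X ^ 4 * z * a * b) := by
    rw [hs]
    field_simp
    ring
  rw [e] at h
  by_contra hcon
  have h1 : 0 < X ^ 4 * z * a * b := by positivity
  have h2 : 0 ≤ -((X - z) * (X - a) * (X - b)) / (X ^ 4 * z * a * b) :=
    div_nonneg (by linarith) h1.le
  linarith

theorem num3 {t X z a b : ℝ} (hX : z - X ≠ 0) (hz : 0 < z) (ha : z - a ≠ 0) (hb : z - b ≠ 0)
    (ht : t = 1 / (z - X)) (h : t * (t - 1 / z) * (t - 1 / (z - a)) * (t - 1 / (z - b)) < 0) :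
    X * (X - a) * (X - b) * ((z - a) * (z - b)) < 0 := by
  have e : t * (t - 1 / z) * (t - 1 / (z - a)) * (t - 1 / (z - b)) =
      X * (X - a) * (X - b) * ((z - a) * (z - b)) /
        ((z - X) ^ 4 * z * (z - a) ^ 2 * (z - b) ^ 2) := by
    rw [ht]
    field_simp
    ring
  rw [e] at h
  by_contra hcon
  have h1 : 0 < (z - X) ^ 4 * z * (z - a) ^ 2 * (z - b) ^ 2 := by positivity
  have h2 := div_nonneg (not_lt.1 hcon) h1.le
  linarith

end TrA

open TrA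

/-- P8. -/
theorem triple_adj {S A B D L M C1 C2 C3 : Finset Pl} (hA : A ∈ connectingLines S)
    (hB : B ∈ connectingLines S) (hD : D ∈ connectingLines S) (hL : L ∈ connectingLines S)
    (hM : M ∈ connectingLines S) (eA : Even A.card) (eB : Even B.card) (eD : Even D.card)
    (eL : Even L.card) (eM : Even M.card) {x : Pl} (xA : x ∈ A) (xB : x ∈ B) (xD : x ∈ D)
    (xL : x ∈ L) (xM : x ∈ M) (hAB : A ≠ B) (hAD : A ≠ D) (hAL : A ≠ L) (hAM : A ≠ M)
    (hBD : B ≠ D) (hBL : B ≠ L) (hBM : B ≠ M) (hDL : D ≠ L) (hDM : D ≠ M) (hLM : L ≠ M)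
    (h5 : evl S x = 5) (h1 : Phi2 S A C1) (h2 : Phi2 S B C2) (h3 : Phi2 S D C3)
    (x1 : x ∉ C1) (x2 : x ∉ C2) (x3 : x ∉ C3) {p q : Pl → ℝ} (hF : Fr S A B p q)
    {z a b : ℝ} (cD : Co S D p q z) (cL : Co S L p q a) (cM : Co S M p q b)
    (hz : 0 < z) (ha : 0 < a) (hb : 0 < b) : False := by
  have hAS : A ⊆ S := (mem_connecting.1 hA).1
  have hBS : B ⊆ S := (mem_connecting.1 hB).1
  have hDS : D ⊆ S := (mem_connecting.1 hD).1
  have pA : ∀ w ∈ S, p w = 0 ↔ w ∈ A := hF.2.2.1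
  have qB : ∀ w ∈ S, q w = 0 ↔ w ∈ B := hF.2.2.2.1
  have hza : z ≠ a := fun h => hDL (Co_inj hD hL cD (by rw [h]; exact cL))
  have hzb : z ≠ b := fun h => hDM (Co_inj hD hM cD (by rw [h]; exact cM))
  have hab : a ≠ b := fun h => hLM (Co_inj hL hM cL (by rw [h]; exact cM))
  obtain ⟨R, hR⟩ : ∃ R : Pl → ℝ, ∀ w, R w = z * p w - q w := ⟨_, fun w => rfl⟩
  obtain ⟨np, hnp⟩ : ∃ np : Pl → ℝ, ∀ w, np w = - p w := ⟨_, fun w => rfl⟩
  obtain ⟨nq, hnq⟩ : ∃ nq : Pl → ℝ, ∀ w, nq w = - q w := ⟨_, fun w => rfl⟩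
  have RD : ∀ w ∈ S, R w = 0 ↔ w ∈ D := by
    intro w hw
    rw [hR, sub_eq_zero, ← cD w hw]
    exact eq_comm
  have npA : ∀ w ∈ S, np w = 0 ↔ w ∈ A := by
    intro w hw
    rw [hnp, neg_eq_zero]
    exact pA w hw
  have nqB : ∀ w ∈ S, nq w = 0 ↔ w ∈ B := by
    intro w hw
    rw [hnq, neg_eq_zero]
    exact qB w hw
  -- frames
  have F1n : Fr S A B np nq := Fr_lin' hF (-1) 0 0 (-1) (by norm_num)
    (fun w => by rw [hnp]; ring) (fun w => by rw [hnq]; ring) npA nqB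
  have F2 : Fr S B A q p := Fr_lin' hF 0 1 1 0 (by norm_num)
    (fun w => by ring) (fun w => by ring) qB pA
  have F2n : Fr S B A nq np := Fr_lin' hF 0 (-1) (-1) 0 (by norm_num)
    (fun w => by rw [hnq]; ring) (fun w => by rw [hnp]; ring) nqB npA
  have F3 : Fr S D A R p := Fr_lin' hF z (-1) 1 0 (by norm_num)
    (fun w => by rw [hR]; ring) (fun w => by ring) RD pA
  have F4 : Fr S A D np R := Fr_lin' hF (-1) 0 z (-1) (by norm_num)
    (fun w => by rw [hnp]; ring) (fun w => by rw [hR]; ring) npA RD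
  have F5 : Fr S A D p R := Fr_lin' hF 1 0 z (-1) (by norm_num)
    (fun w => by ring) (fun w => by rw [hR]; ring) pA RD
  have F6 : Fr S B D nq R := Fr_lin' hF 0 (-1) z (-1) (by
      have : (0 : ℝ) * (-1) - (-1) * z = z := by ring
      rw [this]
      exact hz.ne')
    (fun w => by rw [hnq]; ring) (fun w => by rw [hR]; ring) nqB RD
  have F7 : Fr S B D q R := Fr_lin' hF 0 1 z (-1) (by
      have : (0 : ℝ) * (-1) - 1 * z = -z := by ring
      rw [this]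
      exact neg_ne_zero.2 hz.ne')
    (fun w => by ring) (fun w => by rw [hR]; ring) qB RD
  -- the touching points
  obtain ⟨v1, d1, e1⟩ := h1 x xA x1 B hB hAB.symm xB p q hF
  obtain ⟨w1, d1', e1'⟩ := h1 x xA x1 B hB hAB.symm xB np nq F1n
  obtain ⟨v2, d2, e2⟩ := h2 x xB x2 A hA hAB xA q p F2
  obtain ⟨w2, d2', e2'⟩ := h2 x xB x2 A hA hAB xA nq np F2n
  obtain ⟨v3, d3, e3⟩ := h3 x xD x3 A hA hAD xA R p F3
  have v1S := (mem_sdiff.1 d1.1).1
  have w1S := (mem_sdiff.1 d1'.1).1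
  have v2S := (mem_sdiff.1 d2.1).1
  have w2S := (mem_sdiff.1 d2'.1).1
  have v3S := (mem_sdiff.1 d3.1).1
  have pv1 : p v1 ≠ 0 := fun h => (mem_sdiff.1 d1.1).2 ((pA v1 v1S).1 h)
  have pw1 : p w1 ≠ 0 := fun h => (mem_sdiff.1 d1'.1).2 ((pA w1 w1S).1 h)
  have qv2 : q v2 ≠ 0 := fun h => (mem_sdiff.1 d2.1).2 ((qB v2 v2S).1 h)
  have qw2 : q w2 ≠ 0 := fun h => (mem_sdiff.1 d2'.1).2 ((qB w2 w2S).1 h)
  have Rv3 : R v3 ≠ 0 := fun h => (mem_sdiff.1 d3.1).2 ((RD v3 v3S).1 h)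
  -- coordinates in the other frames
  have con : ∀ {T : Finset Pl} {c : ℝ}, Co S T p q c → Co S T np nq c := by
    intro T c h w hw
    rw [hnp, hnq, ← h w hw]
    constructor
    · intro h6
      linarith
    · intro h6
      linarith
  have cos : ∀ {T : Finset Pl} {c : ℝ}, 0 < c → Co S T p q c → Co S T q p (1 / c) := by
    intro T c hc h w hw
    rw [← h w hw, one_div, eq_inv_mul_iff_mul_eq₀ hc.ne']
    exact eq_comm
  have cosn : ∀ {T : Finset Pl} {c : ℝ}, 0 < c → Co S T p q c → Co S T nq np (1 / c) := by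
    intro T c hc h w hw
    rw [← cos hc h w hw, hnp, hnq]
    constructor
    · intro h6
      linarith
    · intro h6
      linarith
  have coR : ∀ {T : Finset Pl} {c : ℝ}, z - c ≠ 0 → Co S T p q c → Co S T R p (1 / (z - c)) := by
    intro T c hc h w hw
    rw [← h w hw, one_div, eq_inv_mul_iff_mul_eq₀ hc, hR]
    constructor
    · intro h6
      linarith
    · intro h6
      linarith
  have coB : Co S B p q 0 := by
    intro w hw
    rw [zero_mul]
    exact qB w hw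
  have coBR : Co S B R p (1 / z) := by
    have := coR (by rw [sub_zero]; exact hz.ne') coB
    rwa [sub_zero] at this
  have hza' : z - a ≠ 0 := sub_ne_zero.2 hza
  have hzb' : z - b ≠ 0 := sub_ne_zero.2 hzb
  -- the vertical parities
  have n1 := vert5 hA hB hD hL hM eA eB eD eL eM xA xB xD xL xM hAB hAD hAL hAM hBD hBL hBM hDL hDM
    hLM h5 hF cD cL cM d1.1 e1
  have m1 := vert5 hA hB hD hL hM eA eB eD eL eM xA xB xD xL xM hAB hAD hAL hAM hBD hBL hBM hDL hDM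
    hLM h5 F1n (con cD) (con cL) (con cM) d1'.1 e1'
  have n2 := vert5 hB hA hD hL hM eB eA eD eL eM xB xA xD xL xM hAB.symm hBD hBL hBM hAD hAL hAM
    hDL hDM hLM h5 F2 (cos hz cD) (cos ha cL) (cos hb cM) d2.1 e2
  have m2 := vert5 hB hA hD hL hM eB eA eD eL eM xB xA xD xL xM hAB.symm hBD hBL hBM hAD hAL hAM
    hDL hDM hLM h5 F2n (cosn hz cD) (cosn ha cL) (cosn hb cM) d2'.1 e2'
  have n3 := vert5 hD hA hB hL hM eD eA eB eL eM xD xA xB xL xM hAD.symm hBD.symm hDL hDM hAB hAL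
    hAM hBL hBM hLM h5 F3 coBR (coR hza' cL) (coR hzb' cM) d3.1 e3
  rw [hnp, hnq, neg_div_neg_eq] at m1 m2
  -- nonvanishing
  have nz : ∀ {s c1 c2 c3 : ℝ}, s * (s - c1) * (s - c2) * (s - c3) < 0 → s ≠ 0 ∧ s ≠ c1 := by
    intro s c1 c2 c3 h
    constructor
    · rintro rfl
      simp at h
    · rintro rfl
      simp at h
  have qv1 : q v1 ≠ 0 := fun h => (nz n1).1 (by rw [h, zero_div])
  have qw1 : q w1 ≠ 0 := fun h => (nz m1).1 (by rw [h, zero_div])
  have pv2 : p v2 ≠ 0 := fun h => (nz n2).1 (by rw [h, zero_div])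
  have pw2 : p w2 ≠ 0 := fun h => (nz m2).1 (by rw [h, zero_div])
  have pv3 : p v3 ≠ 0 := fun h => (nz n3).1 (by rw [h, zero_div])
  have Rv1 : R v1 ≠ 0 := by
    intro h
    apply (nz n1).2
    rw [hR, sub_eq_zero] at h
    rw [div_eq_iff pv1, h]
  have Rw1 : R w1 ≠ 0 := by
    intro h
    apply (nz m1).2
    rw [hR, sub_eq_zero] at h
    rw [div_eq_iff pw1, h]
  have Rv2 : R v2 ≠ 0 := by
    intro h
    apply (nz n2).2
    rw [hR, sub_eq_zero] at h
    rw [div_eq_div_iff qv2 hz.ne', ← h]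
    ring
  have Rw2 : R w2 ≠ 0 := by
    intro h
    apply (nz m2).2
    rw [hR, sub_eq_zero] at h
    rw [div_eq_div_iff qw2 hz.ne', ← h]
    ring
  have qv3 : q v3 ≠ 0 := by
    intro h
    apply (nz n3).2
    rw [hR, h, sub_zero, div_eq_div_iff (mul_ne_zero hz.ne' pv3) hz.ne']
    ring
  -- the ratio `R / p`
  have rat : ∀ w, p w ≠ 0 → R w / p w = z - q w / p w := by
    intro w hw
    rw [hR, sub_div, mul_div_assoc, div_self hw, mul_one]
  have ratq : ∀ w, q w ≠ 0 → R w / q w = z / (q w / p w) - 1 := by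
    intro w hw
    rw [hR, sub_div, div_self hw, div_div_eq_mul_div]
  have k2 := num2 (X := q v2 / p v2) (div_ne_zero qv2 pv2) hz ha hb (by rw [one_div_div]) n2
  have l2 := num2 (X := q w2 / p w2) (div_ne_zero qw2 pw2) hz ha hb (by rw [one_div_div]) m2
  have k3 := num3 (X := q v3 / p v3) (by rw [← rat v3 pv3]; exact div_ne_zero Rv3 pv3) hz hza' hzb'
    (by rw [← rat v3 pv3, one_div_div]) n3
  -- the order relations
  have r1 := rule hF hAS hBS xA xB d1 d2 (fun h => qv1 ((qB v1 v1S).2 h))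
    (fun h => pv2 ((pA v2 v2S).2 h))
  have s1 := rule F1n hAS hBS xA xB d1' d2' (fun h => qw1 ((qB w1 w1S).2 h))
    (fun h => pw2 ((pA w2 w2S).2 h))
  rw [hnp, hnq, hnp, hnq, neg_div_neg_eq, neg_div_neg_eq] at s1
  have t1 : Dat S A x np R w1 := Dat_tr' npA hAS (-z) 1 one_ne_zero
    (fun w => by rw [hR, hnp, hnq]; ring) d1'
  have t2 : Dat S D x R np v3 := Dat_tr' RD hDS 0 (-1)
    (by norm_num) (fun w => by rw [hnp]; ring) d3
  have r2 := rule F4 hAS hDS xA xD t1 t2 (fun h => Rw1 ((RD w1 w1S).2 h))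
    (fun h => pv3 ((pA v3 v3S).2 h))
  rw [hnp, hnp, div_neg, div_neg, rat w1 pw1, rat v3 pv3, neg_sub, neg_sub] at r2
  have t3 : Dat S A x p R v1 := Dat_tr' pA hAS z (-1)
    (by norm_num) (fun w => by rw [hR]; ring) d1
  have r3 := rule F5 hAS hDS xA xD t3 d3 (fun h => Rv1 ((RD v1 v1S).2 h))
    (fun h => pv3 ((pA v3 v3S).2 h))
  rw [rat v1 pv1, rat v3 pv3] at r3
  have t4 : Dat S B x nq R w2 := Dat_tr' nqB hBS 1 (-z)
    (neg_ne_zero.2 hz.ne') (fun w => by rw [hR, hnp, hnq]; ring) d2'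
  have t5 : Dat S D x R nq v3 := Dat_tr' RD hDS 1 (-z)
    (neg_ne_zero.2 hz.ne') (fun w => by rw [hR, hnq]; ring) d3
  have r4 := rule F6 hBS hDS xB xD t4 t5 (fun h => Rw2 ((RD w2 w2S).2 h))
    (fun h => qv3 ((qB v3 v3S).2 h))
  rw [hnq, hnq, div_neg, div_neg, ratq w2 qw2, ratq v3 qv3, neg_sub, neg_sub] at r4
  have t6 : Dat S B x q R v2 := Dat_tr' qB hBS (-1) z
    hz.ne' (fun w => by rw [hR]; ring) d2
  have t7 : Dat S D x R q v3 := Dat_tr' RD hDS (-1) z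
    hz.ne' (fun w => by rw [hR]; ring) d3
  have r5 := rule F7 hBS hDS xB xD t6 t7 (fun h => Rv2 ((RD v2 v2S).2 h))
    (fun h => qv3 ((qB v3 v3S).2 h))
  rw [ratq v2 qv2, ratq v3 qv3] at r5
  exact five_alg hz ha hb hza hzb hab n1 m1 k2 l2 k3 r1 s1 r2 r3 r4 r5

end Pool.Agent.Dirac86.Tri
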